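import Pool.Agent.AMA.Codeg

/-!
# Parts theorem: almost all labels are admissible
-/

set_option autoImplicit false

namespace Pool.Agent.AMA

open Finset
open Pool.Agent.MP9a04dc (deg codeg Good)

section

variable {P : Type} [Fintype P] [DecidableEq P] {s : ℕ} {σ : PSys P s}
  {Λ : Bool → Fin 3 → Finset ℕ} {h : Bool → ℕ} {R p N k0 B : ℕ}
  {c1 C1 ν ν' : ℝ} {Sp : P → Finset (Frm s)} {Win : Bool → Finset ℕ}

private lemma AdmB_cf_lt (H : PSOK σ Λ h R p N k0 B c1 C1 ν ν' Sp Win) (Q : P)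
    (u : Fin 4 × Frm s) (hu : u ∈ σ.cf Q) : u.2.2 < p := by
  unfold PSys.cf at hu
  simp only [Finset.mem_union, Finset.mem_image] at hu
  rcases hu with (⟨i, _, rfl⟩ | ⟨φ, hφ, rfl⟩) | ⟨β, hβ, rfl⟩
  · exact lt_of_le_of_lt (Nat.zero_le _) H.Rp
  · exact H.S_lt Q φ hφ
  · unfold PSys.Bf at hβ
    rw [Finset.mem_filter, Finset.mem_biUnion] at hβ
    obtain ⟨⟨g, hg, hb⟩, _⟩ := hβ
    exact H.S_lt Q (insert g.1 β.1, β.2) (H.G_S Q g hg β hb)

/-- total probability of the labels that are not admissible. Proof: union bound over the pairs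
`u ≠ v` of `cf Q` with the same tag: if the slots are different then `Pr_coinc_mod_le` with `H = c1 N`
(`a = b = 0`) gives `1/(c1 N)`; if the slots are the same then the offsets are different (same tag and
same form would give `u = v`) and `< p` (`S_lt`, `G_S`), so the values are always different modulo `p`. At most `card P * (4 s)^2 ≤ 16 s^2 N`
pairs. -/
theorem sum_not_adm_le (H : PSOK σ Λ h R p N k0 B c1 C1 ν ν' Sp Win) (hN : 0 < c1 * N) :
    ∑ Q, Pr Λ R (σ.kd Q) (fun x => ¬ σ.Adm p Q x) ≤ 16 * s ^ 2 / c1 + B := by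
  classical
  have hN0 : (0 : ℝ) < N := by
    rcases Nat.eq_zero_or_pos N with h0 | h0
    · simp [h0] at hN
    · exact_mod_cast h0
  have hc1 : 0 < c1 := by
    by_contra hc
    exact absurd (mul_nonpos_of_nonpos_of_nonneg (not_lt.1 hc) hN0.le) (not_le.2 hN)
  have hQ : ∀ Q, Pr Λ R (σ.kd Q) (fun x => ¬ σ.Adm p Q x) ≤
      16 * (s : ℝ) ^ 2 * (1 / (c1 * N)) := by
    intro Q
    have ho : ∀ i b, σ.kd Q i = some b → 0 < h b := by
      intro i b hib
      have h1 := H.hlow b ⟨Q, i, hib⟩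
      exact_mod_cast lt_of_lt_of_le hN h1
    have hoH : ∀ i b, σ.kd Q i = some b → c1 * N ≤ h b := fun i b hib => H.hlow b ⟨Q, i, hib⟩
    set F := ((σ.cf Q) ×ˢ (σ.cf Q)).filter (fun u => u.1.2.1 ≠ u.2.2.1) with hF
    have h1 : Pr Λ R (σ.kd Q) (fun x => ¬ σ.Adm p Q x) ≤
        Pr Λ R (σ.kd Q) (fun x => ∃ u ∈ F, (val u.1.2 x + 0) % p = (val u.2.2 x + 0) % p) := by
      refine Pr_mono (fun x hx => ?_)
      unfold PSys.Adm at hx
      push Not at hx
      obtain ⟨u, hu, v, hv, huv, hval, hne⟩ := hx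
      refine ⟨(u, v), ?_, by simpa using hval⟩
      rw [hF, Finset.mem_filter, Finset.mem_product]
      refine ⟨⟨hu, hv⟩, fun hs => hne ?_⟩
      have h2 : u.2.2 = v.2.2 := by
        unfold val at hval
        simp only at hs
        rw [hs] at hval
        have h3 : u.2.2 ≡ v.2.2 [MOD p] := Nat.ModEq.add_right_cancel' _ hval
        exact Nat.ModEq.eq_of_lt_of_lt h3 (AdmB_cf_lt H Q u hu) (AdmB_cf_lt H Q v hv)
      exact Prod.ext huv (Prod.ext hs h2)
    have h2 : Pr Λ R (σ.kd Q) (fun x => ∃ u ∈ F, (val u.1.2 x + 0) % p = (val u.2.2 x + 0) % p) ≤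
        ∑ u ∈ F, Pr Λ R (σ.kd Q) (fun x => (val u.1.2 x + 0) % p = (val u.2.2 x + 0) % p) :=
      Pr_exists_le F (fun u x => (val u.1.2 x + 0) % p = (val u.2.2 x + 0) % p)
    have h3 : ∑ u ∈ F, Pr Λ R (σ.kd Q) (fun x => (val u.1.2 x + 0) % p = (val u.2.2 x + 0) % p) ≤
        ∑ u ∈ F, (1 / (c1 * N)) := by
      refine Finset.sum_le_sum (fun u hu => ?_)
      rw [hF, Finset.mem_filter, Finset.mem_product] at hu
      exact Pr_coinc_mod_le H.lam ho hN hoH H.Rp u.1.2 u.2.2 (cf_act H Q u.1 hu.1.1).2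
        (cf_act H Q u.2 hu.1.2).2 hu.2 0 0
    have h4 : (F.card : ℝ) ≤ 16 * (s : ℝ) ^ 2 := by
      have h5 : F.card ≤ (4 * s) * (4 * s) := by
        refine (Finset.card_filter_le _ _).trans ?_
        rw [Finset.card_product]
        exact Nat.mul_le_mul (card_cf_le H Q) (card_cf_le H Q)
      have h6 : (F.card : ℝ) ≤ ((4 * s) * (4 * s) : ℕ) := by exact_mod_cast h5
      refine h6.trans (le_of_eq ?_)
      push_cast
      ring
    refine (h1.trans (h2.trans h3)).trans ?_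
    rw [Finset.sum_const, nsmul_eq_mul]
    exact mul_le_mul_of_nonneg_right h4 (by positivity)
  have h7 : ∑ Q, Pr Λ R (σ.kd Q) (fun x => ¬ σ.Adm p Q x) ≤
      ∑ _Q : P, 16 * (s : ℝ) ^ 2 * (1 / (c1 * N)) := Finset.sum_le_sum (fun Q _ => hQ Q)
  have h8 : ∑ _Q : P, 16 * (s : ℝ) ^ 2 * (1 / (c1 * N)) ≤ 16 * (s : ℝ) ^ 2 / c1 := by
    rw [Finset.sum_const, nsmul_eq_mul, Finset.card_univ]
    have h9 : (Fintype.card P : ℝ) ≤ N := by exact_mod_cast H.cardP
    calc (Fintype.card P : ℝ) * (16 * (s : ℝ) ^ 2 * (1 / (c1 * N)))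
        ≤ N * (16 * (s : ℝ) ^ 2 * (1 / (c1 * N))) :=
          mul_le_mul_of_nonneg_right h9 (by positivity)
      _ = 16 * (s : ℝ) ^ 2 / c1 := by field_simp
  have h10 : (0 : ℝ) ≤ B := Nat.cast_nonneg B
  linarith

/-- `∑ wH` over a set of hyperedges given by events: `Pr (A Q ∧ Adm) ≥ Pr (A Q) - Pr (¬ Adm)`, sum
over the parts (the sum over `HE P s R = P × _` is an iterated sum). -/
theorem sum_wH_filter_ge (H : PSOK σ Λ h R p N k0 B c1 C1 ν ν' Sp Win) (hN : 0 < c1 * N)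
    (A : P → (Fin s → ℕ) → Prop) [DecidablePred fun e : HE P s R => A e.1 (lb e)] :
    ∑ Q, Pr Λ R (σ.kd Q) (A Q) - (16 * s ^ 2 / c1 + B) ≤
      ∑ e ∈ univ.filter (fun e : HE P s R => A e.1 (lb e)), wH σ Λ R p e := by
  classical
  have h1 : ∑ e ∈ univ.filter (fun e : HE P s R => A e.1 (lb e)), wH σ Λ R p e =
      ∑ Q, Pr Λ R (σ.kd Q) (fun x => A Q x ∧ σ.Adm p Q x) := by
    rw [Finset.sum_filter, Fintype.sum_prod_type]
    refine Finset.sum_congr rfl (fun Q _ => ?_)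
    unfold Pr
    refine Finset.sum_congr rfl (fun x _ => ?_)
    have hlb : (fun i => (x i : ℕ)) = lb ((Q, x) : HE P s R) := rfl
    simp only [wH, hlb]
    by_cases hA : A Q (lb ((Q, x) : HE P s R))
    · by_cases hB : σ.Adm p Q (lb ((Q, x) : HE P s R))
      · simp [hA, hB]
      · simp [hA, hB]
    · simp [hA]
  have h2 : ∀ Q, Pr Λ R (σ.kd Q) (A Q) ≤ Pr Λ R (σ.kd Q) (fun x => A Q x ∧ σ.Adm p Q x) +
      Pr Λ R (σ.kd Q) (fun x => ¬ σ.Adm p Q x) := by
    intro Q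
    refine le_trans (Pr_mono (B := fun x => (A Q x ∧ σ.Adm p Q x) ∨ ¬ σ.Adm p Q x) ?_)
      (Pr_or_le (fun x => A Q x ∧ σ.Adm p Q x) (fun x => ¬ σ.Adm p Q x))
    intro x hx
    by_cases hB : σ.Adm p Q x
    · exact Or.inl ⟨hx, hB⟩
    · exact Or.inr hB
  have h3 : ∑ Q, Pr Λ R (σ.kd Q) (A Q) ≤
      ∑ Q, Pr Λ R (σ.kd Q) (fun x => A Q x ∧ σ.Adm p Q x) +
      ∑ Q, Pr Λ R (σ.kd Q) (fun x => ¬ σ.Adm p Q x) := by
    rw [← Finset.sum_add_distrib]
    exact Finset.sum_le_sum (fun Q _ => h2 Q)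
  have h4 := sum_not_adm_le H hN
  rw [h1]
  linarith

end

end Pool.Agent.AMA
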