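import Pool.Agent.AMB.Mach

/-!
# Parts theorem: definitions

A *part* is a bounded piece of a graph with at most `s` *slots* (edges to be labelled). A slot is of
kind `some true` (high), `some false` (low) or `none` (not used). Sums at vertices and the sums
without the flexible edge are *linear forms*: a set of slots and an offset.
-/

set_option autoImplicit false

namespace Pool.Agent.AMA

open Finset
open Pool.Agent.AMB (pE)

/-- a linear form on the slots: set of slots and offset -/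
abbrev Frm (s : ℕ) := Finset (Fin s) × ℕ

/-- the value of a linear form -/
def val {s : ℕ} (φ : Frm s) (x : Fin s → ℕ) : ℕ := φ.2 + ∑ i ∈ φ.1, x i

/-- A system of parts: kinds of the slots, sum forms, gadgets (flexible slot `g.1` and the forms of its
ends *without* the flexible slot); `z` is the offset of the forms that are labels of single slots. -/
structure PSys (P : Type) (s : ℕ) where
  /-- the offset of the labels of single slots -/
  z : ℕ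
  /-- the kinds of the slots -/
  kd : P → Fin s → Option Bool
  /-- the sum forms -/
  S : P → Finset (Frm s)
  /-- the gadgets -/
  Gd : P → Finset (Fin s × Finset (Frm s))

variable {P : Type} {s : ℕ}

/-- the forms (without the flexible slot) of the gadget ends that get a coordinate: those that are
not constant and not the label of a single slot -/
def PSys.Bf (σ : PSys P s) (Q : P) : Finset (Frm s) :=
  ((σ.Gd Q).biUnion fun g => g.2).filter fun β => β.1.Nonempty ∧ ¬(β.1.card = 1 ∧ β.2 = σ.z)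

/-- the tag of such a form: `2` if it has a high slot, else `3` -/
def PSys.tg (σ : PSys P s) (Q : P) (β : Frm s) : Fin 4 :=
  if ∃ i ∈ β.1, σ.kd Q i = some true then 2 else 3

/-- all coordinates (tag, form) of a part; tag `0`: label, tag `1`: sum, tags `2, 3`: gadget ends -/
def PSys.cf (σ : PSys P s) (Q : P) : Finset (Fin 4 × Frm s) :=
  ((univ.filter fun i => σ.kd Q i ≠ none).image fun i => ((0 : Fin 4), (({i} : Finset (Fin s)), 0))) ∪
    (σ.S Q).image (fun φ => ((1 : Fin 4), φ)) ∪ (σ.Bf Q).image (fun β => (σ.tg Q β, β))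

/-- Admissible labels of a part: different coordinates with the same tag have different values
modulo `p`. -/
def PSys.Adm (σ : PSys P s) (p : ℕ) (Q : P) (x : Fin s → ℕ) : Prop :=
  ∀ u ∈ σ.cf Q, ∀ v ∈ σ.cf Q, u.1 = v.1 → val u.2 x % p = val v.2 x % p → u = v

/-- The label sets: `Λ k 0` all labels of kind `k`, `Λ k 1` the lower half, `Λ k 2` the upper half,
both of size `h k`. -/
structure LamOK (Λ : Bool → Fin 3 → Finset ℕ) (h : Bool → ℕ) (R : ℕ) : Prop where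
  union : ∀ k, Λ k 0 = Λ k 1 ∪ Λ k 2
  lt : ∀ k, ∀ a ∈ Λ k 1, ∀ b ∈ Λ k 2, a < b
  card1 : ∀ k, (Λ k 1).card = h k
  card2 : ∀ k, (Λ k 2).card = h k
  pos : ∀ k, ∀ a ∈ Λ k 0, 1 ≤ a
  le : ∀ k, ∀ a ∈ Λ k 0, a ≤ R
  disj : Disjoint (Λ true 0) (Λ false 0)

/-- weight of the label `y` for a slot of kind `o` in the mode `md` -/
noncomputable def wl (Λ : Bool → Fin 3 → Finset ℕ) (R : ℕ) (md : Fin 3) (o : Option Bool)
    (y : Fin (R + 1)) : ℝ :=
  match o with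
  | none => if (y : ℕ) = 0 then 1 else 0
  | some k => if (y : ℕ) ∈ Λ k md then 1 / ((Λ k md).card : ℝ) else 0

/-- the probabilities of the modes -/
noncomputable def om (md : Fin 3) : ℝ := if md = 0 then 1 / 2 else 1 / 4

/-- probability of the labels `x` for the kinds `o` -/
noncomputable def pr (Λ : Bool → Fin 3 → Finset ℕ) (R : ℕ) (o : Fin s → Option Bool)
    (x : Fin s → Fin (R + 1)) : ℝ :=
  ∑ md, om md * ∏ i, wl Λ R md (o i) (x i)

open Classical in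
/-- probability of an event -/
noncomputable def Pr (Λ : Bool → Fin 3 → Finset ℕ) (R : ℕ) (o : Fin s → Option Bool)
    (A : (Fin s → ℕ) → Prop) : ℝ :=
  ∑ x : Fin s → Fin (R + 1), if A (fun i => (x i : ℕ)) then pr Λ R o x else 0

open Classical in
/-- probability of an event in one mode -/
noncomputable def Prm (Λ : Bool → Fin 3 → Finset ℕ) (R : ℕ) (md : Fin 3) (o : Fin s → Option Bool)
    (A : (Fin s → ℕ) → Prop) : ℝ :=
  pE (fun i => wl Λ R md (o i)) (fun x => if A (fun i => (x i : ℕ)) then 1 else 0)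

/-- `k` occurs as a kind -/
def Occ (σ : PSys P s) (k : Bool) : Prop := ∃ Q i, σ.kd Q i = some k

/-- A form of positive gain: at most `k0` further slots besides either two high slots, or a high slot
and a low slot (allowed if there are enough low labels). -/
def Spec (h : Bool → ℕ) (k0 : ℕ) (o : Fin s → Option Bool) (φ : Frm s) : Prop :=
  φ.1.card ≤ k0 + 2 ∧ ∃ i ∈ φ.1, ∃ j ∈ φ.1, i ≠ j ∧ o i = some true ∧
    (o j = some true ∨ (o j = some false ∧ 3 * h true ≤ 4 * h false))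

/-- The hypotheses of the parts theorem (`N` = size parameter, all values are taken modulo `p`). -/
structure PSOK [Fintype P] [DecidableEq P] (σ : PSys P s) (Λ : Bool → Fin 3 → Finset ℕ)
    (h : Bool → ℕ) (R p N k0 B : ℕ) (c1 C1 ν ν' : ℝ) (Sp : P → Finset (Frm s))
    (Win : Bool → Finset ℕ) : Prop where
  lam : LamOK Λ h R
  cardP : Fintype.card P ≤ N
  Rp : R < p
  sRp : s * R < p
  pN : (p : ℝ) ≤ C1 * N
  hlow : ∀ k, Occ σ k → c1 * N ≤ h k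
  hhigh : c1 * N ≤ h true
  -- the slots
  slH : ∑ Q, ((univ.filter fun i => σ.kd Q i = some true).card) ≤ 2 * h true
  slL : ∑ Q, ((univ.filter fun i => σ.kd Q i = some false).card) ≤ 2 * h false
  -- the sum forms
  S_act : ∀ Q, ∀ φ ∈ σ.S Q, ∀ i ∈ φ.1, σ.kd Q i ≠ none
  S_hi : ∀ Q, ∀ φ ∈ σ.S Q, ∃ i ∈ φ.1, σ.kd Q i = some true
  S_inj : ∀ Q, ∀ φ ∈ σ.S Q, ∀ ψ ∈ σ.S Q, φ.1 = ψ.1 → φ = ψ
  S_lt : ∀ Q, ∀ φ ∈ σ.S Q, φ.2 < p
  S_card : ∀ Q, (σ.S Q).card ≤ s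
  S_sum : ∑ Q, (σ.S Q).card ≤ 2 * h true
  -- the special forms
  Sp_sub : ∀ Q, Sp Q ⊆ σ.S Q
  Sp_spec : ∀ Q, ∀ φ ∈ Sp Q, Spec h k0 (σ.kd Q) φ
  Sp_sum : ν * (2 * h true : ℕ) ≤ ∑ Q, ((Sp Q).card : ℝ)
  -- the gadgets
  G_act : ∀ Q, ∀ g ∈ σ.Gd Q, σ.kd Q g.1 ≠ none
  G_uniq : ∀ Q, ∀ g ∈ σ.Gd Q, ∀ g' ∈ σ.Gd Q, g.1 = g'.1 → g = g'
  G_card : ∀ Q, ∀ g ∈ σ.Gd Q, g.2.Nonempty ∧ g.2.card ≤ 2
  G_notin : ∀ Q, ∀ g ∈ σ.Gd Q, ∀ β ∈ g.2, g.1 ∉ β.1
  G_S : ∀ Q, ∀ g ∈ σ.Gd Q, ∀ β ∈ g.2, (insert g.1 β.1, β.2) ∈ σ.S Q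
  G_ne : ∀ Q, ∀ g ∈ σ.Gd Q, ∀ β ∈ g.2, ∀ β' ∈ g.2, β.1 = β'.1 → β = β'
  B_card : ∀ Q, (σ.Bf Q).card ≤ 2 * s
  B_H : ∑ Q, (((σ.Bf Q).filter fun β => σ.tg Q β = 2).card) ≤ 2 * h true
  B_L : ∑ Q, (((σ.Bf Q).filter fun β => σ.tg Q β = 3).card) ≤ 2 * h false
  G_sum : ν' * N ≤ ∑ Q, ((σ.Gd Q).card : ℝ)
  -- multiplicities
  m1 : ∀ δ : ℕ, ∑ Q, (((σ.S Q).filter fun φ => φ.1.card = 1 ∧ φ.2 = δ).card) ≤ B
  m2 : ∀ δ : ℕ, ∑ Q, ∑ g ∈ σ.Gd Q, ((g.2.filter fun β => β.1 = ∅ ∧ β.2 = δ).card) ≤ B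
  m2' : ∀ δ : ℕ, δ ≠ σ.z →
    ∑ Q, ∑ g ∈ σ.Gd Q, ((g.2.filter fun β => β.1.card = 1 ∧ β.2 = δ).card) ≤ B
  m3 : ∀ δ : ℕ, ∑ Q, ((((σ.S Q) ×ˢ (σ.Bf Q)).filter fun u =>
    u.1.1 = u.2.1 ∧ u.1.2 % p = (u.2.2 + δ) % p).card) ≤ B
  m4 : ∀ δ : ℕ, ∑ Q, ((((σ.Bf Q) ×ˢ (σ.Bf Q)).filter fun u =>
    u.1 ≠ u.2 ∧ u.1.1 = u.2.1 ∧ u.1.2 % p = (u.2.2 + δ) % p).card) ≤ B
  -- the windows
  W_sub : ∀ k, Win k ⊆ Λ k 0
  W_card : ∀ k, h k ≤ 2 * (Win k).card

/-- The gadget `g` of the part `Q` with the labels `x` is good for the label `y` and the partial sums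
`π1, π2` (everything modulo `p`). -/
def GOK (σ : PSys P s) (Win : Bool → Finset ℕ) (p : ℕ) (T : Finset ℕ) (Q : P)
    (x : Fin s → ℕ) (y π1 π2 : ℕ) (g : Fin s × Finset (Frm s)) : Prop :=
  g ∈ σ.Gd Q ∧ (∀ k, σ.kd Q g.1 = some k → x g.1 ∈ Win k) ∧
    (∀ β ∈ g.2, (val β x + y) % p ∈ T) ∧
    (∀ β ∈ g.2, ∀ β' ∈ g.2, val β x % p = val β' x % p → β = β') ∧
    (π1 + x g.1) % p ∈ T ∧ (π2 + x g.1) % p ∈ T ∧
    (∀ β ∈ g.2, (π1 + x g.1) % p ≠ (val β x + y) % p ∧ (π2 + x g.1) % p ≠ (val β x + y) % p)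

end Pool.Agent.AMA
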