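import Mathlib

/-!
# Counting pairs with a given sum (the half/half trick)

`A = A1 ∪ A2` with `A1 < A2`, `|A1| = |A2| = m`, and `B = B1 ∪ B2` with `B1 < B2`, `|B1| = |B2| = n`.
-/

set_option autoImplicit false

namespace Pool.Agent.AMA

open Finset

/-- the number of pairs with sum `t` -/
def np (A B : Finset ℕ) (t : ℕ) : ℕ := ((A ×ˢ B).filter fun p => p.1 + p.2 = t).card

theorem np_le_left (A B : Finset ℕ) (t : ℕ) : np A B t ≤ A.card := by
  unfold np
  refine Finset.card_le_card_of_injOn (fun p => p.1) ?_ ?_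
  · intro p hp
    simp only [Finset.coe_filter, Finset.mem_product, Set.mem_setOf_eq] at hp
    exact hp.1.1
  · intro p hp q hq hpq
    simp only [Finset.coe_filter, Finset.mem_product, Set.mem_setOf_eq] at hp hq
    simp only at hpq
    ext
    · exact hpq
    · omega

theorem np_le_right (A B : Finset ℕ) (t : ℕ) : np A B t ≤ B.card := by
  unfold np
  refine Finset.card_le_card_of_injOn (fun p => p.2) ?_ ?_
  · intro p hp
    simp only [Finset.coe_filter, Finset.mem_product, Set.mem_setOf_eq] at hp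
    exact hp.1.2
  · intro p hp q hq hpq
    simp only [Finset.coe_filter, Finset.mem_product, Set.mem_setOf_eq] at hp hq
    simp only at hpq
    ext
    · omega
    · exact hpq

private lemma Pair_union_right {A B B' : Finset ℕ} (hd : Disjoint B B') (t : ℕ) :
    np A (B ∪ B') t = np A B t + np A B' t := by
  unfold np
  rw [Finset.product_union, Finset.filter_union, Finset.card_union_of_disjoint]
  apply Finset.disjoint_filter_filter
  rw [Finset.disjoint_product]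
  exact Or.inr hd

private lemma Pair_union_left {A A' B : Finset ℕ} (hd : Disjoint A A') (t : ℕ) :
    np (A ∪ A') B t = np A B t + np A' B t := by
  unfold np
  rw [Finset.union_product, Finset.filter_union, Finset.card_union_of_disjoint]
  apply Finset.disjoint_filter_filter
  rw [Finset.disjoint_product]
  exact Or.inl hd

/-- rows and columns -/
theorem np_add_right_le {A B B' : Finset ℕ} (hd : Disjoint B B') (t : ℕ) :
    np A B t + np A B' t ≤ A.card := by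
  rw [← Pair_union_right hd]
  exact np_le_left _ _ _

theorem np_add_left_le {A A' B : Finset ℕ} (hd : Disjoint A A') (t : ℕ) :
    np A B t + np A' B t ≤ B.card := by
  rw [← Pair_union_left hd]
  exact np_le_right _ _ _

theorem np_union {A1 A2 B1 B2 : Finset ℕ} (hA : Disjoint A1 A2) (hB : Disjoint B1 B2) (t : ℕ) :
    np (A1 ∪ A2) (B1 ∪ B2) t = np A1 B1 t + np A1 B2 t + np A2 B1 t + np A2 B2 t := by
  rw [Pair_union_left hA, Pair_union_right hB, Pair_union_right hB]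
  ring

/-- lower-lower and upper-upper pairs do not occur together -/
theorem np_lo_or_up {A1 A2 B1 B2 : Finset ℕ} (hA : ∀ a ∈ A1, ∀ b ∈ A2, a < b)
    (hB : ∀ a ∈ B1, ∀ b ∈ B2, a < b) (t : ℕ) : np A1 B1 t = 0 ∨ np A2 B2 t = 0 := by
  by_contra hcon
  push Not at hcon
  obtain ⟨h1, h2⟩ := hcon
  unfold np at h1 h2
  obtain ⟨p, hp⟩ := Finset.card_pos.mp (Nat.pos_of_ne_zero h1)
  obtain ⟨q, hq⟩ := Finset.card_pos.mp (Nat.pos_of_ne_zero h2)
  rw [Finset.mem_filter, Finset.mem_product] at hp hq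
  have ha := hA p.1 hp.1.1 q.1 hq.1.1
  have hb := hB p.2 hp.1.2 q.2 hq.1.2
  omega

private lemma Pair_disj {A B : Finset ℕ} (h : ∀ a ∈ A, ∀ b ∈ B, a < b) : Disjoint A B := by
  rw [Finset.disjoint_left]
  intro a ha hb
  exact absurd (h a ha a hb) (lt_irrefl _)

/-- the linear arithmetic behind both pair bounds -/
private lemma Pair_arith {a b c d m n θ : ℝ} (ha : 0 ≤ a) (hb : 0 ≤ b) (hc : 0 ≤ c) (hd : 0 ≤ d)
    (h1 : a + b ≤ m) (h2 : c + d ≤ m) (h3 : a + c ≤ n) (h4 : b + d ≤ n) (had : a = 0 ∨ d = 0)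
    (hmn : 3 * m ≤ 4 * n) (hθ0 : 0 ≤ θ) (hθ1 : θ ≤ 1) :
    3 * (θ * (a + b + c + d) + 2 * a) ≤ (6 + 4 * θ) * n := by
  rcases had with h | h
  · subst h
    have e : 0 ≤ θ * (2 * n - (0 + b + c + d)) := mul_nonneg hθ0 (by linarith)
    have hn : 0 ≤ n := by linarith
    have e2 : 0 ≤ (1 - θ) * n := mul_nonneg (by linarith) hn
    nlinarith
  · subst h
    have e1 : 0 ≤ θ * (m + n - a - (a + b + c)) := mul_nonneg hθ0 (by linarith)
    have e2 : 0 ≤ (2 - θ) * (n - a) := mul_nonneg (by linarith) (by linarith)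
    have e3 : 0 ≤ θ * (4 * n - 3 * m) := mul_nonneg hθ0 (by linarith)
    nlinarith

private lemma Pair_arith' {a b c d m θ : ℝ} (ha : 0 ≤ a) (hb : 0 ≤ b) (hc : 0 ≤ c) (hd : 0 ≤ d)
    (h1 : a + b ≤ m) (h2 : c + d ≤ m) (h3 : a + c ≤ m) (h4 : b + d ≤ m) (had : a = 0 ∨ d = 0)
    (hθ0 : 0 ≤ θ) (hθ1 : θ ≤ 1) :
    θ * (a + b + c + d) + 2 * a ≤ (2 + θ) * m := by
  rcases had with h | h
  · subst h
    have e : 0 ≤ θ * (2 * m - (0 + b + c + d)) := mul_nonneg hθ0 (by linarith)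
    have hn : 0 ≤ m := by linarith
    have e2 : 0 ≤ (1 - θ) * m := mul_nonneg (by linarith) hn
    nlinarith
  · subst h
    have e1 : 0 ≤ θ * (m + m - a - (a + b + c)) := mul_nonneg hθ0 (by linarith)
    have e2 : 0 ≤ (2 - θ) * (m - a) := mul_nonneg (by linarith) (by linarith)
    nlinarith

private lemma Pair_cast {A1 A2 B1 B2 : Finset ℕ} {m n : ℕ} (hA : ∀ a ∈ A1, ∀ b ∈ A2, a < b)
    (hB : ∀ a ∈ B1, ∀ b ∈ B2, a < b) (h1 : A1.card = m) (h2 : A2.card = m) (h3 : B1.card = n)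
    (h4 : B2.card = n) (t : ℕ) :
    (np (A1 ∪ A2) (B1 ∪ B2) t : ℝ) = np A1 B1 t + np A1 B2 t + np A2 B1 t + np A2 B2 t ∧
    (np A1 B1 t : ℝ) + np A1 B2 t ≤ m ∧ (np A2 B1 t : ℝ) + np A2 B2 t ≤ m ∧
    (np A1 B1 t : ℝ) + np A2 B1 t ≤ n ∧ (np A1 B2 t : ℝ) + np A2 B2 t ≤ n ∧
    ((np A1 B1 t : ℝ) = 0 ∨ (np A2 B2 t : ℝ) = 0) := by
  have dA := Pair_disj hA
  have dB := Pair_disj hB
  refine ⟨by exact_mod_cast np_union dA dB t, ?_, ?_, ?_, ?_, ?_⟩
  · have := np_add_right_le (A := A1) dB t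
    rw [h1] at this
    exact_mod_cast this
  · have := np_add_right_le (A := A2) dB t
    rw [h2] at this
    exact_mod_cast this
  · have := np_add_left_le (B := B1) dA t
    rw [h3] at this
    exact_mod_cast this
  · have := np_add_left_le (B := B2) dA t
    rw [h4] at this
    exact_mod_cast this
  · rcases np_lo_or_up hA hB t with h | h
    · left; exact_mod_cast h
    · right; exact_mod_cast h

/-- **Pair bound**, equal sizes `|A1| = |A2| = |B1| = |B2| = m` (`A = B = ` the high labels), lower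
mode: for `0 ≤ θ ≤ 1`: `θ T + 2 p ≤ (2 + θ) m`, where `T` is the number of all pairs with sum `t` and `p`
the number of lower-lower pairs. -/
theorem pair_HH {A1 A2 B1 B2 : Finset ℕ} {m : ℕ} (hA : ∀ a ∈ A1, ∀ b ∈ A2, a < b)
    (hB : ∀ a ∈ B1, ∀ b ∈ B2, a < b) (h1 : A1.card = m) (h2 : A2.card = m) (h3 : B1.card = m)
    (h4 : B2.card = m) (t : ℕ) (θ : ℝ) (hθ0 : 0 ≤ θ) (hθ1 : θ ≤ 1) :
    θ * np (A1 ∪ A2) (B1 ∪ B2) t + 2 * np A1 B1 t ≤ (2 + θ) * m ∧
    θ * np (A1 ∪ A2) (B1 ∪ B2) t + 2 * np A2 B2 t ≤ (2 + θ) * m := by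
  obtain ⟨e, a1, a2, a3, a4, a5⟩ := Pair_cast hA hB h1 h2 h3 h4 t
  rw [e]
  constructor
  · exact Pair_arith' (by positivity) (by positivity) (by positivity) (by positivity) a1 a2 a3 a4 a5
      hθ0 hθ1
  · have := Pair_arith' (a := (np A2 B2 t : ℝ)) (b := (np A2 B1 t : ℝ)) (c := (np A1 B2 t : ℝ))
      (d := (np A1 B1 t : ℝ)) (m := (m : ℝ)) (θ := θ) (by positivity) (by positivity)
      (by positivity) (by positivity) (by linarith) (by linarith) (by linarith) (by linarith)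
      a5.symm hθ0 hθ1
    linarith

/-- **Pair bound** for high labels (`|A1| = |A2| = m`) and low labels (`|B1| = |B2| = n`),
`3 m ≤ 4 n`: `3 (θ T + 2 p) ≤ (6 + 4 θ) n`. (Divided by `8 m n` this is
`(1 / 2m) (1/2 + θ/3)`.) -/
theorem pair_HL {A1 A2 B1 B2 : Finset ℕ} {m n : ℕ} (hA : ∀ a ∈ A1, ∀ b ∈ A2, a < b)
    (hB : ∀ a ∈ B1, ∀ b ∈ B2, a < b) (h1 : A1.card = m) (h2 : A2.card = m) (h3 : B1.card = n)
    (h4 : B2.card = n) (hmn : 3 * m ≤ 4 * n) (t : ℕ) (θ : ℝ) (hθ0 : 0 ≤ θ) (hθ1 : θ ≤ 1) :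
    3 * (θ * np (A1 ∪ A2) (B1 ∪ B2) t + 2 * np A1 B1 t) ≤ (6 + 4 * θ) * n ∧
    3 * (θ * np (A1 ∪ A2) (B1 ∪ B2) t + 2 * np A2 B2 t) ≤ (6 + 4 * θ) * n := by
  obtain ⟨e, a1, a2, a3, a4, a5⟩ := Pair_cast hA hB h1 h2 h3 h4 t
  have hmn' : 3 * (m : ℝ) ≤ 4 * n := by exact_mod_cast hmn
  rw [e]
  constructor
  · exact Pair_arith (by positivity) (by positivity) (by positivity) (by positivity) a1 a2 a3 a4 a5
      hmn' hθ0 hθ1
  · have := Pair_arith (a := (np A2 B2 t : ℝ)) (b := (np A2 B1 t : ℝ)) (c := (np A1 B2 t : ℝ))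
      (d := (np A1 B1 t : ℝ)) (m := (m : ℝ)) (n := (n : ℝ)) (θ := θ) (by positivity)
      (by positivity) (by positivity) (by positivity) (by linarith) (by linarith) (by linarith)
      (by linarith) a5.symm hmn' hθ0 hθ1
    linarith

end Pool.Agent.AMA
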