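import Pool.Agent.AMA.Point
import Pool.Agent.AMA.Pair

/-!
# Parts theorem: the gain for special forms
-/

set_option autoImplicit false

namespace Pool.Agent.AMA

open Finset
open Pool.Agent.AMB (pE)

section

variable {ι : Type*} [Fintype ι] [DecidableEq ι] {Ω : ι → Type*} [∀ i, Fintype (Ω i)]

omit [∀ i, Fintype (Ω i)] in
private theorem Gain_dep (J : Finset ι) (g : (∀ i, Ω i) → ℝ)
    (hg : ∀ x, ∀ i ∉ J, ∀ a, g (Function.update x i a) = g x) (x x' : ∀ i, Ω i)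
    (hx : ∀ i ∈ J, x i = x' i) : g x = g x' := by
  have key : ∀ S : Finset ι, (∀ i ∈ S, i ∉ J) → g (S.piecewise x' x) = g x := by
    intro S
    induction S using Finset.induction_on with
    | empty =>
      intro _
      rw [Finset.piecewise_empty]
    | insert j S hj ih =>
      intro hS
      rw [Finset.piecewise_insert, hg _ j (hS j (Finset.mem_insert_self j S))]
      exact ih fun i hi => hS i (Finset.mem_insert_of_mem hi)
  have h1 := key (univ.filter fun i => i ∉ J) (fun i hi => (Finset.mem_filter.1 hi).2)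
  rw [← h1]
  congr 1
  funext i
  by_cases hi : i ∈ J
  · rw [Finset.piecewise_eq_of_notMem _ _ _ (by simp [hi])]
    exact hx i hi
  · rw [Finset.piecewise_eq_of_mem _ _ _ (by simp [hi])]

private theorem Gain_pE_sub {w : ∀ i, Ω i → ℝ} (hw : ∀ i, ∑ a, w i a = 1)
    (J : Finset ι) (g : (∀ i, Ω i) → ℝ)
    (hg : ∀ x, ∀ i ∉ J, ∀ a, g (Function.update x i a) = g x) (x0 : ∀ i, Ω i) :
    pE w g = ∑ y : (∀ i : {i // i ∈ J}, Ω i), (∏ i : {i // i ∈ J}, w i (y i)) *
      g ((Equiv.piEquivPiSubtypeProd (fun i => i ∈ J) Ω).symm (y, fun i => x0 i)) := by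
  unfold AMB.pE
  rw [← Equiv.sum_comp (Equiv.piEquivPiSubtypeProd (fun i => i ∈ J) Ω).symm,
    Fintype.sum_prod_type]
  refine Finset.sum_congr rfl fun y _ => ?_
  have h1 : ∀ z : (∀ i : {i // ¬ i ∈ J}, Ω i),
      (∏ i, w i ((Equiv.piEquivPiSubtypeProd (fun i => i ∈ J) Ω).symm (y, z) i)) *
        g ((Equiv.piEquivPiSubtypeProd (fun i => i ∈ J) Ω).symm (y, z)) =
      ((∏ i : {i // i ∈ J}, w i (y i)) *
        g ((Equiv.piEquivPiSubtypeProd (fun i => i ∈ J) Ω).symm (y, fun i => x0 i))) *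
        ∏ i : {i // ¬ i ∈ J}, w i (z i) := by
    intro z
    have h2 : g ((Equiv.piEquivPiSubtypeProd (fun i => i ∈ J) Ω).symm (y, z)) =
        g ((Equiv.piEquivPiSubtypeProd (fun i => i ∈ J) Ω).symm (y, fun i => x0 i)) := by
      refine Gain_dep J g hg _ _ fun i hi => ?_
      simp [Equiv.piEquivPiSubtypeProd, hi]
    have h3 : (∏ i, w i ((Equiv.piEquivPiSubtypeProd (fun i => i ∈ J) Ω).symm (y, z) i)) =
        (∏ i : {i // i ∈ J}, w i (y i)) * ∏ i : {i // ¬ i ∈ J}, w i (z i) := by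
      rw [← Fintype.prod_subtype_mul_prod_subtype (fun i => i ∈ J)]
      congr 1
      · refine Finset.prod_congr (Finset.ext fun _ => by simp) fun i _ => ?_
        have := i.2
        simp [Equiv.piEquivPiSubtypeProd, this]
      · refine Finset.prod_congr (Finset.ext fun _ => by simp) fun i _ => ?_
        have := i.2
        simp [Equiv.piEquivPiSubtypeProd, this]
    rw [h2, h3]
    ring
  rw [Finset.sum_congr rfl fun z _ => h1 z, ← Finset.mul_sum]
  have h4 : ∑ z : (∀ i : {i // ¬ i ∈ J}, Ω i), ∏ i : {i // ¬ i ∈ J}, w i (z i) = 1 := by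
    rw [← Fintype.prod_sum fun (i : {i // ¬ i ∈ J}) a => w i a]
    simp [hw]
  rw [h4, mul_one]

/-- The expectation of a function of the coordinates in `J` depends only on the weights in `J`.
(Induction on the set of the coordinates outside `J` whose weights are exchanged, with `pE_coord`.) -/
theorem pE_congr_dep {w w' : ∀ i, Ω i → ℝ} (hw : ∀ i, ∑ a, w i a = 1) (hw' : ∀ i, ∑ a, w' i a = 1)
    (J : Finset ι) (hJ : ∀ i ∈ J, w i = w' i) (g : (∀ i, Ω i) → ℝ)
    (hg : ∀ x, ∀ i ∉ J, ∀ a, g (Function.update x i a) = g x) : pE w g = pE w' g := by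
  have hne : ∀ i, Nonempty (Ω i) := by
    intro i
    by_contra h
    rw [not_nonempty_iff] at h
    have h1 := hw i
    rw [Finset.univ_eq_empty, Finset.sum_empty] at h1
    exact zero_ne_one h1
  let x0 : ∀ i, Ω i := fun i => (hne i).some
  rw [Gain_pE_sub hw J g hg x0, Gain_pE_sub hw' J g hg x0]
  refine Finset.sum_congr rfl fun y _ => ?_
  congr 1
  exact Finset.prod_congr rfl fun i _ => by rw [hJ i i.2]

/-- Comparison of two product weights. Proof: by `pE_congr_dep` we may assume `w i = w' i` for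
`i ∉ J` (replace `w' i` by `w i` there); then `∏ w ≥ (1/2)^|J| ∏ w'` pointwise and the difference has
total mass `1 - (1/2)^|J|`. -/
theorem pE_le_of_le {w w' : ∀ i, Ω i → ℝ} (hw : ∀ i, ∑ a, w i a = 1) (hw' : ∀ i, ∑ a, w' i a = 1)
    (hw0 : ∀ i a, 0 ≤ w i a) (hw0' : ∀ i a, 0 ≤ w' i a) (J : Finset ι)
    (hJ : ∀ i ∈ J, ∀ a, w' i a ≤ 2 * w i a) (g : (∀ i, Ω i) → ℝ)
    (hg : ∀ x, ∀ i ∉ J, ∀ a, g (Function.update x i a) = g x) (hg0 : ∀ x, 0 ≤ g x) {M : ℝ}
    (hM : ∀ x, g x ≤ M) :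
    pE w g ≤ (1 / 2) ^ J.card * pE w' g + (1 - (1 / 2) ^ J.card) * M := by
  classical
  set w2 : ∀ i, Ω i → ℝ := fun i => if i ∈ J then w' i else w i with hw2
  have hw2s : ∀ i, ∑ a, w2 i a = 1 := by
    intro i
    simp only [hw2]
    split_ifs
    · exact hw' i
    · exact hw i
  have h1 : pE w' g = pE w2 g := by
    refine pE_congr_dep hw' hw2s J (fun i hi => ?_) g hg
    simp only [hw2, if_pos hi]
  rw [h1]
  set θ : ℝ := (1 / 2) ^ J.card with hθ
  have h2 : ∀ x : (∀ i, Ω i), θ * ∏ i, w2 i (x i) ≤ ∏ i, w i (x i) := by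
    intro x
    have h3 : ∏ i, w2 i (x i) ≤ ∏ i, ((if i ∈ J then (2 : ℝ) else 1) * w i (x i)) := by
      refine Finset.prod_le_prod (fun i _ => ?_) (fun i _ => ?_)
      · simp only [hw2]
        split_ifs
        · exact hw0' i _
        · exact hw0 i _
      · simp only [hw2]
        split_ifs with hi
        · exact hJ i hi _
        · rw [one_mul]
    rw [Finset.prod_mul_distrib, Finset.prod_ite_mem, Finset.univ_inter, Finset.prod_const] at h3
    have h4 : θ * ∏ i, w2 i (x i) ≤ θ * (2 ^ J.card * ∏ i, w i (x i)) :=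
      mul_le_mul_of_nonneg_left h3 (by positivity)
    have h5 : θ * (2 ^ J.card * ∏ i, w i (x i)) = ∏ i, w i (x i) := by
      rw [hθ, ← mul_assoc, ← mul_pow]
      norm_num
    linarith
  have h6 : pE w g - θ * pE w2 g ≤ (1 - θ) * M := by
    have h7 : pE w g - θ * pE w2 g =
        ∑ x : (∀ i, Ω i), (∏ i, w i (x i) - θ * ∏ i, w2 i (x i)) * g x := by
      unfold AMB.pE
      rw [Finset.mul_sum, ← Finset.sum_sub_distrib]
      refine Finset.sum_congr rfl fun x _ => ?_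
      ring
    have h8 : ∑ x : (∀ i, Ω i), (∏ i, w i (x i) - θ * ∏ i, w2 i (x i)) * g x ≤
        ∑ x : (∀ i, Ω i), (∏ i, w i (x i) - θ * ∏ i, w2 i (x i)) * M :=
      Finset.sum_le_sum fun x _ => mul_le_mul_of_nonneg_left (hM x) (by linarith [h2 x])
    have h9 : ∑ x : (∀ i, Ω i), (∏ i, w i (x i) - θ * ∏ i, w2 i (x i)) * M = (1 - θ) * M := by
      rw [← Finset.sum_mul, Finset.sum_sub_distrib, ← Finset.mul_sum,
        AMB.sum_prod_weights hw, AMB.sum_prod_weights hw2s, mul_one]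
    rw [h7]
    linarith
  linarith

end

variable {s : ℕ} {Λ : Bool → Fin 3 → Finset ℕ} {h : Bool → ℕ} {R : ℕ} {o : Fin s → Option Bool}

private theorem Gain_sum_wl (hΛ : LamOK Λ h R) (md : Fin 3) (k : Bool) (F : ℕ → ℝ) :
    ∑ b : Fin (R + 1), wl Λ R md (some k) b * F b =
      (1 / ((Λ k md).card : ℝ)) * ∑ b ∈ Λ k md, F b := by
  have h1 : ∀ b : Fin (R + 1), wl Λ R md (some k) b * F b =
      (fun b : ℕ => if b ∈ Λ k md then (1 / ((Λ k md).card : ℝ)) * F b else 0) b := by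
    intro b
    simp only [wl]
    split_ifs
    · rfl
    · rw [zero_mul]
  rw [Finset.sum_congr rfl fun b _ => h1 b,
    Fin.sum_univ_eq_sum_range
      (fun b : ℕ => if b ∈ Λ k md then (1 / ((Λ k md).card : ℝ)) * F b else 0) (R + 1),
    Finset.sum_ite_mem, Finset.mul_sum]
  refine Finset.sum_congr ?_ fun _ _ => rfl
  refine Finset.inter_eq_right.2 fun b hb => ?_
  rw [Finset.mem_range]
  exact Nat.lt_succ_of_le (hΛ.le k b (hΛ.sub k md hb))

private theorem Gain_np (A B : Finset ℕ) (t : ℕ) :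
    (np A B t : ℝ) = ∑ b ∈ A, ∑ c ∈ B, if b + c = t then (1 : ℝ) else 0 := by
  unfold np
  rw [Finset.card_filter, Finset.sum_product]
  push_cast
  rfl

/-- two slots `i, j` of kinds `k, l` and the other slots of `φ`: Fubini (`pE_coord` for `i` and for
`j`). `np` counts the pairs. -/
theorem Prm_eq_np (hΛ : LamOK Λ h R) (md : Fin 3) (ho : ∀ i b, o i = some b → 0 < h b) (φ : Frm s)
    (i j : Fin s) (hi : i ∈ φ.1) (hj : j ∈ φ.1) (hij : i ≠ j) (k l : Bool) (hk : o i = some k)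
    (hl : o j = some l) (a : ℕ) :
    Prm Λ R md o (fun x => val φ x = a) =
      pE (fun i => wl Λ R md (o i)) (fun x =>
        if φ.2 + ∑ c ∈ (φ.1.erase i).erase j, (x c : ℕ) ≤ a then
          (np (Λ k md) (Λ l md) (a - (φ.2 + ∑ c ∈ (φ.1.erase i).erase j, (x c : ℕ))) : ℝ) /
            ((Λ k md).card * (Λ l md).card) else 0) := by
  classical
  set J := (φ.1.erase i).erase j with hJ
  have hiJ : i ∉ J := by
    simp [hJ]
  have hjJ : j ∉ J := by
    simp [hJ]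
  have hval : ∀ x : Fin s → ℕ, val φ x = φ.2 + ∑ c ∈ J, x c + x i + x j := by
    intro x
    rw [hJ]
    unfold val
    rw [← Finset.add_sum_erase _ _ hi,
      ← Finset.add_sum_erase _ _ (Finset.mem_erase.2 ⟨hij.symm, hj⟩)]
    omega
  have hrest : ∀ (y : Fin s → Fin (R + 1)) (c : Fin s), c ∉ J → ∀ b : Fin (R + 1),
      ∑ d ∈ J, ((Function.update y c b d : Fin (R + 1)) : ℕ) = ∑ d ∈ J, (y d : ℕ) := by
    intro y c hc b
    refine Finset.sum_congr rfl fun d hd => ?_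
    rw [Function.update_of_ne]
    rintro rfl
    exact hc hd
  have hw1 : ∀ c : Fin s, ∑ y, wl Λ R md (o c) y = 1 := fun c => wl_sum hΛ md (o c) (ho c)
  have e1 : Prm Λ R md o (fun x => val φ x = a) =
      ∑ b, wl Λ R md (o i) b * pE (fun i => wl Λ R md (o i))
        (fun y => if φ.2 + ∑ c ∈ J, (y c : ℕ) + (b : ℕ) + (y j : ℕ) = a then (1 : ℝ) else 0) := by
    rw [← AMB.pE_coord hw1 i (fun (b : Fin (R + 1)) (y : Fin s → Fin (R + 1)) =>
      if φ.2 + ∑ c ∈ J, (y c : ℕ) + (b : ℕ) + (y j : ℕ) = a then (1 : ℝ) else 0)]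
    · unfold Prm
      congr 1
      funext x
      by_cases hc : val φ (fun i => (x i : ℕ)) = a
      · have hc' := hc
        rw [hval] at hc'
        rw [if_pos hc, if_pos hc']
      · have hc' := hc
        rw [hval] at hc'
        rw [if_neg hc, if_neg hc']
    · intro b y c
      rw [hrest y i hiJ c, Function.update_of_ne hij.symm]
  have e2 : ∀ b : Fin (R + 1), pE (fun i => wl Λ R md (o i))
        (fun y => if φ.2 + ∑ c ∈ J, (y c : ℕ) + (b : ℕ) + (y j : ℕ) = a then (1 : ℝ) else 0) =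
      ∑ c, wl Λ R md (o j) c * pE (fun i => wl Λ R md (o i))
        (fun y => if φ.2 + ∑ d ∈ J, (y d : ℕ) + (b : ℕ) + (c : ℕ) = a then (1 : ℝ) else 0) := by
    intro b
    rw [← AMB.pE_coord hw1 j (fun (c : Fin (R + 1)) (y : Fin s → Fin (R + 1)) =>
      if φ.2 + ∑ d ∈ J, (y d : ℕ) + (b : ℕ) + (c : ℕ) = a then (1 : ℝ) else 0)]
    intro c y d
    rw [hrest y j hjJ d]
  have e3 : (fun x : Fin s → Fin (R + 1) =>
        if φ.2 + ∑ c ∈ J, (x c : ℕ) ≤ a then
          (np (Λ k md) (Λ l md) (a - (φ.2 + ∑ c ∈ J, (x c : ℕ))) : ℝ) /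
            ((Λ k md).card * (Λ l md).card) else 0) =
      fun x => ∑ b : Fin (R + 1), wl Λ R md (o i) b * ∑ c : Fin (R + 1), wl Λ R md (o j) c *
        (if φ.2 + ∑ d ∈ J, (x d : ℕ) + (b : ℕ) + (c : ℕ) = a then (1 : ℝ) else 0) := by
    funext x
    set r := φ.2 + ∑ c ∈ J, (x c : ℕ) with hr
    rw [hk, hl]
    have e4 : ∀ b : Fin (R + 1), ∑ c : Fin (R + 1), wl Λ R md (some l) c *
        (if r + (b : ℕ) + (c : ℕ) = a then (1 : ℝ) else 0) =
        (fun b : ℕ => (1 / ((Λ l md).card : ℝ)) *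
          ∑ c ∈ Λ l md, if r + b + c = a then (1 : ℝ) else 0) b := fun b =>
      Gain_sum_wl hΛ md l (fun c => if r + (b : ℕ) + c = a then (1 : ℝ) else 0)
    rw [Finset.sum_congr rfl fun b _ => by rw [e4 b],
      Gain_sum_wl hΛ md k (fun b : ℕ => (1 / ((Λ l md).card : ℝ)) *
          ∑ c ∈ Λ l md, if r + b + c = a then (1 : ℝ) else 0), ← Finset.mul_sum, ← mul_assoc]
    split_ifs with hra
    · rw [Gain_np, div_eq_mul_one_div, mul_comm]
      congr 1
      · rw [one_div_mul_one_div]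
      · refine Finset.sum_congr rfl fun b _ => Finset.sum_congr rfl fun c _ => ?_
        have h5 : (b + c = a - r) ↔ (r + b + c = a) := by omega
        simp only [h5]
    · have h6 : ∑ b ∈ Λ k md, ∑ c ∈ Λ l md, (if r + b + c = a then (1 : ℝ) else 0) = 0 := by
        refine Finset.sum_eq_zero fun b _ => Finset.sum_eq_zero fun c _ => ?_
        rw [if_neg]
        omega
      rw [h6, mul_zero]
  rw [e3, e1, AMB.pE_sum]
  refine Finset.sum_congr rfl fun b _ => ?_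
  rw [AMB.pE_mul_left, AMB.pE_sum, e2 b]
  congr 1
  refine Finset.sum_congr rfl fun c _ => ?_
  rw [AMB.pE_mul_left]

private theorem Gain_mode (hΛ : LamOK Λ h R) (ho : ∀ i b, o i = some b → 0 < h b) (k0 : ℕ)
    (φ : Frm s) (hact : ∀ i ∈ φ.1, o i ≠ none) (i j : Fin s) (hi : i ∈ φ.1) (hj : j ∈ φ.1)
    (hij : i ≠ j) (hki : o i = some true) (l : Bool) (hl : o j = some l) (hh : 0 < h true)
    (hc2 : ((φ.1.erase i).erase j).card ≤ k0) (a : ℕ) (md : Fin 3) (hmd : md = 1 ∨ md = 2)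
    (hpair : ∀ (θ : ℝ), 0 ≤ θ → θ ≤ 1 → ∀ t : ℕ,
      θ * np (Λ true 0) (Λ l 0) t + 2 * np (Λ true md) (Λ l md) t ≤
        (6 + 4 * θ) / 3 * (h l : ℝ)) :
    1 / 2 * Prm Λ R 0 o (fun x => val φ x = a) + 1 / 4 * Prm Λ R md o (fun x => val φ x = a) ≤
        (1 - 1 / (6 * 2 ^ k0)) / (2 * (h true : ℝ)) := by
  classical
  rw [Prm_eq_np hΛ 0 ho φ i j hi hj hij true l hki hl a,
    Prm_eq_np hΛ md ho φ i j hi hj hij true l hki hl a]
  set J := (φ.1.erase i).erase j with hJ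
  set m : ℝ := (h true : ℝ) with hm
  set n : ℝ := (h l : ℝ) with hn
  have hm0 : 0 < m := by rw [hm]; exact_mod_cast hh
  have hn0 : 0 < n := by rw [hn]; exact_mod_cast (ho j l hl)
  have hmd0 : md ≠ 0 := by
    rcases hmd with rfl | rfl <;> decide
  have hc0 : ∀ k, ((Λ k 0).card : ℝ) = 2 * (h k : ℝ) := by
    intro k
    rw [hΛ.card_eq k 0, if_pos rfl]
    push_cast
    ring
  have hcm : ∀ k, ((Λ k md).card : ℝ) = (h k : ℝ) := by
    intro k
    rw [hΛ.card_eq k md, if_neg hmd0]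
  rw [hc0, hc0, hcm, hcm]
  set G0 : (Fin s → Fin (R + 1)) → ℝ := fun x =>
    if φ.2 + ∑ c ∈ J, (x c : ℕ) ≤ a then
      (np (Λ true 0) (Λ l 0) (a - (φ.2 + ∑ c ∈ J, (x c : ℕ))) : ℝ) / (2 * m * (2 * n)) else 0
    with hG0
  set G1 : (Fin s → Fin (R + 1)) → ℝ := fun x =>
    if φ.2 + ∑ c ∈ J, (x c : ℕ) ≤ a then
      (np (Λ true md) (Λ l md) (a - (φ.2 + ∑ c ∈ J, (x c : ℕ))) : ℝ) / (m * n) else 0
    with hG1
  set θ : ℝ := (1 / 2) ^ J.card with hθ
  have hθ0 : 0 < θ := by positivity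
  have hθ1 : θ ≤ 1 := pow_le_one₀ (by norm_num) (by norm_num)
  have hw0 : ∀ c : Fin s, ∑ y, wl Λ R 0 (o c) y = 1 := fun c => wl_sum hΛ 0 (o c) (ho c)
  have hw1 : ∀ c : Fin s, ∑ y, wl Λ R md (o c) y = 1 := fun c => wl_sum hΛ md (o c) (ho c)
  have hcmp : pE (fun i => wl Λ R 0 (o i)) G0 ≤
      θ * pE (fun i => wl Λ R md (o i)) G0 + (1 - θ) * (1 / (2 * m)) := by
    refine pE_le_of_le hw0 hw1 (fun i y => wl_nonneg 0 (o i) y) (fun i y => wl_nonneg md (o i) y)
      J ?_ G0 ?_ ?_ ?_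
    · intro c hc y
      have hcφ : c ∈ φ.1 := Finset.mem_of_mem_erase (Finset.mem_of_mem_erase hc)
      obtain ⟨b, hb⟩ : ∃ b, o c = some b := Option.ne_none_iff_exists'.1 (hact c hcφ)
      rw [hb]
      simp only [wl]
      have hb0 : (0 : ℝ) < h b := by exact_mod_cast (ho c b hb)
      rw [hc0, hcm]
      by_cases h1 : (y : ℕ) ∈ Λ b md
      · rw [if_pos h1, if_pos (hΛ.sub b md h1)]
        have : 2 * (1 / (2 * (h b : ℝ))) = 1 / (h b : ℝ) := by
          field_simp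
        rw [this]
      · rw [if_neg h1]
        split_ifs <;> positivity
    · intro x c hc b
      have h1 : ∑ d ∈ J, ((Function.update x c b d : Fin (R + 1)) : ℕ) = ∑ d ∈ J, (x d : ℕ) := by
        refine Finset.sum_congr rfl fun d hd => ?_
        rw [Function.update_of_ne]
        rintro rfl
        exact hc hd
      simp only [hG0, h1]
    · intro x
      simp only [hG0]
      split_ifs <;> positivity
    · intro x
      simp only [hG0]
      split_ifs
      · have h1 := np_le_right (Λ true 0) (Λ l 0) (a - (φ.2 + ∑ c ∈ J, (x c : ℕ)))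
        have h2 : (np (Λ true 0) (Λ l 0) (a - (φ.2 + ∑ c ∈ J, (x c : ℕ))) : ℝ) ≤ 2 * n := by
          have h3 : (np (Λ true 0) (Λ l 0) (a - (φ.2 + ∑ c ∈ J, (x c : ℕ))) : ℝ) ≤
            ((Λ l 0).card : ℝ) := by exact_mod_cast h1
          rwa [hc0] at h3
        rw [div_le_div_iff₀ (by positivity) (by positivity)]
        nlinarith
      · positivity
  have hpt : ∀ x, θ / 2 * G0 x + 1 / 4 * G1 x ≤ 1 / (2 * m) * (1 / 2 + θ / 3) := by
    intro x
    simp only [hG0, hG1]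
    split_ifs
    · have h1 := hpair θ hθ0.le hθ1 (a - (φ.2 + ∑ c ∈ J, (x c : ℕ)))
      set T : ℝ := (np (Λ true 0) (Λ l 0) (a - (φ.2 + ∑ c ∈ J, (x c : ℕ))) : ℝ) with hT
      set q : ℝ := (np (Λ true md) (Λ l md) (a - (φ.2 + ∑ c ∈ J, (x c : ℕ))) : ℝ) with hq
      have h2 : θ / 2 * (T / (2 * m * (2 * n))) + 1 / 4 * (q / (m * n)) =
          (θ * T + 2 * q) / (8 * m * n) := by
        field_simp
        ring
      have h3 : 1 / (2 * m) * (1 / 2 + θ / 3) = ((6 + 4 * θ) / 3 * n) / (8 * m * n) := by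
        field_simp
        ring
      rw [h2, h3]
      exact div_le_div_of_nonneg_right h1 (by positivity)
    · rw [mul_zero, mul_zero, add_zero]
      positivity
  have hE : θ / 2 * pE (fun i => wl Λ R md (o i)) G0 + 1 / 4 * pE (fun i => wl Λ R md (o i)) G1 ≤
      1 / (2 * m) * (1 / 2 + θ / 3) := by
    have h1 : θ / 2 * pE (fun i => wl Λ R md (o i)) G0 +
        1 / 4 * pE (fun i => wl Λ R md (o i)) G1 =
        pE (fun i => wl Λ R md (o i)) (fun x => θ / 2 * G0 x + 1 / 4 * G1 x) := by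
      rw [AMB.pE_add, AMB.pE_mul_left, AMB.pE_mul_left]
    rw [h1, ← AMB.pE_const hw1 (1 / (2 * m) * (1 / 2 + θ / 3))]
    exact AMB.pE_mono (fun i y => wl_nonneg md (o i) y) hpt
  have hfin : 1 / (2 * m) * (1 / 2 + θ / 3) + 1 / 2 * ((1 - θ) * (1 / (2 * m))) =
      (1 - θ / 6) / (2 * m) := by
    field_simp
    ring
  have hθk : 1 / 2 ^ k0 ≤ θ := by
    rw [hθ, one_div_pow]
    exact one_div_le_one_div_of_le (by positivity) (pow_le_pow_right₀ (by norm_num) hc2)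
  have hlast : (1 - θ / 6) / (2 * m) ≤ (1 - 1 / (6 * 2 ^ k0)) / (2 * m) := by
    apply div_le_div_of_nonneg_right _ (by positivity)
    have : (1 : ℝ) / (6 * 2 ^ k0) = 1 / 2 ^ k0 / 6 := by
      field_simp
    rw [this]
    linarith
  linarith

/-- **The gain.** Proof. `e := |φ.1| - 2 ≤ k0` further slots `J = φ.1 \ {i, j}`, `θ = (1/2)^e`, `m = h true`,
`n = h (kind of j)`. Let `G_md (x)` be the integrand of `Prm_eq_np` (it depends on the slots in `J` only).
Assume `Prm 2 (val = a) = 0` (else `Prm 1 = 0`, symmetric with the second halves of `pair_HH`,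
`pair_HL`). `wl mode 1 ≤ 2 * wl mode 0` for active slots, so by `pE_le_of_le`
`Prm 0 = pE_0 G_0 ≤ θ pE_1 G_0 + (1 - θ) M`, `M = 1/(2m)` (`np ≤ 2n` and `np ≤ 2m`). Hence
`Pr = 1/2 Prm 0 + 1/4 Prm 1 ≤ pE_1 (θ/2 G_0 + 1/4 G_1) + (1 - θ)/(4 m)` and pointwise
`θ/2 G_0 + 1/4 G_1 = (θ T + 2 p)/(8 m n) ≤ (1/(2m)) (1/2 + θ/3)` by `pair_HH` (kinds high, high:
`(2+θ) m / (8 m m) = (1/(2m)) (1/2 + θ/4)`) or `pair_HL`. Total: `(1/(2m)) (1 - θ/6)`. -/
theorem Pr_gain (hΛ : LamOK Λ h R) (ho : ∀ i b, o i = some b → 0 < h b) (k0 : ℕ) (φ : Frm s)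
    (hact : ∀ i ∈ φ.1, o i ≠ none) (hφ : Spec h k0 o φ) (hh : 0 < h true) (a : ℕ) :
    Pr Λ R o (fun x => val φ x = a) ≤ (1 - 1 / (6 * 2 ^ k0)) / (2 * (h true : ℝ)) := by
  classical
  obtain ⟨hcard, i, hi, j, hj, hij, hki, hkj⟩ := hφ
  obtain ⟨l, hl, hll⟩ : ∃ l, o j = some l ∧ (l = true ∨ (l = false ∧ 3 * h true ≤ 4 * h false)) := by
    rcases hkj with h1 | ⟨h1, h2⟩
    · exact ⟨true, h1, Or.inl rfl⟩
    · exact ⟨false, h1, Or.inr ⟨rfl, h2⟩⟩
  have hc2 : ((φ.1.erase i).erase j).card ≤ k0 := by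
    rw [Finset.card_erase_of_mem (Finset.mem_erase.2 ⟨hij.symm, hj⟩),
      Finset.card_erase_of_mem hi]
    omega
  have hpair : ∀ md : Fin 3, md = 1 ∨ md = 2 → ∀ (θ : ℝ), 0 ≤ θ → θ ≤ 1 → ∀ t : ℕ,
      θ * np (Λ true 0) (Λ l 0) t + 2 * np (Λ true md) (Λ l md) t ≤
        (6 + 4 * θ) / 3 * (h l : ℝ) := by
    intro md hmd θ hθ0 hθ1 t
    rcases hll with h1 | ⟨h1, h2⟩
    · subst h1
      have h3 := pair_HH (hΛ.lt true) (hΛ.lt true) (hΛ.card1 true) (hΛ.card2 true)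
        (hΛ.card1 true) (hΛ.card2 true) t θ hθ0 hθ1
      have h5 : (2 + θ) * (h true : ℝ) ≤ (6 + 4 * θ) / 3 * (h true : ℝ) :=
        mul_le_mul_of_nonneg_right (by linarith) (Nat.cast_nonneg _)
      rw [hΛ.union true]
      rcases hmd with rfl | rfl
      · exact h3.1.trans h5
      · exact h3.2.trans h5
    · subst h1
      have h3 := pair_HL (hΛ.lt true) (hΛ.lt false) (hΛ.card1 true) (hΛ.card2 true)
        (hΛ.card1 false) (hΛ.card2 false) h2 t θ hθ0 hθ1
      rw [hΛ.union true, hΛ.union false]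
      rcases hmd with rfl | rfl
      · linarith [h3.1]
      · linarith [h3.2]
  have hmain : ∀ md : Fin 3, md = 1 ∨ md = 2 →
      1 / 2 * Prm Λ R 0 o (fun x => val φ x = a) + 1 / 4 * Prm Λ R md o (fun x => val φ x = a) ≤
        (1 - 1 / (6 * 2 ^ k0)) / (2 * (h true : ℝ)) :=
    fun md hmd => Gain_mode hΛ ho k0 φ hact i j hi hj hij hki l hl hh hc2 a md hmd
      (hpair md hmd)
  rw [Pr_eq, Fin.sum_univ_three]
  have hom0 : om 0 = 1 / 2 := by simp [om]
  have hom1 : om 1 = 1 / 4 := by simp [om]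
  have hom2 : om 2 = 1 / 4 := by simp [om]
  rw [hom0, hom1, hom2]
  rcases Prm_lo_or_up hΛ φ ⟨i, hi⟩ hact a with h1 | h1
  · rw [h1]
    have := hmain 2 (Or.inr rfl)
    linarith
  · rw [h1]
    have := hmain 1 (Or.inl rfl)
    linarith

end Pool.Agent.AMA
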