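import Pool.Agent.AMA.ModP

/-!
# Parts theorem: the hypergraph

Hyperedges: `E = P × (Fin s → Fin (R+1))` (a part and labels of its slots); vertices:
`P ⊕ (Fin 4 × Fin p)` (parts; tagged values modulo `p`).
-/

set_option autoImplicit false

namespace Pool.Agent.AMA

open Finset
open Pool.Agent.MP9a04dc (deg codeg Good)

variable {P : Type} [Fintype P] [DecidableEq P] {s : ℕ}

/-- hyperedges -/
abbrev HE (P : Type) (s R : ℕ) := P × (Fin s → Fin (R + 1))

/-- vertices -/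
abbrev HV (P : Type) (p : ℕ) := P ⊕ (Fin 4 × Fin p)

/-- the labels of a hyperedge -/
def lb {R : ℕ} (e : HE P s R) : Fin s → ℕ := fun i => (e.2 i : ℕ)

/-- the vertices of a hyperedge -/
def vsH (σ : PSys P s) (R p : ℕ) (e : HE P s R) : Finset (HV P p) :=
  insert (Sum.inl e.1) ((univ.filter fun v : Fin 4 × Fin p =>
    ∃ u ∈ σ.cf e.1, u.1 = v.1 ∧ val u.2 (lb e) % p = v.2).image Sum.inr)

open Classical in
/-- the weights of the hyperedges -/
noncomputable def wH (σ : PSys P s) (Λ : Bool → Fin 3 → Finset ℕ) (R p : ℕ) (e : HE P s R) : ℝ :=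
  if σ.Adm p e.1 (lb e) then pr Λ R (σ.kd e.1) e.2 else 0

variable {σ : PSys P s} {Λ : Bool → Fin 3 → Finset ℕ} {h : Bool → ℕ} {R p N k0 B : ℕ}
  {c1 C1 ν ν' : ℝ} {Sp : P → Finset (Frm s)} {Win : Bool → Finset ℕ}

theorem mem_vsH_inl {e : HE P s R} {Q : P} : Sum.inl Q ∈ vsH σ R p e ↔ e.1 = Q := by
  simp only [vsH, Finset.mem_insert, Finset.mem_image, Finset.mem_filter, Finset.mem_univ, true_and]
  constructor
  · rintro (h | ⟨v, _, hv⟩)
    · exact (Sum.inl.inj h).symm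
    · cases hv
  · intro h
    exact Or.inl (by rw [h])

theorem mem_vsH_inr {e : HE P s R} {t : Fin 4} {a : Fin p} :
    Sum.inr (t, a) ∈ vsH σ R p e ↔ ∃ u ∈ σ.cf e.1, u.1 = t ∧ val u.2 (lb e) % p = a := by
  simp only [vsH, Finset.mem_insert, Finset.mem_image, Finset.mem_filter, Finset.mem_univ, true_and]
  constructor
  · rintro (h | ⟨v, hv, hv'⟩)
    · cases h
    · have h2 : v = (t, a) := Sum.inr.inj hv'
      subst h2
      exact hv
  · intro h
    exact Or.inr ⟨(t, a), h, rfl⟩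

/-- sum over the hyperedges of a part -/
theorem sum_part_eq_Pr (Q : P) (A : (Fin s → ℕ) → Prop) [DecidablePred A] :
    ∑ x : Fin s → Fin (R + 1), (if A (fun i => (x i : ℕ)) then pr Λ R (σ.kd Q) x else 0) =
      Pr Λ R (σ.kd Q) A := by
  classical
  unfold Pr
  apply Finset.sum_congr rfl
  intro x _
  by_cases hA : A (fun i => (x i : ℕ))
  · rw [if_pos hA, if_pos hA]
  · rw [if_neg hA, if_neg hA]

theorem wH_nonneg (e : HE P s R) : 0 ≤ wH σ Λ R p e := by
  unfold wH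
  split_ifs
  · exact pr_nonneg _
  · exact le_rfl

private theorem Hyp_wH_le_pr (e : HE P s R) : wH σ Λ R p e ≤ pr Λ R (σ.kd e.1) e.2 := by
  unfold wH
  split_ifs
  · exact le_rfl
  · exact pr_nonneg _

private theorem Hyp_sum_le_Pr (Q : P) (A : (Fin s → ℕ) → Prop) (C : (Fin s → Fin (R + 1)) → Prop)
    [DecidablePred C] (hC : ∀ x : Fin s → Fin (R + 1), C x → A (fun i => (x i : ℕ))) :
    ∑ x : Fin s → Fin (R + 1), (if C x then wH σ Λ R p (Q, x) else 0) ≤ Pr Λ R (σ.kd Q) A := by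
  classical
  rw [← sum_part_eq_Pr Q A]
  apply Finset.sum_le_sum
  intro x _
  by_cases hx : C x
  · rw [if_pos hx, if_pos (hC x hx)]
    exact Hyp_wH_le_pr (Q, x)
  · rw [if_neg hx]
    split_ifs
    · exact pr_nonneg _
    · exact le_rfl

private theorem Hyp_two {α β : Type*} (o : Fin s → Option Bool) (F : Finset α) (G : α → Finset β)
    (A : α → β → (Fin s → ℕ) → Prop) :
    Pr Λ R o (fun x => ∃ u ∈ F, ∃ v ∈ G u, A u v x) ≤ ∑ u ∈ F, ∑ v ∈ G u, Pr Λ R o (A u v) :=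
  le_trans (Pr_exists_le F (fun u x => ∃ v ∈ G u, A u v x))
    (Finset.sum_le_sum fun u _ => Pr_exists_le (G u) (A u))

/-- degree of a part -/
theorem deg_inl_le (H : PSOK σ Λ h R p N k0 B c1 C1 ν ν' Sp Win) (hN : 0 < c1 * N) (Q : P) :
    deg (vsH σ R p) (wH σ Λ R p) (Sum.inl Q) ≤ 1 := by
  classical
  have ho : ∀ i b, σ.kd Q i = some b → 0 < h b := by
    intro i b hib
    have h1 := H.hlow b ⟨Q, i, hib⟩
    have h2 : (0 : ℝ) < h b := lt_of_lt_of_le hN h1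
    exact_mod_cast h2
  unfold deg
  rw [Fintype.sum_prod_type]
  have h1 : ∀ Q' : P, (∑ x : Fin s → Fin (R + 1),
      if (Sum.inl Q : HV P p) ∈ vsH σ R p (Q', x) then wH σ Λ R p (Q', x) else 0) =
      if Q' = Q then ∑ x : Fin s → Fin (R + 1), wH σ Λ R p (Q', x) else 0 := by
    intro Q'
    by_cases hQ : Q' = Q
    · rw [if_pos hQ]
      apply Finset.sum_congr rfl
      intro x _
      rw [if_pos (mem_vsH_inl.2 hQ)]
    · rw [if_neg hQ]
      apply Finset.sum_eq_zero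
      intro x _
      rw [if_neg (fun h' => hQ (mem_vsH_inl.1 h'))]
  rw [Finset.sum_congr rfl fun Q' _ => h1 Q', Finset.sum_ite_eq' Finset.univ Q, if_pos (Finset.mem_univ _)]
  have h2 := Hyp_sum_le_Pr (σ := σ) (Λ := Λ) (R := R) (p := p) Q (fun _ => True) (fun _ => True)
    (fun _ _ => trivial)
  rw [Pr_true H.lam ho] at h2
  simpa using h2

/-- degree of a value: union bound over the forms with the tag -/
theorem deg_inr_le (t : Fin 4) (a : Fin p) :
    deg (vsH σ R p) (wH σ Λ R p) (Sum.inr (t, a)) ≤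
      ∑ Q, ∑ u ∈ (σ.cf Q).filter (fun u => u.1 = t), Pr Λ R (σ.kd Q) (fun x => val u.2 x % p = a) := by
  unfold deg
  rw [Fintype.sum_prod_type]
  apply Finset.sum_le_sum
  intro Q _
  refine le_trans ?_ (Pr_exists_le ((σ.cf Q).filter (fun u => u.1 = t))
    (fun u x => val u.2 x % p = a))
  apply Hyp_sum_le_Pr
  intro x hx
  obtain ⟨u, hu, hu1, hu2⟩ := mem_vsH_inr.1 hx
  exact ⟨u, Finset.mem_filter.2 ⟨hu, hu1⟩, hu2⟩

/-- codegree of two values: union bound over the pairs of forms; on an admissible hyperedge the same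
form cannot take two values -/
theorem codeg_inr_le (t t' : Fin 4) (a a' : Fin p) (hne : (t, a) ≠ (t', a')) :
    codeg (vsH σ R p) (wH σ Λ R p) (Sum.inr (t, a)) (Sum.inr (t', a')) ≤
      ∑ Q, ∑ u ∈ (σ.cf Q).filter (fun u => u.1 = t), ∑ v ∈ (σ.cf Q).filter (fun v => v.1 = t' ∧ v ≠ u),
        Pr Λ R (σ.kd Q) (fun x => val u.2 x % p = a ∧ val v.2 x % p = a') := by
  unfold codeg
  rw [Fintype.sum_prod_type]
  apply Finset.sum_le_sum
  intro Q _
  have h1 := (Hyp_two (Λ := Λ) (R := R) (σ.kd Q) ((σ.cf Q).filter (fun u => u.1 = t))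
    (fun u => (σ.cf Q).filter (fun v => v.1 = t' ∧ v ≠ u))
    (fun u v x => val u.2 x % p = (a : ℕ) ∧ val v.2 x % p = (a' : ℕ)))
  refine le_trans ?_ h1
  apply Hyp_sum_le_Pr
  rintro x ⟨hx, hx'⟩
  obtain ⟨u, hu, hu1, hu2⟩ := mem_vsH_inr.1 hx
  obtain ⟨v, hv, hv1, hv2⟩ := mem_vsH_inr.1 hx'
  refine ⟨u, Finset.mem_filter.2 ⟨hu, hu1⟩, v, Finset.mem_filter.2 ⟨hv, hv1, ?_⟩, hu2, hv2⟩
  rintro rfl
  apply hne
  have h3 : (a : ℕ) = (a' : ℕ) := hu2.symm.trans hv2
  exact Prod.ext (hu1.symm.trans hv1) (Fin.ext h3)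

/-- codegree of a part and a value -/
theorem codeg_inl_inr_le (Q : P) (t : Fin 4) (a : Fin p) :
    codeg (vsH σ R p) (wH σ Λ R p) (Sum.inl Q) (Sum.inr (t, a)) ≤
      ∑ u ∈ (σ.cf Q).filter (fun u => u.1 = t), Pr Λ R (σ.kd Q) (fun x => val u.2 x % p = a) := by
  unfold codeg
  rw [Fintype.sum_prod_type]
  have h0 : ∀ Q' : P, Q' ≠ Q → (∑ x : Fin s → Fin (R + 1),
      if (Sum.inl Q : HV P p) ∈ vsH σ R p (Q', x) ∧ (Sum.inr (t, a) : HV P p) ∈ vsH σ R p (Q', x) then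
        wH σ Λ R p (Q', x) else 0) = 0 := by
    intro Q' hQ
    apply Finset.sum_eq_zero
    intro x _
    rw [if_neg (fun h' => hQ (mem_vsH_inl.1 h'.1))]
  rw [Finset.sum_eq_single Q (fun Q' _ hQ => h0 Q' hQ) (fun h' => absurd (Finset.mem_univ _) h')]
  refine le_trans ?_ (Pr_exists_le ((σ.cf Q).filter (fun u => u.1 = t))
    (fun u x => val u.2 x % p = a))
  apply Hyp_sum_le_Pr
  rintro x ⟨_, hx⟩
  obtain ⟨u, hu, hu1, hu2⟩ := mem_vsH_inr.1 hx
  exact ⟨u, Finset.mem_filter.2 ⟨hu, hu1⟩, hu2⟩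

theorem codeg_inl_inl (Q Q' : P) (hne : Q ≠ Q') :
    codeg (vsH σ R p) (wH σ Λ R p) (Sum.inl Q) (Sum.inl Q') = 0 := by
  unfold codeg
  apply Finset.sum_eq_zero
  intro e _
  rw [if_neg]
  rintro ⟨h1, h2⟩
  exact hne ((mem_vsH_inl.1 h1).symm.trans (mem_vsH_inl.1 h2))

/-- `|cf Q| ≤ 4 s` -/
theorem card_cf_le (H : PSOK σ Λ h R p N k0 B c1 C1 ν ν' Sp Win) (Q : P) :
    (σ.cf Q).card ≤ 4 * s := by
  unfold PSys.cf
  have h1 : (((univ.filter fun i => σ.kd Q i ≠ none).image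
      fun i => ((0 : Fin 4), (({i} : Finset (Fin s)), 0)))).card ≤ s := by
    refine le_trans Finset.card_image_le (le_trans (Finset.card_filter_le _ _) ?_)
    simp
  have h2 : ((σ.S Q).image (fun φ => ((1 : Fin 4), φ))).card ≤ s :=
    le_trans Finset.card_image_le (H.S_card Q)
  have h3 : ((σ.Bf Q).image (fun β => (σ.tg Q β, β))).card ≤ 2 * s :=
    le_trans Finset.card_image_le (H.B_card Q)
  refine le_trans (Finset.card_union_le _ _) ?_
  refine le_trans (Nat.add_le_add (Finset.card_union_le _ _) h3) ?_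
  omega

theorem card_vsH_le (H : PSOK σ Λ h R p N k0 B c1 C1 ν ν' Sp Win) (e : HE P s R) :
    (vsH σ R p e).card ≤ 4 * s + 1 := by
  have hp : 0 < p := lt_of_le_of_lt (Nat.zero_le _) H.Rp
  unfold vsH
  refine le_trans (Finset.card_insert_le _ _) (Nat.add_le_add_right ?_ 1)
  refine le_trans Finset.card_image_le (le_trans ?_ (card_cf_le H e.1))
  have hsub : (univ.filter fun v : Fin 4 × Fin p =>
      ∃ u ∈ σ.cf e.1, u.1 = v.1 ∧ val u.2 (lb e) % p = v.2) ⊆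
      (σ.cf e.1).image (fun u => (u.1, (⟨val u.2 (lb e) % p, Nat.mod_lt _ hp⟩ : Fin p))) := by
    intro v hv
    obtain ⟨u, hu, hu1, hu2⟩ := (Finset.mem_filter.1 hv).2
    refine Finset.mem_image.2 ⟨u, hu, ?_⟩
    exact Prod.ext hu1 (Fin.ext hu2)
  exact le_trans (Finset.card_le_card hsub) Finset.card_image_le

/-- active forms: every coordinate form is nonempty and has only active slots -/
theorem cf_act (H : PSOK σ Λ h R p N k0 B c1 C1 ν ν' Sp Win) (Q : P) (u : Fin 4 × Frm s)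
    (hu : u ∈ σ.cf Q) : u.2.1.Nonempty ∧ ∀ i ∈ u.2.1, σ.kd Q i ≠ none := by
  unfold PSys.cf at hu
  rcases Finset.mem_union.1 hu with hu | hu
  · rcases Finset.mem_union.1 hu with hu | hu
    · obtain ⟨i, hi, rfl⟩ := Finset.mem_image.1 hu
      refine ⟨Finset.singleton_nonempty i, ?_⟩
      intro j hj
      rw [Finset.mem_singleton.1 hj]
      exact (Finset.mem_filter.1 hi).2
    · obtain ⟨φ, hφ, rfl⟩ := Finset.mem_image.1 hu
      obtain ⟨i, hi, _⟩ := H.S_hi Q φ hφ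
      exact ⟨⟨i, hi⟩, H.S_act Q φ hφ⟩
  · obtain ⟨β, hβ, rfl⟩ := Finset.mem_image.1 hu
    have h1 := Finset.mem_filter.1 hβ
    refine ⟨h1.2.1, ?_⟩
    intro i hi
    obtain ⟨g, hg, hgβ⟩ := Finset.mem_biUnion.1 h1.1
    exact H.S_act Q _ (H.G_S Q g hg β hgβ) i (Finset.mem_insert_of_mem hi)

end Pool.Agent.AMA
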