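import Pool.Agent.AMA.Hyp

/-!
# Parts theorem: degrees
-/

set_option autoImplicit false

namespace Pool.Agent.AMA

open Finset
open Pool.Agent.MP9a04dc (deg codeg Good)

variable {P : Type} [Fintype P] [DecidableEq P] {s : ℕ} {σ : PSys P s}
  {Λ : Bool → Fin 3 → Finset ℕ} {h : Bool → ℕ} {R p N k0 B : ℕ}
  {c1 C1 ν ν' : ℝ} {Sp : P → Finset (Frm s)} {Win : Bool → Finset ℕ}

/-- the slack of the sums -/
noncomputable def gam (ν : ℝ) (k0 : ℕ) : ℝ := min (ν / (6 * 2 ^ k0)) (1 / 2)

/-- a slot of kind `k` has no label outside `Λ k 0` -/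
theorem Pr_slot_eq_zero (hΛ : LamOK Λ h R) {o : Fin s → Option Bool}
    (ho : ∀ i b, o i = some b → 0 < h b) (i : Fin s) (k : Bool) (hk : o i = some k) (a : ℕ)
    (ha : a ∉ Λ k 0) : Pr Λ R o (fun x => x i = a) = 0 := by
  classical
  unfold Pr
  refine Finset.sum_eq_zero fun x _ => ?_
  split_ifs with h1
  · rcases (pr_nonneg (Λ := Λ) (R := R) (o := o) x).eq_or_lt with h2 | h2
    · exact h2.symm
    · exact absurd (h1 ▸ mem_of_pr_pos hΛ x h2 i k hk) ha
  · rfl

private theorem Loads_mono {o : Fin s → Option Bool} {A B : (Fin s → ℕ) → Prop}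
    (hAB : ∀ x : Fin s → ℕ, (∀ i, x i ≤ R) → A x → B x) : Pr Λ R o A ≤ Pr Λ R o B := by
  classical
  unfold Pr
  refine Finset.sum_le_sum fun x _ => ?_
  have hx : ∀ i, ((x i : Fin (R + 1)) : ℕ) ≤ R := fun i => Nat.lt_succ_iff.1 (x i).2
  split_ifs with h1 h2 h2
  · exact le_rfl
  · exact absurd (hAB _ hx h1) h2
  · exact pr_nonneg x
  · exact le_rfl

private theorem Loads_ho (H : PSOK σ Λ h R p N k0 B c1 C1 ν ν' Sp Win) (hN : 0 < c1 * N) (Q : P) :
    ∀ i b, σ.kd Q i = some b → 0 < h b := by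
  intro i b hib
  have h1 := H.hlow b ⟨Q, i, hib⟩
  have h2 : (0 : ℝ) < (h b : ℝ) := lt_of_lt_of_le hN h1
  exact_mod_cast h2

omit [Fintype P] [DecidableEq P] in
private theorem Loads_cf_zero (Q : P) : (σ.cf Q).filter (fun u => u.1 = 0) =
    (univ.filter fun i => σ.kd Q i ≠ none).image
      (fun i => ((0 : Fin 4), (({i} : Finset (Fin s)), (0 : ℕ)))) := by
  ext u
  simp only [mem_filter, PSys.cf, mem_union, mem_image, mem_univ, true_and]
  constructor
  · rintro ⟨(⟨i, hi, rfl⟩ | ⟨φ, hφ, rfl⟩) | ⟨β, hβ, rfl⟩, h0⟩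
    · exact ⟨i, hi, rfl⟩
    · exact absurd h0 (by simp)
    · exfalso
      simp only [PSys.tg] at h0
      split_ifs at h0 <;> exact absurd h0 (by decide)
  · rintro ⟨i, hi, rfl⟩
    exact ⟨Or.inl (Or.inl ⟨i, hi, rfl⟩), rfl⟩

omit [Fintype P] [DecidableEq P] in
private theorem Loads_cf_one (Q : P) : (σ.cf Q).filter (fun u => u.1 = 1) =
    (σ.S Q).image (fun φ => ((1 : Fin 4), φ)) := by
  ext u
  simp only [mem_filter, PSys.cf, mem_union, mem_image, mem_univ, true_and]
  constructor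
  · rintro ⟨(⟨i, hi, rfl⟩ | ⟨φ, hφ, rfl⟩) | ⟨β, hβ, rfl⟩, h0⟩
    · exact absurd h0 (by simp)
    · exact ⟨φ, hφ, rfl⟩
    · exfalso
      simp only [PSys.tg] at h0
      split_ifs at h0 <;> exact absurd h0 (by decide)
  · rintro ⟨φ, hφ, rfl⟩
    exact ⟨Or.inl (Or.inr ⟨φ, hφ, rfl⟩), rfl⟩

omit [Fintype P] [DecidableEq P] in
private theorem Loads_cf_B (Q : P) (t : Fin 4) (ht : t = 2 ∨ t = 3) :
    (σ.cf Q).filter (fun u => u.1 = t) =
      ((σ.Bf Q).filter fun β => σ.tg Q β = t).image (fun β => (t, β)) := by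
  ext u
  simp only [mem_filter, PSys.cf, mem_union, mem_image, mem_univ, true_and]
  constructor
  · rintro ⟨(⟨i, hi, rfl⟩ | ⟨φ, hφ, rfl⟩) | ⟨β, hβ, rfl⟩, h0⟩
    · rcases ht with rfl | rfl
      · exact absurd (show (0 : Fin 4) = 2 from h0) (by decide)
      · exact absurd (show (0 : Fin 4) = 3 from h0) (by decide)
    · rcases ht with rfl | rfl
      · exact absurd (show (1 : Fin 4) = 2 from h0) (by decide)
      · exact absurd (show (1 : Fin 4) = 3 from h0) (by decide)
    · exact ⟨β, ⟨hβ, h0⟩, by rw [← h0]⟩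
  · rintro ⟨β, ⟨hβ, hb⟩, rfl⟩
    exact ⟨Or.inr ⟨β, hβ, by rw [hb]⟩, rfl⟩

/-- degree of a label. Proof: `deg_inr_le`; the coordinates with tag `0` are the single active slots.
If `a ∈ Λ k 0` then only slots of kind `k` contribute (`Pr_slot_eq_zero`, `lam.disj`), each at most
`1/(2 h k)` (`Pr_val_mod_le`), and there are at most `2 h k` of them (`slH`, `slL`); if `a` is in no label
set the degree is `0`. -/
theorem deg_label_le (H : PSOK σ Λ h R p N k0 B c1 C1 ν ν' Sp Win) (hN : 0 < c1 * N)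
    (a : Fin p) : deg (vsH σ R p) (wH σ Λ R p) (Sum.inr (0, a)) ≤ 1 := by
  classical
  refine (deg_inr_le (σ := σ) (Λ := Λ) (R := R) 0 a).trans ?_
  set g : Bool → ℝ := fun k => if (a : ℕ) ∈ Λ k 0 then 1 / (2 * (h k : ℝ)) else 0 with hg
  have hg0 : ∀ k, 0 ≤ g k := by
    intro k
    simp only [hg]
    split_ifs
    · positivity
    · exact le_rfl
  have hQ : ∀ Q, ∑ u ∈ (σ.cf Q).filter (fun u => u.1 = 0),
      Pr Λ R (σ.kd Q) (fun x => val u.2 x % p = a) ≤
      ((univ.filter fun i => σ.kd Q i = some true).card : ℝ) * g true +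
        ((univ.filter fun i => σ.kd Q i = some false).card : ℝ) * g false := by
    intro Q
    rw [Loads_cf_zero, Finset.sum_image (by
      intro i _ j _ hij
      simpa using hij)]
    have h1 : ∀ i ∈ univ.filter (fun i => σ.kd Q i ≠ none),
        Pr Λ R (σ.kd Q) (fun x => val (({i} : Finset (Fin s)), (0 : ℕ)) x % p = a) ≤
          (if σ.kd Q i = some true then g true else 0) +
            (if σ.kd Q i = some false then g false else 0) := by
      intro i hi
      have hi' : σ.kd Q i ≠ none := (mem_filter.1 hi).2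
      obtain ⟨k, hk⟩ := Option.ne_none_iff_exists'.1 hi'
      have h2 : Pr Λ R (σ.kd Q) (fun x => val (({i} : Finset (Fin s)), (0 : ℕ)) x % p = a) ≤ g k := by
        by_cases ha : (a : ℕ) ∈ Λ k 0
        · have h3 := Pr_val_mod_le H.lam (Loads_ho H hN Q) H.sRp ((({i} : Finset (Fin s)), (0 : ℕ)))
            (by intro j hj; rw [mem_singleton] at hj; rw [hj]; exact hi') i
            (mem_singleton_self i) k hk (a : ℕ)
          simp only [hg, if_pos ha]
          exact h3
        · have h3 := Pr_slot_eq_zero H.lam (Loads_ho H hN Q) i k hk (a : ℕ) ha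
          simp only [hg, if_neg ha]
          rw [← h3]
          refine Loads_mono (fun x hx hA => ?_)
          have h4 : val (({i} : Finset (Fin s)), (0 : ℕ)) x = x i := by simp [val]
          have h5 : x i < p := lt_of_le_of_lt (hx i) H.Rp
          change val (({i} : Finset (Fin s)), (0 : ℕ)) x % p = (a : ℕ) at hA
          rw [h4, Nat.mod_eq_of_lt h5] at hA
          exact hA
      refine h2.trans ?_
      cases k with
      | true => rw [hk]; simp
      | false => rw [hk]; simp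
    refine (Finset.sum_le_sum h1).trans ?_
    rw [Finset.sum_add_distrib]
    have h5 : ∀ k, ∑ i ∈ univ.filter (fun i => σ.kd Q i ≠ none),
        (if σ.kd Q i = some k then g k else 0) ≤
          ((univ.filter fun i => σ.kd Q i = some k).card : ℝ) * g k := by
      intro k
      rw [← Finset.sum_filter, Finset.sum_const, nsmul_eq_mul]
      refine mul_le_mul_of_nonneg_right ?_ (hg0 k)
      exact_mod_cast Finset.card_le_card (by
        intro i hi
        simp only [mem_filter, mem_univ, true_and] at hi ⊢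
        exact hi.2)
    exact add_le_add (h5 true) (h5 false)
  refine (Finset.sum_le_sum fun Q _ => hQ Q).trans ?_
  rw [Finset.sum_add_distrib, ← Finset.sum_mul, ← Finset.sum_mul]
  have hH : (∑ Q, ((univ.filter fun i => σ.kd Q i = some true).card : ℝ)) ≤ 2 * (h true : ℝ) := by
    exact_mod_cast H.slH
  have hL : (∑ Q, ((univ.filter fun i => σ.kd Q i = some false).card : ℝ)) ≤
      2 * (h false : ℝ) := by
    exact_mod_cast H.slL
  have hh : ∀ k, 2 * (h k : ℝ) * (1 / (2 * (h k : ℝ))) ≤ 1 := by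
    intro k
    rw [mul_one_div]
    exact div_self_le_one _
  have t1 := mul_le_mul_of_nonneg_right hH (hg0 true)
  have t2 := mul_le_mul_of_nonneg_right hL (hg0 false)
  by_cases haT : (a : ℕ) ∈ Λ true 0
  · have haF : (a : ℕ) ∉ Λ false 0 := fun hF => (Finset.disjoint_left.1 H.lam.disj) haT hF
    have e1 : g true = 1 / (2 * (h true : ℝ)) := by simp only [hg, if_pos haT]
    have e2 : g false = 0 := by simp only [hg, if_neg haF]
    rw [e1] at t1 ⊢
    rw [e2, mul_zero, add_zero]
    exact t1.trans (hh true)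
  · have e1 : g true = 0 := by simp only [hg, if_neg haT]
    rw [e1, mul_zero, zero_add]
    refine t2.trans ?_
    by_cases haF : (a : ℕ) ∈ Λ false 0
    · have e2 : g false = 1 / (2 * (h false : ℝ)) := by simp only [hg, if_pos haF]
      rw [e2]
      exact hh false
    · have e2 : g false = 0 := by simp only [hg, if_neg haF]
      rw [e2, mul_zero]
      exact zero_le_one

/-- degree of a sum: every form of `S Q` has a high slot: `≤ 1/(2 h true)` by `Pr_val_mod_le`, special
forms `≤ (1 - 1/(6*2^k0))/(2 h true)` by `Pr_gain_mod`; sum up with `S_sum`, `Sp_sum`. -/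
theorem deg_sum_le (H : PSOK σ Λ h R p N k0 B c1 C1 ν ν' Sp Win) (hN : 0 < c1 * N)
    (a : Fin p) : deg (vsH σ R p) (wH σ Λ R p) (Sum.inr (1, a)) ≤ 1 - gam ν k0 := by
  classical
  refine (deg_inr_le (σ := σ) (Λ := Λ) (R := R) 1 a).trans ?_
  have hh : (0 : ℝ) < (h true : ℝ) := lt_of_lt_of_le hN H.hhigh
  have hh' : 0 < h true := by exact_mod_cast hh
  set q : ℝ := 1 / (6 * 2 ^ k0) with hq
  have hq0 : 0 < q := by rw [hq]; positivity
  have hQ : ∀ Q, ∑ u ∈ (σ.cf Q).filter (fun u => u.1 = 1),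
      Pr Λ R (σ.kd Q) (fun x => val u.2 x % p = a) ≤
      (((σ.S Q).card : ℝ) - q * ((Sp Q).card : ℝ)) / (2 * (h true : ℝ)) := by
    intro Q
    rw [Loads_cf_one, Finset.sum_image (by
      intro i _ j _ hij
      simpa using hij)]
    have h1 : ∀ φ ∈ σ.S Q, Pr Λ R (σ.kd Q) (fun x => val φ x % p = a) ≤
        (1 - if φ ∈ Sp Q then q else 0) / (2 * (h true : ℝ)) := by
      intro φ hφ
      split_ifs with hs
      · exact Pr_gain_mod H.lam (Loads_ho H hN Q) H.sRp k0 φ (H.S_act Q φ hφ) (H.Sp_spec Q φ hs) hh' _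
      · obtain ⟨i, hi, hk⟩ := H.S_hi Q φ hφ
        rw [sub_zero]
        exact Pr_val_mod_le H.lam (Loads_ho H hN Q) H.sRp φ (H.S_act Q φ hφ) i hi true hk _
    refine (Finset.sum_le_sum h1).trans (le_of_eq ?_)
    rw [← Finset.sum_div, Finset.sum_sub_distrib, ← Finset.sum_filter, Finset.sum_const,
      Finset.sum_const, nsmul_eq_mul, nsmul_eq_mul, mul_one]
    have h2 : (σ.S Q).filter (fun φ => φ ∈ Sp Q) = Sp Q := by
      ext φ
      simp only [mem_filter]
      exact ⟨fun hx => hx.2, fun hx => ⟨H.Sp_sub Q hx, hx⟩⟩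
    rw [h2, mul_comm q]
  refine (Finset.sum_le_sum fun Q _ => hQ Q).trans ?_
  rw [← Finset.sum_div, Finset.sum_sub_distrib, ← Finset.mul_sum]
  have hS : (∑ Q, ((σ.S Q).card : ℝ)) ≤ 2 * (h true : ℝ) := by exact_mod_cast H.S_sum
  have hSp : ν * (2 * (h true : ℝ)) ≤ ∑ Q, ((Sp Q).card : ℝ) := by
    have := H.Sp_sum
    push_cast at this
    exact this
  have hgam : gam ν k0 ≤ ν * q := by
    unfold gam
    refine (min_le_left _ _).trans (le_of_eq ?_)
    rw [hq, mul_one_div]
  rw [div_le_iff₀ (by positivity)]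
  have h3 := mul_le_mul_of_nonneg_left hSp hq0.le
  have h4 := mul_le_mul_of_nonneg_right hgam (show (0 : ℝ) ≤ 2 * (h true : ℝ) by positivity)
  nlinarith

/-- degree of a value of a gadget end: tag `2`: the forms have a high slot, at most `2 h true` of them
(`B_H`); tag `3`: all slots are low (active and not high), at most `2 h false` of them (`B_L`). -/
theorem deg_B_le (H : PSOK σ Λ h R p N k0 B c1 C1 ν ν' Sp Win) (hN : 0 < c1 * N)
    (t : Fin 4) (ht : t = 2 ∨ t = 3) (a : Fin p) :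
    deg (vsH σ R p) (wH σ Λ R p) (Sum.inr (t, a)) ≤ 1 := by
  classical
  refine (deg_inr_le (σ := σ) (Λ := Λ) (R := R) t a).trans ?_
  -- a common bound for a kind
  have key : ∀ k : Bool, (∀ Q, ∀ β ∈ (σ.Bf Q).filter (fun β => σ.tg Q β = t),
      ∃ i ∈ β.1, σ.kd Q i = some k) →
      ∑ Q, (((σ.Bf Q).filter fun β => σ.tg Q β = t).card) ≤ 2 * h k →
      ∑ Q, ∑ u ∈ (σ.cf Q).filter (fun u => u.1 = t),
        Pr Λ R (σ.kd Q) (fun x => val u.2 x % p = a) ≤ 1 := by
    intro k hk hc
    have hQ : ∀ Q, ∑ u ∈ (σ.cf Q).filter (fun u => u.1 = t),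
        Pr Λ R (σ.kd Q) (fun x => val u.2 x % p = a) ≤
        (((σ.Bf Q).filter fun β => σ.tg Q β = t).card : ℝ) * (1 / (2 * (h k : ℝ))) := by
      intro Q
      have hcf : ∀ β ∈ (σ.Bf Q).filter (fun β => σ.tg Q β = t), (t, β) ∈ σ.cf Q := by
        intro β hβ
        have : (t, β) ∈ (σ.cf Q).filter (fun u => u.1 = t) := by
          rw [Loads_cf_B Q t ht]
          exact mem_image_of_mem _ hβ
        exact (mem_filter.1 this).1
      rw [Loads_cf_B Q t ht, Finset.sum_image (by
        intro i _ j _ hij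
        simpa using hij), ← nsmul_eq_mul, ← Finset.sum_const]
      refine Finset.sum_le_sum fun β hβ => ?_
      obtain ⟨i, hi, hki⟩ := hk Q β hβ
      exact Pr_val_mod_le H.lam (Loads_ho H hN Q) H.sRp β (cf_act H Q (t, β) (hcf β hβ)).2 i hi k hki _
    refine (Finset.sum_le_sum fun Q _ => hQ Q).trans ?_
    rw [← Finset.sum_mul]
    have hc' : (∑ Q, (((σ.Bf Q).filter fun β => σ.tg Q β = t).card : ℝ)) ≤ 2 * (h k : ℝ) := by
      exact_mod_cast hc
    refine (mul_le_mul_of_nonneg_right hc' (by positivity)).trans ?_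
    rw [mul_one_div]
    exact div_self_le_one _
  rcases ht with rfl | rfl
  · refine key true ?_ H.B_H
    intro Q β hβ
    have h1 := (mem_filter.1 hβ).2
    unfold PSys.tg at h1
    split_ifs at h1 with h2
    · exact h2
    · exact absurd h1 (by decide)
  · refine key false ?_ H.B_L
    intro Q β hβ
    have h0 := (mem_filter.1 hβ).1
    have h1 := (mem_filter.1 hβ).2
    have hcf : ((3 : Fin 4), β) ∈ σ.cf Q := by
      have : ((3 : Fin 4), β) ∈ (σ.cf Q).filter (fun u => u.1 = 3) := by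
        rw [Loads_cf_B Q 3 (Or.inr rfl)]
        exact mem_image_of_mem _ hβ
      exact (mem_filter.1 this).1
    obtain ⟨⟨i, hi⟩, hact⟩ := cf_act H Q (3, β) hcf
    unfold PSys.tg at h1
    split_ifs at h1 with h2
    · exact absurd h1 (by decide)
    · refine ⟨i, hi, ?_⟩
      have h3 := hact i hi
      obtain ⟨k, hk⟩ := Option.ne_none_iff_exists'.1 h3
      cases k with
      | true => exact absurd ⟨i, hi, hk⟩ h2
      | false => exact hk

/-- all degrees are at most one -/
theorem deg_le_one (H : PSOK σ Λ h R p N k0 B c1 C1 ν ν' Sp Win) (hN : 0 < c1 * N) (hν : 0 < ν)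
    (v : HV P p) : deg (vsH σ R p) (wH σ Λ R p) v ≤ 1 := by
  rcases v with Q | ⟨t, a⟩
  · exact deg_inl_le H hN Q
  · fin_cases t
    · exact deg_label_le H hN a
    · refine (deg_sum_le H hN a).trans ?_
      have : 0 ≤ gam ν k0 := by
        unfold gam
        exact le_min (by positivity) (by norm_num)
      linarith
    · exact deg_B_le H hN 2 (Or.inl rfl) a
    · exact deg_B_le H hN 3 (Or.inr rfl) a

end Pool.Agent.AMA
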