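import Pool.Agent.AMA.Gain

/-!
# Parts theorem: values modulo `p`

The label part of the value of a form is at most `s * R < p`, so everything holds modulo `p`, too.
-/

set_option autoImplicit false

namespace Pool.Agent.AMA

open Finset

variable {s : ℕ} {Λ : Bool → Fin 3 → Finset ℕ} {h : Bool → ℕ} {R p : ℕ} {o : Fin s → Option Bool}

/-- On labels `≤ R` the event `val φ x % p = a` is one event `val φ x = b`: there is `b` with
`val φ x % p = a → val φ x = b` for all `x ≤ R` (two values with the same residue differ by less than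
`p`). -/
theorem exists_val_eq (hp : s * R < p) (φ : Frm s) (a : ℕ) :
    ∃ b : ℕ, ∀ x : Fin s → ℕ, (∀ i, x i ≤ R) → val φ x % p = a → val φ x = b := by
  by_cases hex : ∃ x0 : Fin s → ℕ, (∀ i, x0 i ≤ R) ∧ val φ x0 % p = a
  · obtain ⟨x0, hx0, ha0⟩ := hex
    refine ⟨val φ x0, fun x hx ha => ?_⟩
    have h1 : val φ x ≤ φ.2 + s * R := val_le hx
    have h2 : val φ x0 ≤ φ.2 + s * R := val_le hx0
    have h3 : φ.2 ≤ val φ x := Nat.le_add_right _ _
    have h4 : φ.2 ≤ val φ x0 := Nat.le_add_right _ _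
    have h5 : val φ x ≡ val φ x0 [MOD p] := ha.trans ha0.symm
    refine Nat.ModEq.eq_of_abs_lt h5 ?_
    rw [abs_lt]
    constructor <;> omega
  · exact ⟨0, fun x hx ha => absurd ⟨x, hx, ha⟩ hex⟩

private theorem ModP_mono {A B : (Fin s → ℕ) → Prop}
    (hAB : ∀ x : Fin s → ℕ, (∀ i, x i ≤ R) → A x → B x) : Pr Λ R o A ≤ Pr Λ R o B := by
  classical
  unfold Pr
  refine Finset.sum_le_sum fun x _ => ?_
  have hx : ∀ i, ((x i : Fin (R + 1)) : ℕ) ≤ R := fun i => Nat.lt_succ_iff.1 (x i).2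
  split_ifs with h1 h2 h2
  · exact le_rfl
  · exact absurd (hAB _ hx h1) h2
  · exact pr_nonneg x
  · exact le_rfl

/-- `Pr_val_le` modulo `p` -/
theorem Pr_val_mod_le (hΛ : LamOK Λ h R) (ho : ∀ i b, o i = some b → 0 < h b) (hp : s * R < p)
    (φ : Frm s) (hact : ∀ i ∈ φ.1, o i ≠ none) (i : Fin s) (hi : i ∈ φ.1) (k : Bool)
    (hk : o i = some k) (a : ℕ) :
    Pr Λ R o (fun x => val φ x % p = a) ≤ 1 / (2 * (h k : ℝ)) := by
  obtain ⟨b, hb⟩ := exists_val_eq hp φ a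
  exact (ModP_mono hb).trans (Pr_val_le hΛ ho φ hact i hi k hk b)

/-- `Pr_gain` modulo `p` -/
theorem Pr_gain_mod (hΛ : LamOK Λ h R) (ho : ∀ i b, o i = some b → 0 < h b) (hp : s * R < p)
    (k0 : ℕ) (φ : Frm s) (hact : ∀ i ∈ φ.1, o i ≠ none) (hφ : Spec h k0 o φ) (hh : 0 < h true)
    (a : ℕ) :
    Pr Λ R o (fun x => val φ x % p = a) ≤ (1 - 1 / (6 * 2 ^ k0)) / (2 * (h true : ℝ)) := by
  obtain ⟨b, hb⟩ := exists_val_eq hp φ a
  exact (ModP_mono hb).trans (Pr_gain hΛ ho k0 φ hact hφ hh b)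

private theorem ModP_coinc (hΛ : LamOK Λ h R) (ho : ∀ i b, o i = some b → 0 < h b) {H : ℝ}
    (hH : 0 < H) (hoH : ∀ i b, o i = some b → H ≤ h b) (hp : R < p) (φ ψ : Frm s)
    (hφ : ∀ i ∈ φ.1, o i ≠ none) (i : Fin s) (hi : i ∈ φ.1) (hi' : i ∉ ψ.1) (a b : ℕ) :
    Pr Λ R o (fun x => (val φ x + a) % p = (val ψ x + b) % p) ≤ 1 / H := by
  classical
  obtain ⟨k, hk⟩ := Option.ne_none_iff_exists'.1 (hφ i hi)
  have h1 : Pr Λ R o (fun x => (val φ x + a) % p = (val ψ x + b) % p) ≤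
      Pr Λ R o (fun x => (val φ x + a) % p = (val ψ x + b) % p ∧ x i ≤ R) :=
    ModP_mono (fun x hx hA => ⟨hA, hx i⟩)
  refine h1.trans ?_
  rw [Pr_eq]
  have h2 : ∀ md : Fin 3, Prm Λ R md o
      (fun x => (val φ x + a) % p = (val ψ x + b) % p ∧ x i ≤ R) ≤ 1 / H := by
    intro md
    refine (Prm_det hΛ md ho i k hk _ ?_).trans ?_
    · rintro x y z ⟨hy, hyR⟩ ⟨hz, hzR⟩
      rw [Function.update_self] at hyR hzR
      rw [val_update hi, val_update_of_notMem hi'] at hy hz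
      have h3 : (φ.2 + ∑ j ∈ φ.1.erase i, x j + y + a) % p =
          (φ.2 + ∑ j ∈ φ.1.erase i, x j + z + a) % p := hy.trans hz.symm
      have h4 : φ.2 + ∑ j ∈ φ.1.erase i, x j + y + a ≡
          φ.2 + ∑ j ∈ φ.1.erase i, x j + z + a [MOD p] := h3
      have h5 := Nat.ModEq.eq_of_abs_lt h4 (by
        rw [abs_lt]
        constructor <;> omega)
      omega
    · have h6 : H ≤ ((Λ k md).card : ℝ) :=
        (hoH i k hk).trans (by exact_mod_cast hΛ.le_card k md)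
      exact one_div_le_one_div_of_le hH h6
  have hom : ∀ md : Fin 3, 0 ≤ om md := by
    intro md
    unfold om
    split_ifs <;> norm_num
  refine (Finset.sum_le_sum fun md _ => mul_le_mul_of_nonneg_left (h2 md) (hom md)).trans
    (le_of_eq ?_)
  rw [← Finset.sum_mul]
  have h7 : ∑ md : Fin 3, om md = 1 := by
    have e0 : om 0 = 1 / 2 := by unfold om; rw [if_pos rfl]
    have e1 : om 1 = 1 / 4 := by unfold om; rw [if_neg (by decide)]
    have e2 : om 2 = 1 / 4 := by unfold om; rw [if_neg (by decide)]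
    rw [Fin.sum_univ_three, e0, e1, e2]
    norm_num
  rw [h7, one_mul]

/-- Coincidence modulo `p` of two forms with different slots: a slot in exactly one of the two sets is
determined (labels are `≤ R < p`); as `Pr_coinc_le`. In `Prm_det` the labels are arbitrary naturals, so
use the event `A x ∧ x i ≤ R`, which has the same probability. -/
theorem Pr_coinc_mod_le (hΛ : LamOK Λ h R) (ho : ∀ i b, o i = some b → 0 < h b) {H : ℝ} (hH : 0 < H)
    (hoH : ∀ i b, o i = some b → H ≤ h b) (hp : R < p) (φ ψ : Frm s) (hφ : ∀ i ∈ φ.1, o i ≠ none)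
    (hψ : ∀ i ∈ ψ.1, o i ≠ none) (hne : φ.1 ≠ ψ.1) (a b : ℕ) :
    Pr Λ R o (fun x => (val φ x + a) % p = (val ψ x + b) % p) ≤ 1 / H := by
  classical
  have h1 : ∃ i, (i ∈ φ.1 ∧ i ∉ ψ.1) ∨ (i ∈ ψ.1 ∧ i ∉ φ.1) := by
    by_contra hcon
    apply hne
    ext i
    by_contra hne'
    apply hcon
    refine ⟨i, ?_⟩
    tauto
  obtain ⟨i, ⟨hi, hi'⟩ | ⟨hi, hi'⟩⟩ := h1
  · exact ModP_coinc hΛ ho hH hoH hp φ ψ hφ i hi hi' a b
  · have h2 := ModP_coinc hΛ ho hH hoH hp ψ φ hψ i hi hi' b a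
    refine le_trans (Pr_mono ?_) h2
    intro x hx
    exact hx.symm

/-- `Pr_two_le` modulo `p` (by `exists_val_eq`) -/
theorem Pr_two_mod_le (hΛ : LamOK Λ h R) (ho : ∀ i b, o i = some b → 0 < h b) {H : ℝ} (hH : 0 < H)
    (hoH : ∀ i b, o i = some b → H ≤ h b) (hp : s * R < p) (φ ψ : Frm s)
    (hφ : ∀ i ∈ φ.1, o i ≠ none) (hψ : ∀ i ∈ ψ.1, o i ≠ none) (hφ1 : φ.1.Nonempty)
    (hψ1 : ψ.1.Nonempty) (hne : φ.1 ≠ ψ.1) (a b : ℕ) :
    Pr Λ R o (fun x => val φ x % p = a ∧ val ψ x % p = b) ≤ (1 / H) ^ 2 := by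
  obtain ⟨c, hc⟩ := exists_val_eq hp φ a
  obtain ⟨d, hd⟩ := exists_val_eq hp ψ b
  refine le_trans (ModP_mono ?_) (Pr_two_le hΛ ho hH hoH φ ψ hφ hψ hφ1 hψ1 hne c d)
  rintro x hx ⟨h1, h2⟩
  exact ⟨hc x hx h1, hd x hx h2⟩

end Pool.Agent.AMA
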