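import Pool.Agent.AMA.Tests

/-!
# Parts theorem
-/

set_option autoImplicit false

namespace Pool.Agent.AMA

open Finset
open Pool.Agent.MP9a04dc (deg codeg Good)

/-- the density of good gadgets for every test -/
noncomputable def bb (ν ν' : ℝ) (k0 : ℕ) : ℝ := gam ν k0 ^ 4 * ν' / 20

/-- polynomial against exponential: the number of tests -/
theorem card_TJ_le (s : ℕ) (c1 C1 c : ℝ) (hc1 : 0 < c1) (hC1 : 0 < C1) (hc : 0 < c) :
    ∃ N0 : ℕ, ∀ p N : ℕ, N0 ≤ N → (p : ℝ) ≤ C1 * N →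
      (Fintype.card (TJ s p) : ℝ) ≤ Real.exp (c * (c1 * N)) := by
  set q : ℝ := c * c1 with hq
  have hq0 : 0 < q := mul_pos hc hc1
  obtain ⟨N1, hN1⟩ := exists_nat_gt ((s : ℝ) * C1 ^ 3 * (Nat.factorial 4 : ℝ) / q ^ 4)
  refine ⟨N1, fun p N hN hp => ?_⟩
  have hN1' : ((s : ℝ) * C1 ^ 3 * (Nat.factorial 4 : ℝ) / q ^ 4) ≤ N :=
    hN1.le.trans (by exact_mod_cast hN)
  have hN0 : (0 : ℝ) ≤ N := Nat.cast_nonneg _
  have hp0 : (0 : ℝ) ≤ p := Nat.cast_nonneg _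
  have hs0 : (0 : ℝ) ≤ s := Nat.cast_nonneg _
  have hcard : (Fintype.card (TJ s p) : ℝ) = s * (p : ℝ) ^ 3 := by
    simp only [TJ, Fintype.card_prod, Fintype.card_fin]
    push_cast
    ring
  have h4 : (Fintype.card (TJ s p) : ℝ) ≤ s * (C1 * N) ^ 3 := by
    rw [hcard]
    gcongr
  have h5 := Real.pow_div_factorial_le_exp (x := q * N) (by positivity) 4
  have h6 : s * (C1 * N) ^ 3 ≤ (q * N) ^ 4 / (Nat.factorial 4 : ℝ) := by
    have hf : (0 : ℝ) < (Nat.factorial 4 : ℝ) := by positivity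
    rw [div_le_iff₀ (by positivity)] at hN1'
    rw [le_div_iff₀ hf]
    calc s * (C1 * N) ^ 3 * (Nat.factorial 4 : ℝ)
        = (s * C1 ^ 3 * (Nat.factorial 4 : ℝ)) * (N : ℝ) ^ 3 := by ring
      _ ≤ (N * q ^ 4) * (N : ℝ) ^ 3 := by gcongr
      _ = (q * N) ^ 4 := by ring
  have h7 : c * (c1 * N) = q * N := by rw [hq]; ring
  rw [h7]
  linarith

section Parts_aux

variable {P : Type} [Fintype P] [DecidableEq P] {s : ℕ} {σ : PSys P s}
  {Λ : Bool → Fin 3 → Finset ℕ} {h : Bool → ℕ} {R p N k0 B : ℕ}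
  {c1 C1 ν ν' : ℝ} {Sp : P → Finset (Frm s)} {Win : Bool → Finset ℕ}

theorem Parts_gam_pos (hν : 0 < ν) : 0 < gam ν k0 := by
  unfold gam
  exact lt_min (by positivity) (by norm_num)

theorem Parts_gam_le : gam ν k0 ≤ 1 / 2 := min_le_right _ _

theorem Parts_adm {e : HE P s R} (he : 0 < wH σ Λ R p e) : σ.Adm p e.1 (lb e) ∧ 0 < pr Λ R (σ.kd e.1) e.2 := by
  unfold wH at he
  split_ifs at he with h1
  · exact ⟨h1, he⟩
  · exact absurd he (lt_irrefl _)

theorem Parts_card_V : (Fintype.card (HV P p) : ℝ) = Fintype.card P + 4 * (p : ℝ) := by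
  simp only [HV, Fintype.card_sum, Fintype.card_prod, Fintype.card_fin]
  push_cast
  ring

theorem Parts_card_V_le (H : PSOK σ Λ h R p N k0 B c1 C1 ν ν' Sp Win) :
    (Fintype.card (HV P p) : ℝ) ≤ (1 + 4 * C1) * N := by
  rw [Parts_card_V]
  have h1 : (Fintype.card P : ℝ) ≤ N := by exact_mod_cast H.cardP
  have h2 := H.pN
  linarith

theorem Parts_le_card_V (H : PSOK σ Λ h R p N k0 B c1 C1 ν ν' Sp Win) :
    c1 * N ≤ (Fintype.card (HV P p) : ℝ) := by
  rw [Parts_card_V]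
  have h1 : (0 : ℝ) ≤ Fintype.card P := Nat.cast_nonneg _
  have h2 := H.hhigh
  have h3 : (Λ true 0).card ≤ R := by
    have h4 : Λ true 0 ⊆ Icc 1 R := fun a ha =>
      mem_Icc.2 ⟨H.lam.pos true a ha, H.lam.le true a ha⟩
    have h5 := card_le_card h4
    rw [Nat.card_Icc] at h5
    omega
  have h4 := H.lam.card_eq true 0
  rw [if_pos rfl] at h4
  have h5 := H.Rp
  have h6 : (h true : ℝ) ≤ p := by
    have : h true ≤ p := by omega
    exact_mod_cast this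
  have h7 : (0 : ℝ) ≤ p := Nat.cast_nonneg _
  linarith

theorem Parts_sum_wH (H : PSOK σ Λ h R p N k0 B c1 C1 ν ν' Sp Win) (hN : 0 < c1 * N) :
    (Fintype.card P : ℝ) - (16 * s ^ 2 / c1 + B) ≤ ∑ e : HE P s R, wH σ Λ R p e := by
  classical
  have h1 := sum_wH_filter_ge H hN (fun _ _ => True)
  have h2 : ∀ Q, Pr Λ R (σ.kd Q) (fun _ => True) = 1 := fun Q => by
    refine Pr_true H.lam fun i b hb => ?_
    have h3 := H.hlow b ⟨Q, i, hb⟩
    have h4 : (0 : ℝ) < h b := lt_of_lt_of_le hN h3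
    exact_mod_cast h4
  simp only [h2, sum_const, card_univ, nsmul_eq_mul, mul_one, filter_true] at h1
  exact h1

theorem Parts_GOK_mod {T : Finset ℕ} {Q : P} {x : Fin s → ℕ} {y π1 π2 : ℕ}
    {g : Fin s × Finset (Frm s)} (h : GOK σ Win p T Q x (y % p) (π1 % p) (π2 % p) g) :
    GOK σ Win p T Q x y π1 π2 g := by
  obtain ⟨h1, h2, h3, h4, h5, h6, h7⟩ := h
  simp only [Nat.add_mod_mod, Nat.mod_add_mod] at h3 h5 h6 h7
  exact ⟨h1, h2, h3, h4, h5, h6, h7⟩

open Classical in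
theorem Parts_extract (H : PSOK σ Λ h R p N k0 B c1 C1 ν ν' Sp Win)
    (T' : Finset (HV P p)) (M : Finset (HE P s R))
    (hpos : ∀ e ∈ M, 0 < wH σ Λ R p e)
    (hdisj : ∀ e ∈ M, ∀ f ∈ M, e ≠ f → Disjoint (vsH σ R p e) (vsH σ R p f))
    (hMT : ∀ e ∈ M, Disjoint (vsH σ R p e) T') :
    ∃ (T : Finset ℕ) (Pm : Finset P) (x : P → Fin s → ℕ), Pm.card = M.card ∧
        (∀ Q ∈ Pm, ∀ i k, σ.kd Q i = some k → x Q i ∈ Λ k 0) ∧
        (∀ Q ∈ Pm, ∀ Q' ∈ Pm, ∀ u ∈ σ.cf Q, ∀ v ∈ σ.cf Q', u.1 = v.1 →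
          val u.2 (x Q) % p = val v.2 (x Q') % p → Q = Q' ∧ u = v) ∧
        (∀ Q ∈ Pm, ∀ φ ∈ σ.S Q, val φ (x Q) % p ∉ T) ∧
        (∀ a ∈ T, a < p) ∧
        ∀ (y π1 π2 : Fin p) (k : Fin s),
          ((M ∩ tA σ Win R p (y, π1, π2, k)).filter
            (fun e => tP σ R p (y, π1, π2, k) e ⊆ T')).card ≤
          ∑ Q ∈ Pm, ((σ.Gd Q).filter
            (fun g => GOK σ Win p T Q (x Q) y π1 π2 g ∧ g.1 = k)).card := by
  have hp0 : 0 < p := lt_of_le_of_lt (Nat.zero_le _) H.Rp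
  -- parts of different hyperedges are different
  have hfst : ∀ e ∈ M, ∀ f ∈ M, e.1 = f.1 → e = f := by
    intro e he f hf hef
    by_contra hne
    have h1 := hdisj e he f hf hne
    rw [disjoint_left] at h1
    exact h1 (mem_vsH_inl.2 hef) (mem_vsH_inl.2 rfl)
  set T : Finset ℕ := ((univ : Finset (Fin p)).filter
    (fun b => (Sum.inr ((1 : Fin 4), b) : HV P p) ∈ T')).image
    (fun b : Fin p => (b : ℕ)) with hT
  have memT : ∀ b : Fin p, (b : ℕ) ∈ T ↔ (Sum.inr ((1 : Fin 4), b) : HV P p) ∈ T' := by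
    intro b
    rw [hT, mem_image]
    constructor
    · rintro ⟨b', hb', hbb⟩
      have : b' = b := Fin.ext hbb
      rw [← this]
      exact (mem_filter.1 hb').2
    · intro hb
      exact ⟨b, mem_filter.2 ⟨mem_univ _, hb⟩, rfl⟩
  set x : P → Fin s → ℕ := fun Q => if hQ : ∃ e ∈ M, e.1 = Q then lb hQ.choose else fun _ => 0
    with hx
  have hxe : ∀ e ∈ M, x e.1 = lb e := by
    intro e he
    have hQ : ∃ e' ∈ M, e'.1 = e.1 := ⟨e, he, rfl⟩
    have h1 : x e.1 = lb hQ.choose := dif_pos hQ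
    have h2 := hQ.choose_spec
    rw [h1, hfst _ h2.1 e he h2.2]
  refine ⟨T, M.image Prod.fst, x, card_image_of_injOn fun e he f hf hef => hfst e he f hf hef,
    ?_, ?_, ?_, ?_, ?_⟩
  · intro Q hQ i k hk
    obtain ⟨e, he, rfl⟩ := mem_image.1 hQ
    rw [hxe e he]
    exact mem_of_pr_pos H.lam e.2 (Parts_adm (hpos e he)).2 i k hk
  · intro Q hQ Q' hQ' u hu v hv huv hval
    obtain ⟨e, he, rfl⟩ := mem_image.1 hQ
    obtain ⟨f, hf, rfl⟩ := mem_image.1 hQ'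
    rw [hxe e he, hxe f hf] at hval
    by_cases hef : e = f
    · subst hef
      exact ⟨rfl, (Parts_adm (hpos e he)).1 u hu v hv huv hval⟩
    · exfalso
      have h1 := hdisj e he f hf hef
      rw [disjoint_left] at h1
      refine h1 (a := Sum.inr (u.1, ⟨val u.2 (lb e) % p, Nat.mod_lt _ hp0⟩)) ?_ ?_
      · exact mem_vsH_inr.2 ⟨u, hu, rfl, rfl⟩
      · exact mem_vsH_inr.2 ⟨v, hv, huv.symm, hval.symm⟩
  · intro Q hQ φ hφ hmem
    obtain ⟨e, he, rfl⟩ := mem_image.1 hQ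
    rw [hxe e he] at hmem
    have hu : ((1 : Fin 4), φ) ∈ σ.cf e.1 := by
      unfold PSys.cf
      rw [mem_union, mem_union]
      exact Or.inl (Or.inr (mem_image.2 ⟨φ, hφ, rfl⟩))
    have h3 := (memT ⟨val φ (lb e) % p, Nat.mod_lt _ hp0⟩).1 hmem
    have h1 := hMT e he
    rw [disjoint_left] at h1
    exact h1 (mem_vsH_inr.2 ⟨_, hu, rfl, rfl⟩) h3
  · intro a ha
    obtain ⟨b, -, rfl⟩ := mem_image.1 ha
    exact b.2
  · intro y π1 π2 k
    set F := (M ∩ tA σ Win R p (y, π1, π2, k)).filter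
      (fun e => tP σ R p (y, π1, π2, k) e ⊆ T') with hF
    have hFM : ∀ e ∈ F, e ∈ M := fun e he => (mem_inter.1 (mem_filter.1 he).1).1
    have hge : ∀ e ∈ F, 1 ≤ ((σ.Gd e.1).filter
        (fun g => GOK σ Win p T e.1 (x e.1) y π1 π2 g ∧ g.1 = k)).card := by
      intro e he
      have heM := hFM e he
      have heA : TA σ Win p e.1 y π1 π2 k (lb e) :=
        (mem_filter.1 (mem_inter.1 (mem_filter.1 he).1).2).2
      have heP : tP σ R p (y, π1, π2, k) e ⊆ T' := (mem_filter.1 he).2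
      have hpos' : ∀ a : ℕ, a < p → TP σ p e.1 y π1 π2 k (lb e) a → a ∈ T := by
        intro a ha hTP
        have h1 : (Sum.inr ((1 : Fin 4), (⟨a, ha⟩ : Fin p)) : HV P p) ∈
            tP σ R p (y, π1, π2, k) e := by
          unfold tP
          exact mem_image.2 ⟨(1, ⟨a, ha⟩), mem_filter.2 ⟨mem_univ _, rfl, hTP⟩, rfl⟩
        exact (memT ⟨a, ha⟩).2 (heP h1)
      obtain ⟨g, hg, hgk, hwin, hdis, hne, hsum⟩ := heA
      refine card_pos.2 ⟨g, mem_filter.2 ⟨hg, ?_, hgk⟩⟩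
      rw [hxe e heM]
      subst hgk
      exact ⟨hg, hwin, fun β hβ => hpos' _ (Nat.mod_lt _ hp0) (Or.inl ⟨g, hg, rfl, β, hβ, rfl⟩),
        hdis, hpos' _ (Nat.mod_lt _ hp0) (Or.inr (Or.inl rfl)),
        hpos' _ (Nat.mod_lt _ hp0) (Or.inr (Or.inr rfl)), hne⟩
    calc F.card = ∑ e ∈ F, 1 := by simp
      _ ≤ ∑ e ∈ F, ((σ.Gd e.1).filter
          (fun g => GOK σ Win p T e.1 (x e.1) y π1 π2 g ∧ g.1 = k)).card := sum_le_sum hge
      _ = ∑ Q ∈ F.image Prod.fst, ((σ.Gd Q).filter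
          (fun g => GOK σ Win p T Q (x Q) y π1 π2 g ∧ g.1 = k)).card := by
          rw [sum_image]
          intro e he f hf hef
          exact hfst e (hFM e he) f (hFM f hf) hef
      _ ≤ _ := sum_le_sum_of_subset (image_subset_image fun e he => hFM e he)

/-- sum over the slots of the numbers of parts with a gadget -/
theorem Parts_sum_G (H : PSOK σ Λ h R p N k0 B c1 C1 ν ν' Sp Win) :
    ν' * N ≤ ∑ k : Fin s, ((univ.filter fun Q => ∃ g ∈ σ.Gd Q, g.1 = k).card : ℝ) := by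
  classical
  refine H.G_sum.trans (le_of_eq ?_)
  have h1 : ∀ Q, ((σ.Gd Q).card : ℝ) = ∑ k : Fin s, (if ∃ g ∈ σ.Gd Q, g.1 = k then (1 : ℝ) else 0) := by
    intro Q
    rw [← sum_filter, sum_const, nsmul_eq_mul, mul_one]
    have h2 : (univ.filter fun k : Fin s => ∃ g ∈ σ.Gd Q, g.1 = k) = (σ.Gd Q).image Prod.fst := by
      ext k
      simp
    rw [h2, card_image_of_injOn]
    intro g hg g' hg' hgg
    exact H.G_uniq Q g hg g' hg' hgg
  rw [sum_congr rfl fun Q _ => h1 Q, sum_comm]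
  refine sum_congr rfl fun k _ => ?_
  rw [← sum_filter, sum_const, nsmul_eq_mul, mul_one]

end Parts_aux

open Classical in
/-- **Parts theorem.** Proof: `AMB.machine` with `r = 4 s + 1`, `C = 4/c1 + B + 1`, `γ = gam ν k0`
(note `min γ (1/2) = γ`), `d` small, `E = HE P s R`, `V = HV P p`, `J = TJ s p`, `Om = OmH P p`,
`A = tA`, `P = tP`. `AMPlus`: `good_wH`, `deg_sum_le`, `tP_sub`, `tP_card`, `tP_disj`, `tP_codeg`.
`|V| ≤ N + 4 (C1 N + 1)`, `|V| ≥ 4 p ≥ 2 h true ≥ c1 N` (the `2 h true` high labels are in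
`[1, R]`, `R < p`). Result: `T' ⊆ Om`, `M`. Put `T = {a | inr (1, a) ∈ T'}`, `Pm` = the parts of the
hyperedges of `M` (distinct hyperedges of `M` have distinct parts), `x Q` = the labels of the hyperedge of
`M` with part `Q` (`0` if there is none). `|Pm| = |M| ≥ ∑ wH - d |V| ≥ |P| - (16 s^2/c1 + B) - d |V|`
(`sum_wH_filter_ge` with `A = True`). Different coordinates of hyperedges of `M` with the same tag have
different values: in the same hyperedge by `Adm` (positive weight), in different ones since the vertex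
sets are disjoint. `Λ`: `mem_of_pr_pos`. Sums are not in
`T`: `M` avoids `T'`. Tests: for fixed `y, π1, π2` and every slot `k` the machine and `tA_weight` give at
least `γ^4 (G_k/8 - const) - d |V|` hyperedges `e ∈ M ∩ A_k` with positions in `T'`, where `G_k` is the
number of parts having a gadget with slot `k`, `∑_k G_k = ∑ |Gd Q| ≥ ν' N` (`G_uniq`); each of them
gives a gadget with `GOK` (slot `k`), different `k` give different gadgets. General `y, π1, π2`: reduce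
modulo `p` first (`GOK` depends only on the residues). -/
theorem parts (s k0 B : ℕ) (c1 C1 ν ν' δ : ℝ) (hc1 : 0 < c1) (hC1 : 0 < C1) (hν : 0 < ν)
    (hν' : 0 < ν') (hδ : 0 < δ) :
    ∃ N0 : ℕ, ∀ (P : Type) [Fintype P] [DecidableEq P] (σ : PSys P s)
      (Λ : Bool → Fin 3 → Finset ℕ) (h : Bool → ℕ) (R p N : ℕ)
      (Sp : P → Finset (Frm s)) (Win : Bool → Finset ℕ), N0 ≤ N →
      PSOK σ Λ h R p N k0 B c1 C1 ν ν' Sp Win →
      ∃ (T : Finset ℕ) (Pm : Finset P) (x : P → Fin s → ℕ),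
        ((univ \ Pm).card : ℝ) ≤ δ * N ∧
        (∀ Q ∈ Pm, ∀ i k, σ.kd Q i = some k → x Q i ∈ Λ k 0) ∧
        (∀ Q ∈ Pm, ∀ Q' ∈ Pm, ∀ u ∈ σ.cf Q, ∀ v ∈ σ.cf Q', u.1 = v.1 →
          val u.2 (x Q) % p = val v.2 (x Q') % p → Q = Q' ∧ u = v) ∧
        (∀ Q ∈ Pm, ∀ φ ∈ σ.S Q, val φ (x Q) % p ∉ T) ∧
        (∀ a ∈ T, a < p) ∧
        ∀ y π1 π2 : ℕ,
          bb ν ν' k0 * N ≤ ∑ Q ∈ Pm, (((σ.Gd Q).filter
            (GOK σ Win p T Q (x Q) y π1 π2)).card : ℝ) := by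
  set γ : ℝ := gam ν k0 with hγ
  have hγ0 : 0 < γ := Parts_gam_pos hν
  have hγ1 : γ ≤ 1 / 2 := Parts_gam_le
  set Kv : ℝ := 1 + 4 * C1 with hKv
  have hKv0 : 0 < Kv := by positivity
  set d : ℝ := min (δ / (2 * Kv)) (γ ^ 4 * ν' / (40 * ((s : ℝ) + 1) * Kv)) with hd
  have hs0 : (0 : ℝ) ≤ s := Nat.cast_nonneg _
  have hB0 : (0 : ℝ) ≤ B := Nat.cast_nonneg _
  have hd0 : 0 < d := lt_min (by positivity) (by positivity)
  have hC : 0 < 4 / c1 + (B : ℝ) + 1 := by positivity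
  obtain ⟨κ, hκ, c, hc, n0, hmach⟩ := Pool.Agent.AMB.machine (4 * s + 1) hC hγ0 hd0
  obtain ⟨Ng, hgood⟩ := good_wH s B c1 κ hc1 hκ
  obtain ⟨Nj, hJ⟩ := card_TJ_le s c1 C1 c hc1 hC1 hc
  set K1 : ℝ := 16 * (s : ℝ) ^ 2 / c1 + B with hK1
  have hK10 : 0 ≤ K1 := by positivity
  set K2 : ℝ := (9 + 4 * (s : ℝ)) / c1 + 4 * B + K1 with hK2
  have hK20 : 0 ≤ K2 := by positivity
  obtain ⟨Na, hNa⟩ := exists_nat_gt (n0 / c1)
  obtain ⟨Nb, hNb⟩ := exists_nat_gt (K1 / (δ / 2))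
  obtain ⟨Nc, hNc⟩ := exists_nat_gt (s * K2 / (ν' / 20))
  refine ⟨Ng + Nj + Na + Nb + Nc + 4, ?_⟩
  intro P _ _ σ Λ h R p N Sp Win hN H
  have hN1 : (1 : ℝ) ≤ N := by
    have : 1 ≤ N := by omega
    exact_mod_cast this
  have hN0 : (0 : ℝ) ≤ N := by linarith
  have hcN : 0 < c1 * N := by positivity
  have hNa' : (n0 : ℝ) ≤ c1 * N := by
    have h1 : n0 / c1 ≤ (N : ℝ) := hNa.le.trans (by
      have : Na ≤ N := by omega
      exact_mod_cast this)
    rw [div_le_iff₀ hc1] at h1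
    linarith
  have hNb' : K1 ≤ δ / 2 * N := by
    have h1 : K1 / (δ / 2) ≤ (N : ℝ) := hNb.le.trans (by
      have : Nb ≤ N := by omega
      exact_mod_cast this)
    rw [div_le_iff₀ (by positivity)] at h1
    linarith
  have hNc' : s * K2 ≤ ν' / 20 * N := by
    have h1 : s * K2 / (ν' / 20) ≤ (N : ℝ) := hNc.le.trans (by
      have : Nc ≤ N := by omega
      exact_mod_cast this)
    rw [div_le_iff₀ (by positivity)] at h1
    linarith
  have hVle : (Fintype.card (HV P p) : ℝ) ≤ Kv * N := Parts_card_V_le H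
  have hVge : c1 * N ≤ (Fintype.card (HV P p) : ℝ) := Parts_le_card_V H
  have hdV : d * (Fintype.card (HV P p) : ℝ) ≤ d * (Kv * N) :=
    mul_le_mul_of_nonneg_left hVle hd0.le
  have hamp : Pool.Agent.AMB.AMPlus (vsH σ R p) (wH σ Λ R p) (OmH P p) (tA σ Win R p)
      (tP σ R p) (4 * s + 1) (4 / c1 + (B : ℝ) + 1) γ κ := by
    refine ⟨hgood P σ Λ h R p N k0 C1 ν ν' Sp Win (by omega) hν H, ?_, fun j e _ => tP_sub j e,
      fun j e he => tP_card H j e he, fun j e he => tP_disj H j e he, fun j v => ?_⟩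
    · intro v hv
      unfold OmH at hv
      obtain ⟨⟨t, a⟩, hta, rfl⟩ := mem_image.1 hv
      have ht : t = 1 := (mem_filter.1 hta).2
      subst ht
      exact deg_sum_le H hcN a
    · have := tP_codeg H hcN j v
      linarith
  obtain ⟨T', hT', M, hpos, hdisj, hMT, hcard, htest⟩ := hmach (HE P s R) (HV P p) (TJ s p)
    (vsH σ R p) (wH σ Λ R p) (OmH P p) (tA σ Win R p) (tP σ R p) hamp
    ((hJ p N (by omega) H.pN).trans (Real.exp_le_exp.2 (mul_le_mul_of_nonneg_left hVge hc.le)))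
    (by exact_mod_cast hNa'.trans hVge)
  obtain ⟨T, Pm, x, hPm, h2, h3, h4, h5, h6⟩ := Parts_extract H T' M hpos hdisj hMT
  refine ⟨T, Pm, x, ?_, h2, h3, h4, h5, ?_⟩
  · have e1 : ((univ \ Pm).card : ℝ) = (Fintype.card P : ℝ) - M.card := by
      rw [card_sdiff_of_subset (subset_univ Pm), card_univ, ← hPm,
        Nat.cast_sub (card_le_univ Pm)]
    have e2 := Parts_sum_wH H hcN
    have e3 : d * (Kv * N) ≤ δ / 2 * N := by
      have e4 : d ≤ δ / (2 * Kv) := min_le_left _ _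
      rw [le_div_iff₀ (by positivity)] at e4
      have e5 : d * (Kv * N) = d * (2 * Kv) * (N / 2) := by ring
      rw [e5]
      calc d * (2 * Kv) * (N / 2) ≤ δ * (N / 2) := mul_le_mul_of_nonneg_right e4 (by linarith)
        _ = δ / 2 * N := by ring
    rw [e1]
    linarith
  · intro y π1 π2
    have hp0 : 0 < p := lt_of_le_of_lt (Nat.zero_le _) H.Rp
    set y' : Fin p := ⟨y % p, Nat.mod_lt _ hp0⟩ with hy'
    set p1 : Fin p := ⟨π1 % p, Nat.mod_lt _ hp0⟩ with hp1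
    set p2 : Fin p := ⟨π2 % p, Nat.mod_lt _ hp0⟩ with hp2
    have e0 : ∀ k : Fin s, γ ^ 4 * (1 / 8 *
        ((univ.filter fun Q => ∃ g ∈ σ.Gd Q, g.1 = k).card : ℝ) - K2) - d * (Kv * N) ≤
        ∑ Q ∈ Pm, (((σ.Gd Q).filter
            (fun g => GOK σ Win p T Q (x Q) y π1 π2 g ∧ g.1 = k)).card : ℝ) := by
      intro k
      have f1 := tA_weight H hcN (y', p1, p2, k)
      have f2 := htest (y', p1, p2, k)
      have f3 := h6 y' p1 p2 k
      have f4 : min γ (1 / 2) = γ := min_eq_left hγ1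
      rw [f4] at f2
      have f5 : γ ^ 4 * (1 / 8 *
        ((univ.filter fun Q => ∃ g ∈ σ.Gd Q, g.1 = k).card : ℝ) - K2) ≤
          γ ^ 4 * ∑ e ∈ tA σ Win R p (y', p1, p2, k), wH σ Λ R p e :=
        mul_le_mul_of_nonneg_left f1 (by positivity)
      have f6 : (((M ∩ tA σ Win R p (y', p1, p2, k)).filter
          (fun e => tP σ R p (y', p1, p2, k) e ⊆ T')).card : ℝ) ≤
          ∑ Q ∈ Pm, (((σ.Gd Q).filter
            (fun g => GOK σ Win p T Q (x Q) y π1 π2 g ∧ g.1 = k)).card : ℝ) := by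
        have f7 : ((M ∩ tA σ Win R p (y', p1, p2, k)).filter
          (fun e => tP σ R p (y', p1, p2, k) e ⊆ T')).card ≤
            ∑ Q ∈ Pm, ((σ.Gd Q).filter
              (fun g => GOK σ Win p T Q (x Q) y π1 π2 g ∧ g.1 = k)).card :=
          f3.trans (sum_le_sum fun Q _ => card_le_card fun g hg => by
            obtain ⟨g1, g2, g3⟩ := mem_filter.1 hg
            exact mem_filter.2 ⟨g1, Parts_GOK_mod g2, g3⟩)
        exact_mod_cast f7
      linarith
    have e1 : ∑ k : Fin s, ∑ Q ∈ Pm, (((σ.Gd Q).filter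
            (fun g => GOK σ Win p T Q (x Q) y π1 π2 g ∧ g.1 = k)).card : ℝ) =
          ∑ Q ∈ Pm, (((σ.Gd Q).filter (GOK σ Win p T Q (x Q) y π1 π2)).card : ℝ) := by
      rw [sum_comm]
      refine sum_congr rfl fun Q _ => ?_
      have f1 := card_eq_sum_card_fiberwise (f := Prod.fst)
        (s := (σ.Gd Q).filter (GOK σ Win p T Q (x Q) y π1 π2)) (t := (univ : Finset (Fin s)))
        (fun _ _ => mem_univ _)
      rw [f1]
      push_cast
      refine sum_congr rfl fun k _ => ?_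
      rw [filter_filter]
    rw [← e1]
    refine le_trans ?_ (sum_le_sum fun k _ => e0 k)
    have e2 := Parts_sum_G H
    have e3 : ∑ k : Fin s, (γ ^ 4 * (1 / 8 *
        ((univ.filter fun Q => ∃ g ∈ σ.Gd Q, g.1 = k).card : ℝ) - K2) - d * (Kv * N)) =
        γ ^ 4 * (1 / 8) * ∑ k : Fin s, ((univ.filter fun Q => ∃ g ∈ σ.Gd Q, g.1 = k).card : ℝ)
          - γ ^ 4 * (s * K2) - s * (d * (Kv * N)) := by
      rw [sum_sub_distrib, ← mul_sum, sum_sub_distrib, ← mul_sum]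
      simp only [sum_const, card_univ, Fintype.card_fin, nsmul_eq_mul]
      ring
    rw [e3]
    have e4 : γ ^ 4 * (1 / 8) * (ν' * N) ≤ γ ^ 4 * (1 / 8) *
        ∑ k : Fin s, ((univ.filter fun Q => ∃ g ∈ σ.Gd Q, g.1 = k).card : ℝ) :=
      mul_le_mul_of_nonneg_left e2 (by positivity)
    have e5 : γ ^ 4 * (s * K2) ≤ γ ^ 4 * (ν' / 20 * N) :=
      mul_le_mul_of_nonneg_left hNc' (by positivity)
    have e6 : s * (d * (Kv * N)) ≤ γ ^ 4 * ν' / 40 * N := by
      have f1 : d ≤ γ ^ 4 * ν' / (40 * ((s : ℝ) + 1) * Kv) := min_le_right _ _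
      rw [le_div_iff₀ (by positivity)] at f1
      have f2 : s * (d * Kv) ≤ γ ^ 4 * ν' / 40 := by
        have f3 : 0 ≤ d * Kv := by positivity
        have f4 : d * (40 * ((s : ℝ) + 1) * Kv) = 40 * (s * (d * Kv)) + 40 * (d * Kv) := by ring
        rw [f4] at f1
        linarith
      calc s * (d * (Kv * N)) = (s * (d * Kv)) * N := by ring
        _ ≤ γ ^ 4 * ν' / 40 * N := mul_le_mul_of_nonneg_right f2 hN0
    have e7 : bb ν ν' k0 * N = γ ^ 4 * ν' / 20 * N := by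
      unfold bb
      rw [← hγ]
    rw [e7]
    linarith

end Pool.Agent.AMA
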