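import Pool.Agent.AMA.Prob

/-!
# Parts theorem: probabilities of values of linear forms
-/

set_option autoImplicit false

namespace Pool.Agent.AMA

open Finset
open Pool.Agent.AMB (pE)

variable {s : ℕ} {Λ : Bool → Fin 3 → Finset ℕ} {h : Bool → ℕ} {R : ℕ} {o : Fin s → Option Bool}

theorem val_update {φ : Frm s} {i : Fin s} (hi : i ∈ φ.1) (x : Fin s → ℕ) (y : ℕ) :
    val φ (Function.update x i y) = φ.2 + (∑ j ∈ φ.1.erase i, x j) + y := by
  unfold val
  rw [← add_sum_erase _ _ hi, Function.update_self]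
  have h1 : ∑ j ∈ φ.1.erase i, Function.update x i y j = ∑ j ∈ φ.1.erase i, x j := by
    refine sum_congr rfl fun j hj => ?_
    rw [Function.update_of_ne (ne_of_mem_erase hj)]
  rw [h1]
  ring

theorem val_update_of_notMem {φ : Frm s} {i : Fin s} (hi : i ∉ φ.1) (x : Fin s → ℕ) (y : ℕ) :
    val φ (Function.update x i y) = val φ x := by
  unfold val
  congr 1
  refine sum_congr rfl fun j hj => ?_
  rw [Function.update_of_ne]
  rintro rfl
  exact hi hj

theorem val_le {φ : Frm s} {x : Fin s → ℕ} (hx : ∀ i, x i ≤ R) : val φ x ≤ φ.2 + s * R := by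
  unfold val
  have h1 : ∑ i ∈ φ.1, x i ≤ φ.1.card • R := sum_le_card_nsmul _ _ _ fun i _ => hx i
  have h2 : φ.1.card ≤ s := by
    have := card_le_univ φ.1
    rwa [Fintype.card_fin] at this
  have h3 : φ.1.card * R ≤ s * R := Nat.mul_le_mul_right _ h2
  rw [smul_eq_mul] at h1
  omega

/-- The values in the lower and in the upper mode are disjoint: labels of positive weight in mode `1`
are smaller than labels of positive weight in mode `2`, slot by slot, so the value of a form with a slot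
is strictly smaller. -/
theorem Prm_lo_or_up (hΛ : LamOK Λ h R) (φ : Frm s) (hne : φ.1.Nonempty)
    (hact : ∀ i ∈ φ.1, o i ≠ none) (a : ℕ) :
    Prm Λ R 1 o (fun x => val φ x = a) = 0 ∨ Prm Λ R 2 o (fun x => val φ x = a) = 0 := by
  classical
  by_contra hcon
  push Not at hcon
  obtain ⟨h1, h2⟩ := hcon
  have hex : ∀ md : Fin 3, Prm Λ R md o (fun x => val φ x = a) ≠ 0 →
      ∃ x : Fin s → Fin (R + 1), val φ (fun i => (x i : ℕ)) = a ∧
        ∀ i k, o i = some k → (x i : ℕ) ∈ Λ k md := by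
    intro md hmd
    unfold Prm pE at hmd
    obtain ⟨x, -, hx0⟩ := exists_ne_zero_of_sum_ne_zero hmd
    have hA : val φ (fun i => (x i : ℕ)) = a := by
      by_contra hno
      exact hx0 (mul_eq_zero_of_right _ (if_neg hno))
    refine ⟨x, hA, fun i k hk => ?_⟩
    by_contra hno
    apply hx0
    have h3 : wl Λ R md (o i) (x i) = 0 := by
      rw [hk]
      simp only [wl]
      rw [if_neg hno]
    exact mul_eq_zero_of_left (prod_eq_zero (mem_univ i) h3) _
  obtain ⟨x, hx1, hx2⟩ := hex 1 h1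
  obtain ⟨y, hy1, hy2⟩ := hex 2 h2
  have h3 : ∑ i ∈ φ.1, (x i : ℕ) < ∑ i ∈ φ.1, (y i : ℕ) := by
    refine sum_lt_sum_of_nonempty hne fun i hi => ?_
    obtain ⟨k, hk⟩ := Option.ne_none_iff_exists'.1 (hact i hi)
    exact hΛ.lt k _ (hx2 i k hk) _ (hy2 i k hk)
  have hx3 : φ.2 + ∑ i ∈ φ.1, (x i : ℕ) = a := hx1
  have hy3 : φ.2 + ∑ i ∈ φ.1, (y i : ℕ) = a := hy1
  omega

/-- A form with a slot of kind `k` takes every value with probability at most `1 / (2 h k)`:
`Pr = 1/2 Prm 0 + 1/4 Prm 1 + 1/4 Prm 2 ≤ 1/2 * 1/(2h) + 1/4 * 1/h` by `Prm_det`, `Prm_lo_or_up`,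
`LamOK.card_eq`. -/
theorem Pr_val_le (hΛ : LamOK Λ h R) (ho : ∀ i b, o i = some b → 0 < h b) (φ : Frm s)
    (hact : ∀ i ∈ φ.1, o i ≠ none) (i : Fin s) (hi : i ∈ φ.1) (k : Bool) (hk : o i = some k)
    (a : ℕ) : Pr Λ R o (fun x => val φ x = a) ≤ 1 / (2 * (h k : ℝ)) := by
  have hpos : (0 : ℝ) < h k := by exact_mod_cast ho i k hk
  have hdet : ∀ x y z, val φ (Function.update x i y) = a → val φ (Function.update x i z) = a →
      y = z := by
    intro x y z h1 h2
    rw [val_update hi] at h1 h2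
    omega
  have hb : ∀ md : Fin 3, Prm Λ R md o (fun x => val φ x = a) ≤ 1 / ((Λ k md).card : ℝ) :=
    fun md => Prm_det hΛ md ho i k hk _ hdet
  have h0 := hb 0
  have h1 := hb 1
  have h2 := hb 2
  rw [hΛ.card_eq, if_pos rfl] at h0
  rw [hΛ.card_eq, if_neg (by decide)] at h1 h2
  push_cast at h0
  rw [Pr_eq, Fin.sum_univ_three]
  have o0 : om 0 = 1 / 2 := by simp [om]
  have o1 : om 1 = 1 / 4 := by simp [om]
  have o2 : om 2 = 1 / 4 := by
    unfold om
    rw [if_neg (by decide)]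
  rw [o0, o1, o2]
  have e1 : 1 / (2 * (h k : ℝ)) = 1 / 2 * (1 / (2 * (h k : ℝ))) + 1 / 4 * (1 / (h k : ℝ)) := by
    field_simp
    norm_num
  rcases Prm_lo_or_up hΛ φ ⟨i, hi⟩ hact a with h3 | h3
  · rw [h3, e1]
    linarith
  · rw [h3, e1]
    linarith

private theorem Point_exists_diff {A B : Finset (Fin s)} (h : A ≠ B) :
    (∃ i, i ∈ A ∧ i ∉ B) ∨ ∃ i, i ∈ B ∧ i ∉ A := by
  by_contra hcon
  push Not at hcon
  exact h (subset_antisymm hcon.1 hcon.2)

private theorem Point_Pr_le {A : (Fin s → ℕ) → Prop} {M : ℝ}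
    (h : ∀ md : Fin 3, Prm Λ R md o A ≤ M) : Pr Λ R o A ≤ M := by
  rw [Pr_eq, Fin.sum_univ_three]
  have o0 : om 0 = 1 / 2 := by simp [om]
  have o1 : om 1 = 1 / 4 := by simp [om]
  have o2 : om 2 = 1 / 4 := by
    unfold om
    rw [if_neg (by decide)]
  rw [o0, o1, o2]
  have h0 := h 0
  have h1 := h 1
  have h2 := h 2
  linarith

/-- Coincidence of two forms with different slots: a slot `i` in exactly one of the two sets is
determined (`Prm_det` in every mode, `Λ k md` has at least `h k ≥ H` elements), `∑ om = 1`. -/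
theorem Pr_coinc_le (hΛ : LamOK Λ h R) (ho : ∀ i b, o i = some b → 0 < h b) {H : ℝ} (hH : 0 < H)
    (hoH : ∀ i b, o i = some b → H ≤ h b) (φ ψ : Frm s) (hφ : ∀ i ∈ φ.1, o i ≠ none)
    (hψ : ∀ i ∈ ψ.1, o i ≠ none) (hne : φ.1 ≠ ψ.1) (a b : ℕ) :
    Pr Λ R o (fun x => val φ x + a = val ψ x + b) ≤ 1 / H := by
  have key : ∀ md : Fin 3, Prm Λ R md o (fun x => val φ x + a = val ψ x + b) ≤ 1 / H := by
    intro md
    have hsl : ∀ i k, o i = some k → 1 / ((Λ k md).card : ℝ) ≤ 1 / H := by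
      intro i k hk
      refine one_div_le_one_div_of_le hH ((hoH i k hk).trans ?_)
      exact_mod_cast hΛ.le_card k md
    rcases Point_exists_diff hne with ⟨i, hi1, hi2⟩ | ⟨i, hi1, hi2⟩
    · obtain ⟨k, hk⟩ := Option.ne_none_iff_exists'.1 (hφ i hi1)
      refine (Prm_det hΛ md ho i k hk _ ?_).trans (hsl i k hk)
      intro x y z h1 h2
      rw [val_update hi1, val_update_of_notMem hi2] at h1 h2
      omega
    · obtain ⟨k, hk⟩ := Option.ne_none_iff_exists'.1 (hψ i hi1)
      refine (Prm_det hΛ md ho i k hk _ ?_).trans (hsl i k hk)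
      intro x y z h1 h2
      rw [val_update hi1, val_update_of_notMem hi2] at h1 h2
      omega
  exact Point_Pr_le key

/-- Two forms with different nonempty sets of slots: both values are prescribed. Proof: let `j` be in
exactly one of the sets, say in `ψ.1` and not in `φ.1`, and `i ∈ φ.1`. `Prm_det_and` for the slot `j`
(`A` = the event for `ψ`, `B` = the event for `φ`, which does not depend on `j`), then `Prm_det` for
`φ` and `i`. -/
theorem Pr_two_le (hΛ : LamOK Λ h R) (ho : ∀ i b, o i = some b → 0 < h b) {H : ℝ} (hH : 0 < H)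
    (hoH : ∀ i b, o i = some b → H ≤ h b) (φ ψ : Frm s) (hφ : ∀ i ∈ φ.1, o i ≠ none)
    (hψ : ∀ i ∈ ψ.1, o i ≠ none) (hφ1 : φ.1.Nonempty) (hψ1 : ψ.1.Nonempty) (hne : φ.1 ≠ ψ.1)
    (a b : ℕ) : Pr Λ R o (fun x => val φ x = a ∧ val ψ x = b) ≤ (1 / H) ^ 2 := by
  have hdet : ∀ (md : Fin 3) (χ : Frm s) (i : Fin s) (k : Bool), i ∈ χ.1 → o i = some k →
      ∀ c : ℕ, Prm Λ R md o (fun x => val χ x = c) ≤ 1 / H := by
    intro md χ i k hi hk c
    refine (Prm_det hΛ md ho i k hk _ ?_).trans ?_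
    · intro x y z h1 h2
      rw [val_update hi] at h1 h2
      omega
    · refine one_div_le_one_div_of_le hH ((hoH i k hk).trans ?_)
      exact_mod_cast hΛ.le_card k md
  have hH0 : 0 ≤ 1 / H := by positivity
  have key : ∀ md : Fin 3, Prm Λ R md o (fun x => val φ x = a ∧ val ψ x = b) ≤ (1 / H) ^ 2 := by
    intro md
    have hsl : ∀ i k, o i = some k → 1 / ((Λ k md).card : ℝ) ≤ 1 / H := by
      intro i k hk
      refine one_div_le_one_div_of_le hH ((hoH i k hk).trans ?_)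
      exact_mod_cast hΛ.le_card k md
    rcases Point_exists_diff hne with ⟨j, hj1, hj2⟩ | ⟨j, hj1, hj2⟩
    · -- `j` in `φ`, not in `ψ`
      obtain ⟨k, hk⟩ := Option.ne_none_iff_exists'.1 (hφ j hj1)
      obtain ⟨i, hi⟩ := hψ1
      obtain ⟨l, hl⟩ := Option.ne_none_iff_exists'.1 (hψ i hi)
      refine (Prm_det_and hΛ md ho j k hk _ _ ?_ ?_).trans ?_
      · intro x y z h1 h2
        rw [val_update hj1] at h1 h2
        omega
      · intro x y
        rw [val_update_of_notMem hj2]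
      · rw [pow_two]
        exact mul_le_mul (hsl j k hk) (hdet md ψ i l hi hl b) (Prm_nonneg _ _) hH0
    · obtain ⟨k, hk⟩ := Option.ne_none_iff_exists'.1 (hψ j hj1)
      obtain ⟨i, hi⟩ := hφ1
      obtain ⟨l, hl⟩ := Option.ne_none_iff_exists'.1 (hφ i hi)
      have h1 := Prm_det_and hΛ md ho j k hk (fun x => val ψ x = b) (fun x => val φ x = a)
        (fun x y z h1 h2 => by
          rw [val_update hj1] at h1 h2
          omega) (fun x y => by rw [val_update_of_notMem hj2])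
      refine (Prm_mono md fun x hx => ⟨hx.2, hx.1⟩).trans (h1.trans ?_)
      rw [pow_two]
      exact mul_le_mul (hsl j k hk) (hdet md φ i l hi hl a) (Prm_nonneg _ _) hH0
  exact Point_Pr_le key

end Pool.Agent.AMA
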