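import Pool.Agent.AMA.Defs

/-!
# Parts theorem: the probability spaces
-/

set_option autoImplicit false

namespace Pool.Agent.AMA

open Finset
open Pool.Agent.AMB (pE)

variable {s : ℕ} {Λ : Bool → Fin 3 → Finset ℕ} {h : Bool → ℕ} {R : ℕ} {o : Fin s → Option Bool}

theorem LamOK.card_eq (hΛ : LamOK Λ h R) (k : Bool) (md : Fin 3) :
    (Λ k md).card = if md = 0 then 2 * h k else h k := by
  have hd : Disjoint (Λ k 1) (Λ k 2) := by
    rw [Finset.disjoint_left]
    intro a h1 h2
    exact lt_irrefl _ (hΛ.lt k a h1 a h2)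
  fin_cases md
  · show (Λ k 0).card = if (0 : Fin 3) = 0 then 2 * h k else h k
    rw [hΛ.union k, card_union_of_disjoint hd, hΛ.card1, hΛ.card2, if_pos rfl]
    ring
  · show (Λ k 1).card = _
    rw [hΛ.card1, if_neg (by decide)]
  · show (Λ k 2).card = _
    rw [hΛ.card2, if_neg (by decide)]

theorem LamOK.le_card (hΛ : LamOK Λ h R) (k : Bool) (md : Fin 3) : h k ≤ (Λ k md).card := by
  rw [hΛ.card_eq]
  split_ifs <;> omega

theorem LamOK.sub (hΛ : LamOK Λ h R) (k : Bool) (md : Fin 3) : Λ k md ⊆ Λ k 0 := by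
  fin_cases md
  · exact subset_rfl
  · show Λ k 1 ⊆ Λ k 0
    rw [hΛ.union k]
    exact subset_union_left
  · show Λ k 2 ⊆ Λ k 0
    rw [hΛ.union k]
    exact subset_union_right

theorem wl_nonneg (md : Fin 3) (k : Option Bool) (y : Fin (R + 1)) : 0 ≤ wl Λ R md k y := by
  cases k with
  | none =>
    simp only [wl]
    split_ifs <;> norm_num
  | some k =>
    simp only [wl]
    split_ifs
    · positivity
    · exact le_rfl

private theorem om_nonneg (md : Fin 3) : 0 ≤ om md := by
  unfold om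
  split_ifs <;> norm_num

private theorem om_sum : ∑ md, om md = 1 := by
  rw [Fin.sum_univ_three]
  unfold om
  rw [if_pos rfl, if_neg (by decide), if_neg (by decide)]
  norm_num

private theorem Prob_sum_ite (hΛ : LamOK Λ h R) (k : Bool) (S : Finset ℕ) (hS : S ⊆ Λ k 0)
    (c : ℝ) : ∑ y : Fin (R + 1), (if (y : ℕ) ∈ S then c else 0) = S.card * c := by
  rw [Fin.sum_univ_eq_sum_range (fun y => if y ∈ S then c else 0) (R + 1), sum_ite_mem,
    inter_eq_right.2, sum_const, nsmul_eq_mul]
  intro a ha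
  rw [mem_range]
  have := hΛ.le k a (hS ha)
  omega

private theorem wl_le (md : Fin 3) (k : Bool) (y : Fin (R + 1)) :
    wl Λ R md (some k) y ≤ 1 / ((Λ k md).card : ℝ) := by
  simp only [wl]
  split_ifs
  · exact le_rfl
  · positivity

theorem wl_sum (hΛ : LamOK Λ h R) (md : Fin 3) (k : Option Bool) (hk : ∀ b, k = some b → 0 < h b) :
    ∑ y, wl Λ R md k y = 1 := by
  cases k with
  | none =>
    have : ∀ y : Fin (R + 1), wl Λ R md none y = if y = 0 then 1 else 0 := by
      intro y
      simp only [wl]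
      congr 1
      rw [Fin.ext_iff]
      rfl
    rw [sum_congr rfl fun y _ => this y, sum_ite_eq' univ (0 : Fin (R + 1)), if_pos (mem_univ _)]
  | some k =>
    simp only [wl]
    rw [Prob_sum_ite hΛ k (Λ k md) (hΛ.sub k md)]
    have h1 := hk k rfl
    have h2 := hΛ.le_card k md
    have h3 : ((Λ k md).card : ℝ) ≠ 0 := by
      have : (0 : ℝ) < ((Λ k md).card : ℝ) := by exact_mod_cast (by omega : 0 < (Λ k md).card)
      exact this.ne'
    field_simp

theorem pr_nonneg (x : Fin s → Fin (R + 1)) : 0 ≤ pr Λ R o x := by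
  unfold pr
  exact sum_nonneg fun md _ => mul_nonneg (om_nonneg md) (prod_nonneg fun i _ => wl_nonneg md _ _)

/-- labels of positive probability belong to the label sets -/
theorem mem_of_pr_pos (hΛ : LamOK Λ h R) (x : Fin s → Fin (R + 1)) (hx : 0 < pr Λ R o x) (i : Fin s)
    (k : Bool) (hi : o i = some k) : (x i : ℕ) ∈ Λ k 0 := by
  by_contra hcon
  refine absurd hx (not_lt.2 (le_of_eq ?_))
  unfold pr
  refine sum_eq_zero fun md _ => ?_
  rw [prod_eq_zero (mem_univ i), mul_zero]
  rw [hi]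
  simp only [wl]
  rw [if_neg]
  intro h1
  exact hcon (hΛ.sub k md h1)

theorem Pr_eq (A : (Fin s → ℕ) → Prop) : Pr Λ R o A = ∑ md, om md * Prm Λ R md o A := by
  classical
  unfold Pr Prm pE
  have : ∀ md : Fin 3, om md * ∑ x : Fin s → Fin (R + 1), (∏ i, wl Λ R md (o i) (x i)) *
      (if A (fun i => (x i : ℕ)) then 1 else 0) = ∑ x : Fin s → Fin (R + 1),
        (if A (fun i => (x i : ℕ)) then om md * ∏ i, wl Λ R md (o i) (x i) else 0) := by
    intro md
    rw [mul_sum]
    refine sum_congr rfl fun x _ => ?_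
    split_ifs
    · ring
    · ring
  rw [sum_congr rfl fun md _ => this md, sum_comm]
  refine sum_congr rfl fun x _ => ?_
  split_ifs
  · rfl
  · rw [sum_const_zero]

theorem Prm_nonneg (md : Fin 3) (A : (Fin s → ℕ) → Prop) : 0 ≤ Prm Λ R md o A := by
  unfold Prm
  refine AMB.pE_nonneg (fun i a => wl_nonneg md _ _) fun x => ?_
  split_ifs <;> norm_num

theorem Pr_nonneg (A : (Fin s → ℕ) → Prop) : 0 ≤ Pr Λ R o A := by
  rw [Pr_eq]
  exact sum_nonneg fun md _ => mul_nonneg (om_nonneg md) (Prm_nonneg md A)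

theorem Prm_mono (md : Fin 3) {A B : (Fin s → ℕ) → Prop} (hAB : ∀ x, A x → B x) :
    Prm Λ R md o A ≤ Prm Λ R md o B := by
  unfold Prm
  refine AMB.pE_mono (fun i a => wl_nonneg md _ _) fun x => ?_
  by_cases h1 : A (fun i => (x i : ℕ))
  · rw [if_pos h1, if_pos (hAB _ h1)]
  · rw [if_neg h1]
    split_ifs <;> norm_num

theorem Pr_mono {A B : (Fin s → ℕ) → Prop} (hAB : ∀ x, A x → B x) :
    Pr Λ R o A ≤ Pr Λ R o B := by
  rw [Pr_eq, Pr_eq]
  exact sum_le_sum fun md _ => mul_le_mul_of_nonneg_left (Prm_mono md hAB) (om_nonneg md)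

theorem Pr_or_le (A B : (Fin s → ℕ) → Prop) :
    Pr Λ R o (fun x => A x ∨ B x) ≤ Pr Λ R o A + Pr Λ R o B := by
  unfold Pr
  rw [← sum_add_distrib]
  refine sum_le_sum fun x _ => ?_
  have h0 : 0 ≤ pr Λ R o x := pr_nonneg x
  by_cases h1 : A (fun i => (x i : ℕ)) <;> by_cases h2 : B (fun i => (x i : ℕ)) <;>
    simp [h1, h2, h0]

theorem Pr_exists_le {ι : Type*} (F : Finset ι) (A : ι → (Fin s → ℕ) → Prop) :
    Pr Λ R o (fun x => ∃ u ∈ F, A u x) ≤ ∑ u ∈ F, Pr Λ R o (A u) := by
  classical
  induction F using Finset.induction_on with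
  | empty =>
    rw [sum_empty]
    unfold Pr
    refine le_of_eq (sum_eq_zero fun x _ => ?_)
    rw [if_neg]
    rintro ⟨u, hu, _⟩
    exact absurd hu (notMem_empty u)
  | insert a F ha ih =>
    rw [sum_insert ha]
    refine le_trans (Pr_mono (B := fun x => A a x ∨ ∃ u ∈ F, A u x) ?_)
      ((Pr_or_le _ _).trans (add_le_add le_rfl ih))
    rintro x ⟨u, hu, hx⟩
    rcases mem_insert.1 hu with rfl | hu
    · exact Or.inl hx
    · exact Or.inr ⟨u, hu, hx⟩

theorem Prm_true (hΛ : LamOK Λ h R) (md : Fin 3) (ho : ∀ i b, o i = some b → 0 < h b) :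
    Prm Λ R md o (fun _ => True) = 1 := by
  unfold Prm
  have : (fun x : Fin s → Fin (R + 1) => (if True then (1 : ℝ) else 0)) = fun _ => 1 := by
    funext x
    rw [if_pos trivial]
  have h2 := AMB.pE_const (w := fun i => wl Λ R md (o i)) (fun i => wl_sum hΛ md (o i) (ho i)) 1
  simpa using h2

theorem Pr_true (hΛ : LamOK Λ h R) (ho : ∀ i b, o i = some b → 0 < h b) :
    Pr Λ R o (fun _ => True) = 1 := by
  rw [Pr_eq, sum_congr rfl fun md _ => by rw [Prm_true hΛ md ho, mul_one]]
  exact om_sum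

/-- complement -/
theorem Pr_not (hΛ : LamOK Λ h R) (ho : ∀ i b, o i = some b → 0 < h b)
    (A : (Fin s → ℕ) → Prop) : Pr Λ R o (fun x => ¬ A x) = 1 - Pr Λ R o A := by
  rw [← Pr_true (o := o) hΛ ho]
  unfold Pr
  rw [← sum_sub_distrib]
  refine sum_congr rfl fun x _ => ?_
  by_cases h1 : A (fun i => (x i : ℕ)) <;> simp [h1]

/-- `A` determines the label of the slot `i` (given the other labels), `B` does not depend on it.
Proof: `AMB.pE_coord` for the coordinate `i`: `Prm (A ∧ B) = ∑ a, wl a * pE (1_{A,B}(update x i a))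
= pE (1_B * ∑ a, wl a * 1_A(update x i a))`, and the inner sum is at most the largest weight, since at
most one `a` contributes. -/
theorem Prm_det_and (hΛ : LamOK Λ h R) (md : Fin 3) (ho : ∀ i b, o i = some b → 0 < h b)
    (i : Fin s) (k : Bool) (hi : o i = some k) (A B : (Fin s → ℕ) → Prop)
    (hA : ∀ x y z, A (Function.update x i y) → A (Function.update x i z) → y = z)
    (hB : ∀ x y, B (Function.update x i y) ↔ B x) :
    Prm Λ R md o (fun x => A x ∧ B x) ≤ 1 / ((Λ k md).card : ℝ) * Prm Λ R md o B := by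
  classical
  have hupd : ∀ (x : Fin s → Fin (R + 1)) (a : Fin (R + 1)),
      (fun j => ((Function.update x i a j : Fin (R + 1)) : ℕ)) =
        Function.update (fun j => (x j : ℕ)) i (a : ℕ) := by
    intro x a
    funext j
    by_cases hj : j = i
    · subst hj
      simp
    · simp [hj]
  set G : Fin (R + 1) → (Fin s → Fin (R + 1)) → ℝ := fun a x =>
    if A (Function.update (fun j => (x j : ℕ)) i (a : ℕ)) ∧ B (fun j => (x j : ℕ)) then 1 else 0
    with hG
  have e1 : Prm Λ R md o (fun x => A x ∧ B x) =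
      pE (fun i => wl Λ R md (o i)) (fun x => G (x i) x) := by
    unfold Prm
    congr 1
    funext x
    have : Function.update (fun j => (x j : ℕ)) i (x i : ℕ) = fun j => (x j : ℕ) :=
      Function.update_eq_self i (fun j => (x j : ℕ))
    rw [hG]
    simp only [this]
    congr
  have e2 := AMB.pE_coord (w := fun i => wl Λ R md (o i)) (fun i => wl_sum hΛ md (o i) (ho i)) i G
    (by
      intro a y b
      rw [hG]
      simp only [hupd, Function.update_idem]
      simp only [hB])
  rw [e1, e2]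
  have e3 : ∑ a, wl Λ R md (o i) a * pE (fun i => wl Λ R md (o i)) (G a) =
      pE (fun i => wl Λ R md (o i)) (fun x => ∑ a, wl Λ R md (o i) a * G a x) := by
    rw [AMB.pE_sum]
    exact sum_congr rfl fun a _ => by rw [AMB.pE_mul_left]
  rw [e3]
  unfold Prm
  rw [← AMB.pE_mul_left]
  refine AMB.pE_mono (fun i a => wl_nonneg md _ _) fun x => ?_
  have hc0 : 0 ≤ 1 / ((Λ k md).card : ℝ) := by positivity
  by_cases hBx : B (fun j => (x j : ℕ))
  · rw [if_pos hBx, mul_one]
    by_cases hex : ∃ a : Fin (R + 1), A (Function.update (fun j => (x j : ℕ)) i (a : ℕ))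
    · obtain ⟨a, ha⟩ := hex
      rw [sum_eq_single a]
      · have h1 : G a x ≤ 1 := by
          rw [hG]
          simp only
          split_ifs <;> norm_num
        have h2 : 0 ≤ G a x := by
          rw [hG]
          simp only
          split_ifs <;> norm_num
        rw [hi]
        calc wl Λ R md (some k) a * G a x ≤ 1 / ((Λ k md).card : ℝ) * 1 :=
              mul_le_mul (wl_le md k a) h1 h2 hc0
          _ = _ := mul_one _
      · intro b _ hb
        have : G b x = 0 := by
          rw [hG]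
          simp only
          rw [if_neg]
          rintro ⟨hb', _⟩
          exact hb (Fin.ext (hA _ _ _ hb' ha))
        rw [this, mul_zero]
      · intro h1
        exact absurd (mem_univ a) h1
    · refine le_trans (le_of_eq (sum_eq_zero fun a _ => ?_)) hc0
      have : G a x = 0 := by
        rw [hG]
        simp only
        rw [if_neg]
        rintro ⟨ha, _⟩
        exact hex ⟨a, ha⟩
      rw [this, mul_zero]
  · rw [if_neg hBx, mul_zero]
    refine le_of_eq (sum_eq_zero fun a _ => ?_)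
    have : G a x = 0 := by
      rw [hG]
      simp only
      rw [if_neg]
      rintro ⟨_, h2⟩
      exact hBx h2
    rw [this, mul_zero]

theorem Prm_det (hΛ : LamOK Λ h R) (md : Fin 3) (ho : ∀ i b, o i = some b → 0 < h b)
    (i : Fin s) (k : Bool) (hi : o i = some k) (A : (Fin s → ℕ) → Prop)
    (hA : ∀ x y z, A (Function.update x i y) → A (Function.update x i z) → y = z) :
    Prm Λ R md o A ≤ 1 / ((Λ k md).card : ℝ) := by
  have h1 := Prm_det_and hΛ md ho i k hi A (fun _ => True) hA (fun _ _ => Iff.rfl)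
  rw [Prm_true hΛ md ho, mul_one] at h1
  refine le_trans (Prm_mono md ?_) h1
  intro x hx
  exact ⟨hx, trivial⟩

/-- one slot: a window of at least half of `h k` labels has probability at least `1/8`: mode `0` has
probability `1/2` and there the label is uniform on `Λ k 0`, `card = 2 h k`. -/
theorem Pr_window (hΛ : LamOK Λ h R) (ho : ∀ i b, o i = some b → 0 < h b) (i : Fin s) (k : Bool)
    (hi : o i = some k) (W : Finset ℕ) (hW : W ⊆ Λ k 0) (hc : h k ≤ 2 * W.card) :
    1 / 8 ≤ Pr Λ R o (fun x => x i ∈ W) := by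
  classical
  have hh := ho i k hi
  rw [Pr_eq]
  have e0 : om 0 * Prm Λ R 0 o (fun x => x i ∈ W) ≤
      ∑ md, om md * Prm Λ R md o (fun x => x i ∈ W) :=
    single_le_sum (f := fun md => om md * Prm Λ R md o (fun x => x i ∈ W))
      (fun md _ => mul_nonneg (om_nonneg md) (Prm_nonneg md _)) (mem_univ 0)
  refine le_trans ?_ e0
  set G : Fin (R + 1) → (Fin s → Fin (R + 1)) → ℝ := fun a _ =>
    if (a : ℕ) ∈ W then 1 else 0 with hG
  have e1 : Prm Λ R 0 o (fun x => x i ∈ W) =
      pE (fun i => wl Λ R 0 (o i)) (fun x => G (x i) x) := by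
    unfold Prm
    congr 1
    funext x
    rw [hG]
    simp only
    congr
  have e2 := AMB.pE_coord (w := fun i => wl Λ R 0 (o i)) (fun i => wl_sum hΛ 0 (o i) (ho i)) i G
    (fun a y b => rfl)
  rw [e1, e2]
  have e3 : ∀ a : Fin (R + 1), wl Λ R 0 (o i) a * pE (fun i => wl Λ R 0 (o i)) (G a) =
      if (a : ℕ) ∈ W then 1 / ((Λ k 0).card : ℝ) else 0 := by
    intro a
    rw [hG]
    simp only
    rw [AMB.pE_const (fun i => wl_sum hΛ 0 (o i) (ho i)), hi]
    simp only [wl]
    by_cases h1 : (a : ℕ) ∈ W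
    · rw [if_pos h1, if_pos h1, if_pos (hW h1), mul_one]
    · rw [if_neg h1, if_neg h1, mul_zero]
  rw [sum_congr rfl fun a _ => e3 a, Prob_sum_ite hΛ k W hW, hΛ.card_eq, if_pos rfl]
  unfold om
  rw [if_pos rfl]
  have h2 : (0 : ℝ) < h k := by exact_mod_cast hh
  have h3 : (h k : ℝ) ≤ 2 * W.card := by exact_mod_cast hc
  push_cast
  rw [mul_one_div, one_div_mul_eq_div, div_div, div_le_div_iff₀ (by norm_num) (by positivity)]
  linarith

end Pool.Agent.AMA
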