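import Pool.Agent.AMA.AdmB

/-!
# Parts theorem: the tests

A test is given by the label `y` to be put on a gadget edge, two partial sums `π1, π2` and the slot
`k` of the gadget.
-/

set_option autoImplicit false
set_option linter.unusedSectionVars false

namespace Pool.Agent.AMA

open Finset
open Pool.Agent.MP9a04dc (deg codeg Good)

section

variable {P : Type} {s : ℕ}

/-- no coincidences: the window, different ends, different new values, and no new value is a sum of the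
part -/
def TA (σ : PSys P s) (Win : Bool → Finset ℕ) (p : ℕ) (Q : P) (y π1 π2 : ℕ) (k : Fin s)
    (x : Fin s → ℕ) : Prop :=
  ∃ g ∈ σ.Gd Q, g.1 = k ∧ (∀ b, σ.kd Q k = some b → x k ∈ Win b) ∧
    (∀ β ∈ g.2, ∀ β' ∈ g.2, val β x % p = val β' x % p → β = β') ∧
    (∀ β ∈ g.2, (π1 + x k) % p ≠ (val β x + y) % p ∧ (π2 + x k) % p ≠ (val β x + y) % p) ∧
    (∀ φ ∈ σ.S Q, (∀ β ∈ g.2, (val β x + y) % p ≠ val φ x % p) ∧
      (π1 + x k) % p ≠ val φ x % p ∧ (π2 + x k) % p ≠ val φ x % p)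

/-- the new values -/
def TP (σ : PSys P s) (p : ℕ) (Q : P) (y π1 π2 : ℕ) (k : Fin s) (x : Fin s → ℕ) (a : ℕ) : Prop :=
  (∃ g ∈ σ.Gd Q, g.1 = k ∧ ∃ β ∈ g.2, (val β x + y) % p = a) ∨ (π1 + x k) % p = a ∨
    (π2 + x k) % p = a

/-- index type of the tests -/
abbrev TJ (s p : ℕ) := Fin p × Fin p × Fin p × Fin s

variable [Fintype P] [DecidableEq P]

open Classical in
/-- the hyperedges of a test -/
noncomputable def tA (σ : PSys P s) (Win : Bool → Finset ℕ) (R p : ℕ) (j : TJ s p) :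
    Finset (HE P s R) :=
  univ.filter fun e => TA σ Win p e.1 j.1 j.2.1 j.2.2.1 j.2.2.2 (lb e)

open Classical in
/-- the positions of a test -/
noncomputable def tP (σ : PSys P s) (R p : ℕ) (j : TJ s p) (e : HE P s R) :
    Finset (HV P p) :=
  (univ.filter fun v : Fin 4 × Fin p =>
    v.1 = 1 ∧ TP σ p e.1 j.1 j.2.1 j.2.2.1 j.2.2.2 (lb e) v.2).image Sum.inr

/-- the sums -/
def OmH (P : Type) [Fintype P] [DecidableEq P] (p : ℕ) : Finset (HV P p) :=
  (univ.filter fun v : Fin 4 × Fin p => v.1 = 1).image Sum.inr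

variable {σ : PSys P s} {Λ : Bool → Fin 3 → Finset ℕ} {h : Bool → ℕ} {R p N k0 B : ℕ}
  {c1 C1 ν ν' : ℝ} {Sp : P → Finset (Frm s)} {Win : Bool → Finset ℕ}

private lemma Tests_c1pos (hN : 0 < c1 * N) : 0 < c1 := by
  by_contra hc
  have h1 : c1 ≤ 0 := not_lt.1 hc
  have h2 := mul_nonpos_of_nonpos_of_nonneg h1 (Nat.cast_nonneg (α := ℝ) N)
  linarith

private lemma Tests_cf_one {Q : P} {u : Fin 4 × Frm s} (hu : u ∈ σ.cf Q) (h1 : u.1 = 1) :
    u.2 ∈ σ.S Q := by
  unfold PSys.cf at hu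
  rcases mem_union.1 hu with hu | hu
  · rcases mem_union.1 hu with hu | hu
    · obtain ⟨i, _, rfl⟩ := mem_image.1 hu
      exact absurd h1 (by simp)
    · obtain ⟨φ, hφ, rfl⟩ := mem_image.1 hu
      exact hφ
  · obtain ⟨β, _, rfl⟩ := mem_image.1 hu
    exfalso
    revert h1
    show σ.tg Q β = 1 → False
    unfold PSys.tg
    split_ifs
    · intro h2; exact absurd h2 (by decide)
    · intro h2; exact absurd h2 (by decide)

/-- positivity of the sizes of the occurring kinds -/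
private lemma Tests_ho (H : PSOK σ Λ h R p N k0 B c1 C1 ν ν' Sp Win) (hN : 0 < c1 * N) (Q : P) :
    ∀ i b, σ.kd Q i = some b → 0 < h b := by
  intro i b hi
  have h1 := H.hlow b ⟨Q, i, hi⟩
  have h2 : (0:ℝ) < h b := lt_of_lt_of_le hN h1
  exact_mod_cast h2

private lemma Tests_hoH (H : PSOK σ Λ h R p N k0 B c1 C1 ν ν' Sp Win) (Q : P) :
    ∀ i b, σ.kd Q i = some b → c1 * N ≤ h b := fun i b hi => H.hlow b ⟨Q, i, hi⟩

private lemma Tests_Pr_le_one (H : PSOK σ Λ h R p N k0 B c1 C1 ν ν' Sp Win) (hN : 0 < c1 * N)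
    (Q : P) (A : (Fin s → ℕ) → Prop) : Pr Λ R (σ.kd Q) A ≤ 1 := by
  rw [← Pr_true H.lam (Tests_ho H hN Q)]
  exact Pr_mono fun _ _ => trivial

private lemma Tests_Pr_false {o : Fin s → Option Bool} (A : (Fin s → ℕ) → Prop)
    (hA : ∀ x, ¬ A x) : Pr Λ R o A = 0 := by
  classical
  unfold Pr
  refine sum_eq_zero fun x _ => ?_
  rw [if_neg (hA _)]

private lemma Tests_gact (H : PSOK σ Λ h R p N k0 B c1 C1 ν ν' Sp Win) {Q : P}
    {g : Fin s × Finset (Frm s)} (hg : g ∈ σ.Gd Q) {β : Frm s} (hβ : β ∈ g.2) :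
    ∀ i ∈ β.1, σ.kd Q i ≠ none := fun i hi =>
  H.S_act Q _ (H.G_S Q g hg β hβ) i (mem_insert_of_mem hi)

/-- a single slot -/
private lemma Tests_val_single (k : Fin s) (q : ℕ) (x : Fin s → ℕ) :
    val (({k} : Finset (Fin s)), q) x = q + x k := by
  simp [val]

/-- weight of a set of hyperedges given by events -/
private lemma Tests_sum_wH_le (A : P → (Fin s → ℕ) → Prop) (F : Finset (HE P s R))
    (hF : ∀ e ∈ F, A e.1 (lb e)) :
    ∑ e ∈ F, wH σ Λ R p e ≤ ∑ Q, Pr Λ R (σ.kd Q) (A Q) := by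
  classical
  have h1 : ∀ e ∈ F, wH σ Λ R p e ≤ if A e.1 (lb e) then pr Λ R (σ.kd e.1) e.2 else 0 := by
    intro e he
    rw [if_pos (hF e he)]
    unfold wH
    split_ifs
    · exact le_rfl
    · exact pr_nonneg _
  refine (sum_le_sum h1).trans ?_
  refine (sum_le_sum_of_subset_of_nonneg (subset_univ F) ?_).trans ?_
  · intro e _ _
    split_ifs
    · exact pr_nonneg _
    · exact le_rfl
  · rw [Fintype.sum_prod_type]
    refine le_of_eq (sum_congr rfl fun Q _ => ?_)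
    unfold Pr
    refine sum_congr rfl fun x _ => ?_
    exact if_congr Iff.rfl rfl rfl

private lemma Tests_res {p v y a : ℕ} (h : (v + y) % p = a) :
    v % p = ((a : ZMod p) - (y : ZMod p)).val := by
  have h1 : ((v + y : ℕ) : ZMod p) = (a : ZMod p) := by
    rw [← h, ZMod.natCast_mod]
  push_cast at h1
  rw [← h1, add_sub_cancel_right, ZMod.val_natCast]

private lemma Tests_cancel {p A B S y : ℕ} (h : (A + S + y) % p = (B + S) % p) :
    B % p = (A + y) % p := by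
  have h1 := (ZMod.natCast_eq_natCast_iff' _ _ _).2 h
  rw [← ZMod.natCast_eq_natCast_iff']
  push_cast at h1 ⊢
  linear_combination -h1

theorem tP_sub (j : TJ s p) (e : HE P s R) : tP σ R p j e ⊆ OmH P p := by
  classical
  unfold tP OmH
  refine image_subset_image ?_
  intro v hv
  rw [mem_filter] at hv ⊢
  exact ⟨hv.1, hv.2.1⟩

theorem tP_card (H : PSOK σ Λ h R p N k0 B c1 C1 ν ν' Sp Win) (j : TJ s p) (e : HE P s R)
    (he : e ∈ tA σ Win R p j) : (tP σ R p j e).card ≤ 4 := by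
  classical
  obtain ⟨g, hg, hgk, -⟩ := (mem_filter.1 he).2
  unfold tP
  refine card_image_le.trans ?_
  have h1 : ((g.2.image fun β => (val β (lb e) + (j.1 : ℕ)) % p) ∪
      {((j.2.1 : ℕ) + lb e j.2.2.2) % p, ((j.2.2.1 : ℕ) + lb e j.2.2.2) % p} : Finset ℕ).card ≤
      4 := by
    refine (card_union_le _ _).trans ?_
    have h2 : (g.2.image fun β => (val β (lb e) + (j.1 : ℕ)) % p).card ≤ 2 :=
      card_image_le.trans (H.G_card _ g hg).2
    have h3 : ({((j.2.1 : ℕ) + lb e j.2.2.2) % p, ((j.2.2.1 : ℕ) + lb e j.2.2.2) % p} :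
      Finset ℕ).card ≤ 2 := card_le_two
    omega
  refine le_trans ?_ h1
  refine card_le_card_of_injOn (fun v => (v.2 : ℕ)) ?_ ?_
  · intro v hv
    have hv' := (mem_filter.1 (mem_coe.1 hv)).2
    rw [mem_coe, mem_union]
    rcases hv'.2 with ⟨g', hg', hgk', β, hβ, h4⟩ | h4 | h4
    · left
      have h5 : g' = g := H.G_uniq _ g' hg' g hg (hgk'.trans hgk.symm)
      rw [h5] at hβ
      exact mem_image.2 ⟨β, hβ, h4⟩
    · right
      rw [mem_insert]
      left
      exact h4.symm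
    · right
      rw [mem_insert, mem_singleton]
      right
      exact h4.symm
  · intro v hv w hw hvw
    have hv' := (mem_filter.1 (mem_coe.1 hv)).2
    have hw' := (mem_filter.1 (mem_coe.1 hw)).2
    refine Prod.ext (hv'.1.trans hw'.1.symm) (Fin.ext hvw)

theorem tP_disj (H : PSOK σ Λ h R p N k0 B c1 C1 ν ν' Sp Win) (j : TJ s p) (e : HE P s R)
    (he : e ∈ tA σ Win R p j) : Disjoint (tP σ R p j e) (vsH σ R p e) := by
  classical
  obtain ⟨g, hg, hgk, -, -, -, hS⟩ := (mem_filter.1 he).2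
  rw [Finset.disjoint_left]
  intro v hv hv'
  obtain ⟨w, hw, rfl⟩ := mem_image.1 hv
  obtain ⟨t, a⟩ := w
  have hw' := (mem_filter.1 hw).2
  obtain ⟨u, hu, hut, hua⟩ := mem_vsH_inr.1 hv'
  have ht : t = 1 := hw'.1
  have huS := Tests_cf_one hu (hut.trans ht)
  obtain ⟨h1, h2, h3⟩ := hS u.2 huS
  rcases hw'.2 with ⟨g', hg', hgk', β, hβ, h4⟩ | h4 | h4
  · have h5 : g' = g := H.G_uniq _ g' hg' g hg (hgk'.trans hgk.symm)
    rw [h5] at hβ
    exact h1 β hβ (h4.trans hua.symm)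
  · exact h2 (h4.trans hua.symm)
  · exact h3 (h4.trans hua.symm)

/-- one part -/
private lemma Tests_codeg_part (H : PSOK σ Λ h R p N k0 B c1 C1 ν ν' Sp Win) (hN : 0 < c1 * N)
    (Q : P) (y π1 π2 : ℕ) (k : Fin s) (a : ℕ) :
    Pr Λ R (σ.kd Q) (fun x => TA σ Win p Q y π1 π2 k x ∧ TP σ p Q y π1 π2 k x a) ≤
      2 / (c1 * N) + ∑ g ∈ σ.Gd Q,
          (((g.2.filter fun β => β.1 = ∅ ∧
            β.2 = ((a : ZMod p) - (y : ZMod p)).val).card : ℕ) : ℝ) := by
  classical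
  set r : ℕ := ((a : ZMod p) - (y : ZMod p)).val with hr
  have hc : (0:ℝ) ≤ ∑ g ∈ σ.Gd Q,
          (((g.2.filter fun β => β.1 = ∅ ∧ β.2 = r).card : ℕ) : ℝ) := by
    positivity
  by_cases hgQ : ∃ g ∈ σ.Gd Q, g.1 = k
  swap
  · rw [Tests_Pr_false]
    · exact add_nonneg (by positivity) hc
    · rintro x ⟨⟨g, hg, hgk, _⟩, _⟩
      exact hgQ ⟨g, hg, hgk⟩
  obtain ⟨g, hg, hgk⟩ := hgQ
  have ho := Tests_ho H hN Q
  have hoH := Tests_hoH H Q
  obtain ⟨b, hb⟩ : ∃ b, σ.kd Q k = some b := by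
    have := H.G_act Q g hg
    rw [hgk] at this
    exact Option.ne_none_iff_exists'.1 this
  -- the slot itself
  have hslot : ∀ q : ℕ, Pr Λ R (σ.kd Q) (fun x => (q + x k) % p = a) ≤ 1 / (2 * (c1 * N)) := by
    intro q
    have h1 := Pr_val_mod_le H.lam ho H.sRp (({k} : Finset (Fin s)), q) (by
      intro i hi
      rw [mem_singleton] at hi
      rw [hi, hb]
      exact Option.some_ne_none b) k (mem_singleton_self k) b hb a
    simp only [Tests_val_single] at h1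
    refine h1.trans ?_
    have h2 := hoH k b hb
    gcongr
  -- the ends
  have hend : ∀ β ∈ g.2, Pr Λ R (σ.kd Q) (fun x => (val β x + y) % p = a) ≤ 1 / (2 * (c1 * N)) +
      if β.1 = ∅ ∧ β.2 = r then 1 else 0 := by
    intro β hβ
    have hi0 : (0:ℝ) ≤ if β.1 = ∅ ∧ β.2 = r then 1 else 0 := by
      split_ifs <;> norm_num
    have hp0 : (0:ℝ) ≤ 1 / (2 * (c1 * N)) := by positivity
    by_cases hne : β.1 = ∅
    · have hv : ∀ x : Fin s → ℕ, val β x = β.2 := by
        intro x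
        simp [val, hne]
      have hlt : β.2 < p := H.S_lt Q (insert g.1 β.1, β.2) (H.G_S Q g hg β hβ)
      by_cases he : β.2 = r
      · rw [if_pos ⟨hne, he⟩]
        have := Tests_Pr_le_one H hN Q (fun x => (val β x + y) % p = a)
        linarith
      · rw [Tests_Pr_false _ (fun x hx => by
          rw [hv x] at hx
          have h1 := Tests_res hx
          rw [Nat.mod_eq_of_lt hlt] at h1
          exact he h1)]
        linarith
    · obtain ⟨i, hi⟩ := nonempty_iff_ne_empty.2 hne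
      have hact := Tests_gact H hg hβ
      obtain ⟨b', hb'⟩ := Option.ne_none_iff_exists'.1 (hact i hi)
      have h1 := Pr_val_mod_le H.lam ho H.sRp β hact i hi b' hb' r
      have h2 : Pr Λ R (σ.kd Q) (fun x => (val β x + y) % p = a) ≤
          Pr Λ R (σ.kd Q) (fun x => val β x % p = r) := Pr_mono fun x hx => Tests_res hx
      have h3 : (1:ℝ) / (2 * (h b' : ℝ)) ≤ 1 / (2 * (c1 * N)) := by
        have h2 := hoH i b' hb'
        gcongr
      linarith
  have hsub : Pr Λ R (σ.kd Q) (fun x => TA σ Win p Q y π1 π2 k x ∧ TP σ p Q y π1 π2 k x a) ≤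
      Pr Λ R (σ.kd Q) (fun x => (∃ β ∈ g.2, (val β x + y) % p = a) ∨
        ((π1 + x k) % p = a ∨ (π2 + x k) % p = a)) := by
    refine Pr_mono fun x hx => ?_
    rcases hx.2 with ⟨g', hg', hgk', β, hβ, h4⟩ | h4 | h4
    · left
      have h5 : g' = g := H.G_uniq _ g' hg' g hg (hgk'.trans hgk.symm)
      rw [h5] at hβ
      exact ⟨β, hβ, h4⟩
    · exact Or.inr (Or.inl h4)
    · exact Or.inr (Or.inr h4)
  have h1 := Pr_or_le (Λ := Λ) (R := R) (o := σ.kd Q) (fun x => ∃ β ∈ g.2, (val β x + y) % p = a)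
    (fun x => (π1 + x k) % p = a ∨ (π2 + x k) % p = a)
  have h2 := Pr_or_le (Λ := Λ) (R := R) (o := σ.kd Q) (fun x => (π1 + x k) % p = a)
    (fun x => (π2 + x k) % p = a)
  have h3 := Pr_exists_le (Λ := Λ) (R := R) (o := σ.kd Q) g.2 (fun β x => (val β x + y) % p = a)
  have h4 := sum_le_sum hend
  rw [sum_add_distrib, sum_const, nsmul_eq_mul] at h4
  have h5 : ((g.2.card : ℕ) : ℝ) * (1 / (2 * (c1 * N))) ≤ 2 * (1 / (2 * (c1 * N))) := by
    have : ((g.2.card : ℕ) : ℝ) ≤ 2 := by exact_mod_cast (H.G_card Q g hg).2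
    gcongr
  have h6 : ∑ β ∈ g.2, (if β.1 = ∅ ∧ β.2 = r then (1:ℝ) else 0) ≤
      ∑ g ∈ σ.Gd Q, (((g.2.filter fun β => β.1 = ∅ ∧ β.2 = r).card : ℕ) : ℝ) := by
    have h7 : ∑ β ∈ g.2, (if β.1 = ∅ ∧ β.2 = r then (1:ℝ) else 0) =
        (((g.2.filter fun β => β.1 = ∅ ∧ β.2 = r).card : ℕ) : ℝ) := by
      rw [← sum_boole]
    rw [h7]
    obtain ⟨F, hF⟩ : ∃ F : Fin s × Finset (Frm s) → ℕ, ∀ g,
        (g.2.filter fun β => β.1 = ∅ ∧ β.2 = r).card = F g := ⟨_, fun _ => rfl⟩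
    simp only [hF]
    have h8 : F g ≤ ∑ g ∈ σ.Gd Q, F g := single_le_sum (fun _ _ => Nat.zero_le _) hg
    exact_mod_cast h8
  have h8 := hslot π1
  have h9 := hslot π2
  have h10 : 2 * (1 / (2 * (c1 * N))) + 1 / (2 * (c1 * N)) + 1 / (2 * (c1 * N)) = 2 / (c1 * N) := by
    ring
  linarith

/-- weight of the hyperedges of a test having a given position `v = inr (1, a)` (else the sum is `0`).
Proof: only parts with a (unique) gadget `g` with slot `k` contribute. `wH ≤ pr`, union bound: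
`val β + y = a` (all equations modulo `p`) for the at most two `β ∈ g.2`: if `β.1 ≠ ∅` then probability `≤ 1/(2h) ≤ 1/(2 c1 N)`
(`Pr_val_mod_le`); if `β.1 = ∅` then `val β = β.2 < p`, and the number of parts with `β.2 = a - y` is at
most `B` by `m2`; `π1 + x k = a`, `π2 + x k = a`: `≤ 1/(2 c1 N)` each. Total `≤ N * 4/(2 c1 N) + B`. -/
theorem tP_codeg (H : PSOK σ Λ h R p N k0 B c1 C1 ν ν' Sp Win) (hN : 0 < c1 * N)
    (j : TJ s p) (v : HV P p) :
    ∑ e ∈ (tA σ Win R p j).filter (fun e => v ∈ tP σ R p j e), wH σ Λ R p e ≤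
      4 / c1 + B := by
  classical
  have hc1 := Tests_c1pos hN
  have hRHS : 0 ≤ 4 / c1 + (B:ℝ) := by positivity
  rcases v with Q0 | ⟨t, a⟩
  · refine le_trans (le_of_eq (sum_eq_zero fun e he => ?_)) hRHS
    exfalso
    obtain ⟨w, _, hw⟩ := mem_image.1 (mem_filter.1 he).2
    exact absurd hw (by simp)
  · set y : ℕ := (j.1 : ℕ) with hy
    set π1 : ℕ := (j.2.1 : ℕ) with hπ1
    set π2 : ℕ := (j.2.2.1 : ℕ) with hπ2
    set k : Fin s := j.2.2.2 with hk
    refine (Tests_sum_wH_le (fun Q x => TA σ Win p Q y π1 π2 k x ∧ TP σ p Q y π1 π2 k x a) _ ?_).trans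
      ?_
    · intro e he
      obtain ⟨he1, he2⟩ := mem_filter.1 he
      refine ⟨(mem_filter.1 he1).2, ?_⟩
      obtain ⟨w, hw, hwa⟩ := mem_image.1 he2
      have hw' := (mem_filter.1 hw).2
      have h1 : w = (t, a) := Sum.inr_injective hwa
      have h2 := hw'.2
      rw [h1] at h2
      exact h2
    · refine (sum_le_sum fun Q _ => Tests_codeg_part H hN Q y π1 π2 k a).trans ?_
      rw [sum_add_distrib, sum_const, nsmul_eq_mul]
      have hN0 : (0:ℝ) < N := by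
        rcases (Nat.cast_nonneg (α := ℝ) N).lt_or_eq with h1 | h1
        · exact h1
        · rw [← h1, mul_zero] at hN
          exact absurd hN (lt_irrefl 0)
      have h1 : ((univ : Finset P).card : ℝ) ≤ N := by
        rw [card_univ]
        exact_mod_cast H.cardP
      have h2 : ((univ : Finset P).card : ℝ) * (2 / (c1 * N)) ≤ 4 / c1 := by
        calc ((univ : Finset P).card : ℝ) * (2 / (c1 * N)) ≤ N * (2 / (c1 * N)) := by
              gcongr
          _ = 2 / c1 := by field_simp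
          _ ≤ 4 / c1 := by gcongr; norm_num
      have h3 : ∑ Q : P, ∑ g ∈ σ.Gd Q, (((g.2.filter fun β => β.1 = ∅ ∧
          β.2 = (((a : ℕ) : ZMod p) - (y : ZMod p)).val).card : ℕ) : ℝ) ≤ B := by
        have h4 := H.m2 ((((a : ℕ) : ZMod p) - (y : ZMod p)).val)
        exact_mod_cast h4
      linarith

/-- one part -/
private lemma Tests_coinc_part (H : PSOK σ Λ h R p N k0 B c1 C1 ν ν' Sp Win) (hN : 0 < c1 * N)
    (y π1 π2 : ℕ) (k : Fin s) (Q : P) (hgQ : ∃ g ∈ σ.Gd Q, g.1 = k) :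
    1 / 8 - Pr Λ R (σ.kd Q) (TA σ Win p Q y π1 π2 k) ≤ (6 + 4 * s) / (c1 * N) +
      ((((σ.S Q) ×ˢ (σ.Bf Q)).filter fun u =>
        u.1.1 = u.2.1 ∧ u.1.2 % p = (u.2.2 + y) % p).card : ℝ) +
      (((σ.S Q).filter fun φ => φ.1.card = 1 ∧ φ.2 = (σ.z + y) % p).card : ℝ) +
      (((σ.S Q).filter fun φ => φ.1.card = 1 ∧ φ.2 = π1 % p).card : ℝ) +
      (((σ.S Q).filter fun φ => φ.1.card = 1 ∧ φ.2 = π2 % p).card : ℝ) := by
  classical
  obtain ⟨g, hg, hgk⟩ := hgQ
  have ho := Tests_ho H hN Q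
  have hoH := Tests_hoH H Q
  set K : ℝ := 1 / (c1 * N) with hK
  have hK0 : 0 ≤ K := by positivity
  obtain ⟨b, hb⟩ : ∃ b, σ.kd Q k = some b := by
    have := H.G_act Q g hg
    rw [hgk] at this
    exact Option.ne_none_iff_exists'.1 this
  have hkact : ∀ q : ℕ, ∀ i ∈ (({k} : Finset (Fin s)), q).1, σ.kd Q i ≠ none := by
    intro q i hi
    rw [mem_singleton] at hi
    rw [hi, hb]
    exact Option.some_ne_none b
  have hc2 : ((g.2.card : ℕ) : ℝ) ≤ 2 := by exact_mod_cast (H.G_card Q g hg).2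
  have hcS : (((σ.S Q).card : ℕ) : ℝ) ≤ s := by exact_mod_cast H.S_card Q
  -- window
  have hwin : 1 / 8 ≤ Pr Λ R (σ.kd Q) (fun x => x k ∈ Win b) :=
    Pr_window H.lam ho k b hb (Win b) (H.W_sub b) (H.W_card b)
  -- bad events
  have hA : Pr Λ R (σ.kd Q) (fun x => ∃ u ∈ g.2.offDiag, val u.1 x % p = val u.2 x % p) ≤ 2 * K := by
    refine (Pr_exists_le _ _).trans ?_
    have h1 : ∀ u ∈ g.2.offDiag, Pr Λ R (σ.kd Q) (fun x => val u.1 x % p = val u.2 x % p) ≤ K := by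
      intro u hp
      rw [mem_offDiag] at hp
      have h2 := Pr_coinc_mod_le H.lam ho hN hoH H.Rp u.1 u.2 (Tests_gact H hg hp.1)
        (Tests_gact H hg hp.2.1) (fun h3 => hp.2.2 (H.G_ne Q g hg u.1 hp.1 u.2 hp.2.1 h3)) 0 0
      simpa only [add_zero] using h2
    refine (sum_le_card_nsmul _ _ _ h1).trans ?_
    rw [nsmul_eq_mul]
    have h3 : ((g.2.offDiag.card : ℕ) : ℝ) ≤ 2 := by
      have h4 := (H.G_card Q g hg).2
      have h5 : g.2.offDiag.card ≤ 2 := by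
        rw [offDiag_card]
        interval_cases g.2.card <;> omega
      exact_mod_cast h5
    gcongr
  have hB : ∀ q : ℕ, Pr Λ R (σ.kd Q) (fun x => ∃ β ∈ g.2, (q + x k) % p = (val β x + y) % p) ≤
      2 * K := by
    intro q
    refine (Pr_exists_le _ _).trans ?_
    have h1 : ∀ β ∈ g.2, Pr Λ R (σ.kd Q) (fun x => (q + x k) % p = (val β x + y) % p) ≤ K := by
      intro β hβ
      have hne : (({k} : Finset (Fin s)), q).1 ≠ β.1 := by
        intro h3
        apply H.G_notin Q g hg β hβ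
        rw [← h3, hgk]
        exact mem_singleton_self k
      have h2 := Pr_coinc_mod_le H.lam ho hN hoH H.Rp (({k} : Finset (Fin s)), q) β (hkact q)
        (Tests_gact H hg hβ) hne 0 y
      simpa only [Tests_val_single, add_zero] using h2
    refine (sum_le_card_nsmul _ _ _ h1).trans ?_
    rw [nsmul_eq_mul]
    gcongr
  have hD : ∀ q : ℕ, Pr Λ R (σ.kd Q) (fun x => ∃ φ ∈ σ.S Q, (q + x k) % p = val φ x % p) ≤
      s * K + (((σ.S Q).filter fun φ => φ.1.card = 1 ∧ φ.2 = q % p).card : ℝ) := by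
    intro q
    refine (Pr_exists_le _ _).trans ?_
    have h1 : ∀ φ ∈ σ.S Q, Pr Λ R (σ.kd Q) (fun x => (q + x k) % p = val φ x % p) ≤ K +
        if φ.1.card = 1 ∧ φ.2 = q % p then 1 else 0 := by
      intro φ hφ
      have hi0 : (0:ℝ) ≤ if φ.1.card = 1 ∧ φ.2 = q % p then 1 else 0 := by
        split_ifs <;> norm_num
      by_cases hne : ({k} : Finset (Fin s)) = φ.1
      · have hv : ∀ x : Fin s → ℕ, val φ x = φ.2 + x k := by
          intro x
          unfold val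
          rw [← hne, sum_singleton]
        have hlt : φ.2 < p := H.S_lt Q φ hφ
        by_cases he : φ.2 = q % p
        · rw [if_pos ⟨by rw [← hne]; simp, he⟩]
          have := Tests_Pr_le_one H hN Q (fun x => (q + x k) % p = val φ x % p)
          linarith
        · rw [Tests_Pr_false _ (fun x hx => by
            rw [hv x] at hx
            have h5 := Tests_cancel (y := 0) (A := q) (B := φ.2) (S := x k) (by simpa using hx)
            rw [Nat.mod_eq_of_lt hlt, add_zero] at h5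
            exact he h5)]
          linarith
      · have h2 := Pr_coinc_mod_le H.lam ho hN hoH H.Rp (({k} : Finset (Fin s)), q) φ (hkact q)
          (H.S_act Q φ hφ) hne 0 0
        simp only [Tests_val_single, add_zero] at h2
        linarith
    refine (sum_le_sum h1).trans ?_
    rw [sum_add_distrib, sum_const, nsmul_eq_mul, ← sum_filter, sum_const, nsmul_eq_mul, mul_one]
    gcongr
  have hC : Pr Λ R (σ.kd Q) (fun x => ∃ u ∈ g.2 ×ˢ σ.S Q, (val u.1 x + y) % p = val u.2 x % p) ≤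
      2 * s * K + ((((σ.S Q) ×ˢ (σ.Bf Q)).filter fun u =>
        u.1.1 = u.2.1 ∧ u.1.2 % p = (u.2.2 + y) % p).card : ℝ) +
      (((σ.S Q).filter fun φ => φ.1.card = 1 ∧ φ.2 = (σ.z + y) % p).card : ℝ) := by
    refine (Pr_exists_le _ _).trans ?_
    have h1 : ∀ u ∈ g.2 ×ˢ σ.S Q, Pr Λ R (σ.kd Q) (fun x => (val u.1 x + y) % p = val u.2 x % p) ≤
        K + if u.1.1 = u.2.1 ∧ u.2.2 % p = (u.1.2 + y) % p then 1 else 0 := by
      intro u hp
      rw [mem_product] at hp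
      have hi0 : (0:ℝ) ≤ if u.1.1 = u.2.1 ∧ u.2.2 % p = (u.1.2 + y) % p then 1 else 0 := by
        split_ifs <;> norm_num
      by_cases hne : u.1.1 = u.2.1
      · by_cases he : u.2.2 % p = (u.1.2 + y) % p
        · rw [if_pos ⟨hne, he⟩]
          have := Tests_Pr_le_one H hN Q (fun x => (val u.1 x + y) % p = val u.2 x % p)
          linarith
        · rw [Tests_Pr_false _ (fun x hx => by
            apply he
            unfold val at hx
            rw [hne] at hx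
            exact Tests_cancel hx)]
          linarith
      · have h2 := Pr_coinc_mod_le H.lam ho hN hoH H.Rp u.1 u.2 (Tests_gact H hg hp.1)
          (H.S_act Q u.2 hp.2) hne y 0
        simp only [add_zero] at h2
        linarith
    refine (sum_le_sum h1).trans ?_
    rw [sum_add_distrib, sum_const, nsmul_eq_mul, ← sum_filter, sum_const, nsmul_eq_mul, mul_one]
    have h2 : ((g.2 ×ˢ σ.S Q).card : ℝ) * K ≤ 2 * s * K := by
      rw [card_product]
      push_cast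
      gcongr
    have h3 : ((g.2 ×ˢ σ.S Q).filter fun u => u.1.1 = u.2.1 ∧
        u.2.2 % p = (u.1.2 + y) % p).card ≤
        (((σ.S Q) ×ˢ (σ.Bf Q)).filter fun u =>
          u.1.1 = u.2.1 ∧ u.1.2 % p = (u.2.2 + y) % p).card +
        ((σ.S Q).filter fun φ => φ.1.card = 1 ∧ φ.2 = (σ.z + y) % p).card := by
      rw [← card_filter_add_card_filter_not (s := (g.2 ×ˢ σ.S Q).filter
        fun u => u.1.1 = u.2.1 ∧ u.2.2 % p = (u.1.2 + y) % p) (fun u => u.1 ∈ σ.Bf Q)]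
      refine add_le_add ?_ ?_
      · refine card_le_card_of_injOn (fun u => (u.2, u.1)) ?_ ?_
        · intro u hp
          obtain ⟨hp1, hpB⟩ := mem_filter.1 (mem_coe.1 hp)
          obtain ⟨hp2, hp3, hp4⟩ := mem_filter.1 hp1
          rw [mem_product] at hp2
          rw [mem_coe, mem_filter, mem_product]
          exact ⟨⟨hp2.2, hpB⟩, hp3.symm, hp4⟩
        · intro u _ q _ hpq
          simp only [Prod.mk.injEq] at hpq
          exact Prod.ext hpq.2 hpq.1
      · refine card_le_card_of_injOn (fun u => u.2) ?_ ?_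
        · intro u hp
          obtain ⟨hp1, hpB⟩ := mem_filter.1 (mem_coe.1 hp)
          obtain ⟨hp2, hp3, hp4⟩ := mem_filter.1 hp1
          rw [mem_product] at hp2
          rw [mem_coe, mem_filter]
          have hne : u.2.1.Nonempty := by
            obtain ⟨i, hi, _⟩ := H.S_hi Q u.2 hp2.2
            exact ⟨i, hi⟩
          have hlt : u.2.2 < p := H.S_lt Q u.2 hp2.2
          have h5 : u.1.1.card = 1 ∧ u.1.2 = σ.z := by
            by_contra h6
            apply hpB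
            unfold PSys.Bf
            rw [mem_filter, mem_biUnion]
            exact ⟨⟨g, hg, hp2.1⟩, by rw [hp3]; exact hne, h6⟩
          refine ⟨hp2.2, ?_, ?_⟩
          · show u.2.1.card = 1
            rw [← hp3]; exact h5.1
          · show u.2.2 = (σ.z + y) % p
            rw [Nat.mod_eq_of_lt hlt, h5.2] at hp4
            exact hp4
        · intro u hp q hq hpq
          obtain ⟨hp1, _⟩ := mem_filter.1 (mem_coe.1 hp)
          obtain ⟨hp2, hp3, _⟩ := mem_filter.1 hp1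
          obtain ⟨hq1, _⟩ := mem_filter.1 (mem_coe.1 hq)
          obtain ⟨hq2, hq3, _⟩ := mem_filter.1 hq1
          rw [mem_product] at hp2 hq2
          have hpq' : u.2 = q.2 := hpq
          refine Prod.ext (H.G_ne Q g hg u.1 hp2.1 q.1 hq2.1 ?_) hpq'
          rw [hp3, hq3, hpq']
    have h3' : (((g.2 ×ˢ σ.S Q).filter fun u => u.1.1 = u.2.1 ∧
        u.2.2 % p = (u.1.2 + y) % p).card : ℝ) ≤
        ((((σ.S Q) ×ˢ (σ.Bf Q)).filter fun u =>
          u.1.1 = u.2.1 ∧ u.1.2 % p = (u.2.2 + y) % p).card : ℝ) +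
        (((σ.S Q).filter fun φ => φ.1.card = 1 ∧ φ.2 = (σ.z + y) % p).card : ℝ) := by
      exact_mod_cast h3
    linarith
  -- the events cover the window
  have hcov : Pr Λ R (σ.kd Q) (fun x => x k ∈ Win b) ≤ Pr Λ R (σ.kd Q) (fun x =>
      TA σ Win p Q y π1 π2 k x ∨ ((∃ u ∈ g.2.offDiag, val u.1 x % p = val u.2 x % p) ∨
        ((∃ β ∈ g.2, (π1 + x k) % p = (val β x + y) % p) ∨ ((∃ β ∈ g.2, (π2 + x k) % p = (val β x + y) % p) ∨
          ((∃ u ∈ g.2 ×ˢ σ.S Q, (val u.1 x + y) % p = val u.2 x % p) ∨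
            ((∃ φ ∈ σ.S Q, (π1 + x k) % p = val φ x % p) ∨ (∃ φ ∈ σ.S Q, (π2 + x k) % p = val φ x % p))))))) := by
    refine Pr_mono fun x hx => ?_
    by_contra hno
    push Not at hno
    obtain ⟨h0, h1, h2, h3, h4, h5, h6⟩ := hno
    apply h0
    refine ⟨g, hg, hgk, ?_, ?_, ?_, ?_⟩
    · intro b' hb'
      have h7 : b' = b := by
        rw [hb] at hb'
        exact (Option.some_injective _ hb').symm
      rw [h7]; exact hx
    · intro β hβ β' hβ' hv
      by_contra hne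
      exact h1 (β, β') (mem_offDiag.2 ⟨hβ, hβ', hne⟩) hv
    · intro β hβ
      exact ⟨h2 β hβ, h3 β hβ⟩
    · intro φ hφ
      exact ⟨fun β hβ => h4 (β, φ) (mem_product.2 ⟨hβ, hφ⟩), h5 φ hφ, h6 φ hφ⟩
  have e1 := Pr_or_le (Λ := Λ) (R := R) (o := σ.kd Q) (TA σ Win p Q y π1 π2 k)
    (fun x => (∃ u ∈ g.2.offDiag, val u.1 x % p = val u.2 x % p) ∨
        ((∃ β ∈ g.2, (π1 + x k) % p = (val β x + y) % p) ∨ ((∃ β ∈ g.2, (π2 + x k) % p = (val β x + y) % p) ∨
          ((∃ u ∈ g.2 ×ˢ σ.S Q, (val u.1 x + y) % p = val u.2 x % p) ∨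
            ((∃ φ ∈ σ.S Q, (π1 + x k) % p = val φ x % p) ∨ (∃ φ ∈ σ.S Q, (π2 + x k) % p = val φ x % p))))))
  have e2 := Pr_or_le (Λ := Λ) (R := R) (o := σ.kd Q)
    (fun x => ∃ u ∈ g.2.offDiag, val u.1 x % p = val u.2 x % p)
    (fun x => (∃ β ∈ g.2, (π1 + x k) % p = (val β x + y) % p) ∨ ((∃ β ∈ g.2, (π2 + x k) % p = (val β x + y) % p) ∨
          ((∃ u ∈ g.2 ×ˢ σ.S Q, (val u.1 x + y) % p = val u.2 x % p) ∨
            ((∃ φ ∈ σ.S Q, (π1 + x k) % p = val φ x % p) ∨ (∃ φ ∈ σ.S Q, (π2 + x k) % p = val φ x % p)))))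
  have e3 := Pr_or_le (Λ := Λ) (R := R) (o := σ.kd Q)
    (fun x => ∃ β ∈ g.2, (π1 + x k) % p = (val β x + y) % p)
    (fun x => (∃ β ∈ g.2, (π2 + x k) % p = (val β x + y) % p) ∨
          ((∃ u ∈ g.2 ×ˢ σ.S Q, (val u.1 x + y) % p = val u.2 x % p) ∨
            ((∃ φ ∈ σ.S Q, (π1 + x k) % p = val φ x % p) ∨ (∃ φ ∈ σ.S Q, (π2 + x k) % p = val φ x % p))))
  have e4 := Pr_or_le (Λ := Λ) (R := R) (o := σ.kd Q)
    (fun x => ∃ β ∈ g.2, (π2 + x k) % p = (val β x + y) % p)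
    (fun x => (∃ u ∈ g.2 ×ˢ σ.S Q, (val u.1 x + y) % p = val u.2 x % p) ∨
            ((∃ φ ∈ σ.S Q, (π1 + x k) % p = val φ x % p) ∨ (∃ φ ∈ σ.S Q, (π2 + x k) % p = val φ x % p)))
  have e5 := Pr_or_le (Λ := Λ) (R := R) (o := σ.kd Q)
    (fun x => ∃ u ∈ g.2 ×ˢ σ.S Q, (val u.1 x + y) % p = val u.2 x % p)
    (fun x => (∃ φ ∈ σ.S Q, (π1 + x k) % p = val φ x % p) ∨ (∃ φ ∈ σ.S Q, (π2 + x k) % p = val φ x % p))
  have e6 := Pr_or_le (Λ := Λ) (R := R) (o := σ.kd Q)
    (fun x => ∃ φ ∈ σ.S Q, (π1 + x k) % p = val φ x % p) (fun x => ∃ φ ∈ σ.S Q, (π2 + x k) % p = val φ x % p)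
  have f1 := hB π1
  have f2 := hB π2
  have f3 := hD π1
  have f4 := hD π2
  have f5 : (6 + 4 * (s:ℝ)) / (c1 * N) = 6 * K + 4 * s * K := by
    rw [hK]; ring
  rw [f5]
  linarith

/-- total probability of the coincidences. Proof: for a part `Q` with the gadget `g`, `g.1 = k`:
`Pr (TA) ≥ Pr (window) - Pr (a coincidence) ≥ 1/8 - ...` (`Pr_window`); with `H = c1 N`:
(all equations modulo `p`, `Pr_coinc_mod_le`) (i) `val β = val β'`, `β ≠ β'` in `g.2`: different slots by `G_ne`, `≤ 1/H` (at most 2 ordered pairs);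
(ii) `π + x k = val β + y`: `k ∉ β.1`, so the slots `{k}` and `β.1` are different, `≤ 1/H` (4 cases);
(iii) `val β + y = val φ`, `φ ∈ S Q` (at most `2 s` cases): `≤ 1/H` if the slots differ; if they are the
same then `φ.2 = β.2 + y`: if `β ∈ Bf Q` this happens in at most `B` parts by `m3`; if `β ∉ Bf Q`
then `β.1` is not empty (as `φ.1 ≠ ∅` by `S_hi`), so `β.1.card = 1`, `β.2 = σ.z`, `φ.2 = z + y` modulo
`p`: at most `B` parts by `m1`; (iv) `π + x k = val φ` (at most `2 s` cases): `≤ 1/H` if `φ.1 ≠ {k}`, else `φ.2 = π`: at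
most `B` parts by `m1`, for each of `π1, π2`. Sum over at most `N` parts. -/
theorem coinc_le (H : PSOK σ Λ h R p N k0 B c1 C1 ν ν' Sp Win) (hN : 0 < c1 * N)
    (y π1 π2 : ℕ) (k : Fin s) :
    ∑ Q ∈ univ.filter (fun Q => ∃ g ∈ σ.Gd Q, g.1 = k),
      (1 / 8 - Pr Λ R (σ.kd Q) (TA σ Win p Q y π1 π2 k)) ≤ (9 + 4 * s) / c1 + 4 * B := by
  have hc1 := Tests_c1pos hN
  have hN0 : (0:ℝ) < N := by
    rcases (Nat.cast_nonneg (α := ℝ) N).lt_or_eq with h1 | h1
    · exact h1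
    · rw [← h1, mul_zero] at hN
      exact absurd hN (lt_irrefl 0)
  refine (sum_le_sum fun Q hQ => Tests_coinc_part H hN y π1 π2 k Q (mem_filter.1 hQ).2).trans ?_
  refine (sum_le_sum_of_subset_of_nonneg (filter_subset _ _) fun Q _ _ => by positivity).trans ?_
  rw [sum_add_distrib, sum_add_distrib, sum_add_distrib, sum_add_distrib, sum_const, nsmul_eq_mul]
  have h1 : ((univ : Finset P).card : ℝ) ≤ N := by
    rw [card_univ]
    exact_mod_cast H.cardP
  have h2 : ((univ : Finset P).card : ℝ) * ((6 + 4 * s) / (c1 * N)) ≤ (9 + 4 * s) / c1 := by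
    calc ((univ : Finset P).card : ℝ) * ((6 + 4 * s) / (c1 * N)) ≤
          N * ((6 + 4 * s) / (c1 * N)) := by gcongr
      _ = (6 + 4 * s) / c1 := by field_simp
      _ ≤ (9 + 4 * s) / c1 := by gcongr; norm_num
  have h3 : ∑ Q, ((((σ.S Q) ×ˢ (σ.Bf Q)).filter fun u =>
        u.1.1 = u.2.1 ∧ u.1.2 % p = (u.2.2 + y) % p).card : ℝ) ≤ B := by
    exact_mod_cast H.m3 y
  have h4 : ∀ q : ℕ, ∑ Q, (((σ.S Q).filter fun φ => φ.1.card = 1 ∧ φ.2 = q).card : ℝ) ≤ B := by
    intro q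
    exact_mod_cast H.m1 q
  have h5 := h4 ((σ.z + y) % p)
  have h6 := h4 (π1 % p)
  have h7 := h4 (π2 % p)
  linarith

/-- weight of a test: `sum_wH_filter_ge` and `coinc_le` (`Pr ≥ 0` for the other parts) -/
theorem tA_weight (H : PSOK σ Λ h R p N k0 B c1 C1 ν ν' Sp Win) (hN : 0 < c1 * N)
    (j : TJ s p) :
    1 / 8 * ((univ.filter fun Q => ∃ g ∈ σ.Gd Q, g.1 = j.2.2.2).card : ℝ) -
      ((9 + 4 * s) / c1 + 4 * B + (16 * s ^ 2 / c1 + B)) ≤ ∑ e ∈ tA σ Win R p j, wH σ Λ R p e := by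
  classical
  have h1 := sum_wH_filter_ge H hN
    (fun Q => TA σ Win p Q (j.1 : ℕ) (j.2.1 : ℕ) (j.2.2.1 : ℕ) j.2.2.2)
  have h2 := coinc_le H hN (j.1 : ℕ) (j.2.1 : ℕ) (j.2.2.1 : ℕ) j.2.2.2
  rw [sum_sub_distrib, sum_const, nsmul_eq_mul] at h2
  have h3 : ∑ Q ∈ univ.filter (fun Q => ∃ g ∈ σ.Gd Q, g.1 = j.2.2.2),
      Pr Λ R (σ.kd Q) (TA σ Win p Q (j.1 : ℕ) (j.2.1 : ℕ) (j.2.2.1 : ℕ) j.2.2.2) ≤
      ∑ Q, Pr Λ R (σ.kd Q) (TA σ Win p Q (j.1 : ℕ) (j.2.1 : ℕ) (j.2.2.1 : ℕ) j.2.2.2) :=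
    sum_le_sum_of_subset_of_nonneg (filter_subset _ _) fun Q _ _ => Pr_nonneg _
  have h4 : ∑ e ∈ univ.filter (fun e : HE P s R =>
      TA σ Win p e.1 (j.1 : ℕ) (j.2.1 : ℕ) (j.2.2.1 : ℕ) j.2.2.2 (lb e)), wH σ Λ R p e =
      ∑ e ∈ tA σ Win R p j, wH σ Λ R p e := by
    unfold tA
    refine sum_congr ?_ fun _ _ => rfl
    ext e
    simp only [mem_filter]
  rw [h4] at h1
  linarith

end

end Pool.Agent.AMA
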